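import Pool.Agent.H66.RS.Transfer

/-!
# RS module One: the road system for `p = 1`

`reg z r`: all elements of the box are open; hubs are the points themselves.
-/

open MeasureTheory Filter Topology
open Pool.Agent.H17.IIC Pool.Agent.H41.QC Pool.Agent.H47.GM Pool.Agent.H17.QA

namespace Pool.Agent.H66.RS

variable {d : ℕ}

lemma One_null {p : unitInterval} (hp : (p : ℝ) = 1) (z : V d) (r : ℕ) :
    (prodBern (El d) p) {ω | ∀ e ∈ InE (Bx z r : Set (V d)), ω e = true}ᶜ = 0 := by
  have h1 : {ω : El d → Bool | ∀ e ∈ InE (Bx z r : Set (V d)), ω e = true}ᶜ ⊆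
      ⋃ e : El d, {ω | ω e = true}ᶜ := by
    intro ω hω
    rw [Set.mem_compl_iff] at hω
    by_contra hcon
    apply hω
    intro e _
    by_contra he
    exact hcon (Set.mem_iUnion.2 ⟨e, he⟩)
  have h2 : ∀ e : El d, (prodBern (El d) p) {ω | ω e = true}ᶜ = 0 := by
    intro e
    have h3 : {ω : El d → Bool | ω e = true}ᶜ =
        Set.pi (({e} : Finset (El d)) : Set (El d)) (fun _ => {false}) := by
      ext ω
      simp
    rw [h3, prodBern, Measure.infinitePi_pi (μ := fun _ : El d => bern p)
      (fun _ _ => MeasurableSet.of_discrete), Finset.prod_singleton]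
    simp [bern, hp]
  exact measure_mono_null h1 (measure_iUnion_null h2)

lemma One_path {κ : Kind} {ω : El d → Bool} : ∀ (w : List (V d × ℕ)) (a b : V d × ℕ),
    w.IsChain (fun a b => (a.1 = b.1 ∨ LatAdj a.1 b.1) ∧ a.2 ≤ 2 * b.2 ∧ b.2 ≤ 2 * a.2) →
    (∀ a ∈ w, 1 ≤ a.2 ∧ ∀ e ∈ InE (Bx a.1 a.2 : Set (V d)), ω e = true) →
    w.head? = some a → w.getLast? = some b →
    ∃ q : (Gr κ ω).Walk a.1 b.1, q.length + 1 ≤ w.length ∧
      ∀ v ∈ q.support, ∃ c ∈ w, v ∈ Bx c.1 c.2 := by
  have hself : ∀ (z : V d) (r : ℕ), z ∈ Bx z r := fun z r => by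
    rw [mem_Bx]; intro i; simp
  intro w
  induction w with
  | nil => intro a b _ _ h; simp at h
  | cons a w ih =>
    intro a' b hch hreg hhead hlast
    have haa : a = a' := by simpa using hhead
    subst haa
    cases w with
    | nil =>
      have hab : a = b := by simpa using hlast
      subst hab
      refine ⟨SimpleGraph.Walk.nil, by simp, ?_⟩
      intro v hv
      rw [SimpleGraph.Walk.support_nil, List.mem_singleton] at hv
      rw [hv]
      exact ⟨a, List.mem_cons_self, hself _ _⟩
    | cons a2 w =>
      rw [List.isChain_cons_cons] at hch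
      obtain ⟨⟨h1, h2, h3⟩, hch'⟩ := hch
      obtain ⟨q, hq1, hq2⟩ := ih a2 b hch' (fun c hc => hreg c (List.mem_cons_of_mem _ hc)) rfl
        (by rw [List.getLast?_cons_cons] at hlast; exact hlast)
      rcases h1 with h1 | h1
      · rw [h1]
        refine ⟨q, ?_, fun v hv => ?_⟩
        · rw [List.length_cons]
          omega
        · obtain ⟨c, hc, hvc⟩ := hq2 v hv
          exact ⟨c, List.mem_cons_of_mem _ hc, hvc⟩
      · have h4 := hreg a List.mem_cons_self
        have h5 : a2.1 ∈ Bx a.1 a.2 := by
          rw [mem_Bx]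
          intro i
          have h6 := bd_adj_cl h1 i
          have h7 : (1 : ℤ) ≤ a.2 := by exact_mod_cast h4.1
          rw [abs_sub_comm]
          push_cast at h6
          linarith
        have h6 : (Gr κ ω).Adj a.1 a2.1 := by
          refine ⟨h1, ?_⟩
          cases κ
          · show ω s(a.1, a2.1) = true
            apply h4.2
            intro v hv
            rcases Sym2.mem_iff.1 hv with rfl | rfl
            · exact hself _ _
            · exact h5
          · show ω s(a.1, a.1) = true ∧ ω s(a2.1, a2.1) = true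
            constructor
            · apply h4.2
              intro v hv
              rcases Sym2.mem_iff.1 hv with rfl | rfl <;> exact hself _ _
            · apply h4.2
              intro v hv
              rcases Sym2.mem_iff.1 hv with rfl | rfl <;> exact h5
        refine ⟨SimpleGraph.Walk.cons h6 q, ?_, fun v hv => ?_⟩
        · rw [SimpleGraph.Walk.length_cons, List.length_cons]
          omega
        · rw [SimpleGraph.Walk.support_cons, List.mem_cons] at hv
          rcases hv with rfl | hv
          · exact ⟨a, List.mem_cons_self, hself _ _⟩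
          · obtain ⟨c, hc, hvc⟩ := hq2 v hv
            exact ⟨c, List.mem_cons_of_mem _ hc, hvc⟩

theorem road_sys_one (κ : Kind) (d : ℕ) (p : unitInterval) (hp : (p : ℝ) = 1) :
    Nonempty (RoadSys κ d p) := by
  have hself : ∀ (z : V d) (r : ℕ), z ∈ Bx z r := fun z r => by
    rw [mem_Bx]; intro i; simp
  refine ⟨{
    L := 1
    hL := le_rfl
    C := 1
    c := 1
    hC := one_pos
    hc := one_pos
    reg := fun z r => {ω | ∀ e ∈ InE (Bx z r : Set (V d)), ω e = true}
    hub := fun z _ _ => z
    lam := fun _ _ _ => 1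
    dom := fun _ _ => 1
    reg_on := ?_
    hub_on := fun _ _ _ _ _ _ => rfl
    lam_on := fun _ _ _ _ _ _ => rfl
    hub_mem := fun z r _ _ => hself z r
    prob := ?_
    dom_meas := fun _ => measurable_const
    dom_int := ?_
    lam_le := ?_
    path := ?_
    shift_reg := ?_
    shift_hub := fun _ _ _ _ => rfl
    shift_lam := fun _ _ _ _ => rfl
    shift_dom := fun _ _ _ => rfl }⟩
  · intro z r ω ω' h
    constructor
    · intro h1 e he
      rw [← h e he]
      exact h1 e he
    · intro h1 e he
      rw [h e he]
      exact h1 e he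
  · intro z r
    rw [Measure.real, One_null hp z r, ENNReal.toReal_zero]
    positivity
  · intro z
    rw [lintegral_one, measure_univ, ENNReal.ofReal_one]
  · intro z r ω _
    simp
  · intro ω w hch hreg a b ha hb
    obtain ⟨q, hq1, hq2⟩ := One_path (κ := κ) (ω := ω) w a b hch hreg ha hb
    refine rw_of_walk κ ω q ?_ hq2 ?_
    · intro _
      have ha' : a ∈ w := List.mem_of_mem_head? (by rw [ha]; rfl)
      apply (hreg a ha').2
      intro v hv
      rcases Sym2.mem_iff.1 hv with rfl | rfl <;> exact hself _ _
    · rw [List.map_const', List.sum_replicate, smul_eq_mul, mul_one]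
      omega
  · intro v z r ω
    constructor
    · intro h e he
      apply h
      intro u hu
      obtain ⟨u', hu', rfl⟩ := Sym2.mem_map.1 hu
      have h1 := he u' hu'
      rw [Finset.mem_coe, mem_Bx] at h1 ⊢
      intro i
      have := h1 i
      simpa using this
    · intro h e he
      have h1 := h (e.map fun y => y - ((1 : ℕ) : ℤ) • v) (by
        intro u hu
        obtain ⟨u', hu', rfl⟩ := Sym2.mem_map.1 hu
        have h1 := he u' hu'
        rw [Finset.mem_coe, mem_Bx] at h1 ⊢
        intro i
        have := h1 i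
        simp only [Pi.add_apply, Pi.sub_apply] at this ⊢
        rwa [show u' i - (((1 : ℕ) : ℤ) • v) i - z i = u' i - (z i + (((1 : ℕ) : ℤ) • v) i) by ring])
      have h2 : (e.map fun y => y - ((1 : ℕ) : ℤ) • v).map (fun y => y + ((1 : ℕ) : ℤ) • v) = e := by
        rw [Sym2.map_map]
        have : (fun y => y + ((1 : ℕ) : ℤ) • v) ∘ (fun y : V d => y - ((1 : ℕ) : ℤ) • v) = id := by
          funext y
          simp
        rw [this, Sym2.map_id]
        rfl
      change ω _ = true at h1
      rwa [h2] at h1

end Pool.Agent.H66.RS
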