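import Pool.Agent.H66.RS.Final
import Pool.Agent.H66.RS.One

/-!
# RS: the road system exists for every supercritical parameter
-/

open MeasureTheory Filter Topology
open Pool.Agent.H17.IIC Pool.Agent.H41.QC Pool.Agent.H47.GM Pool.Agent.H17.QA

namespace Pool.Agent.H66.RS

/-- the road system of H17/QA for every parameter above a supercritical one, including `p = 1` -/
theorem roadSys_exists (κ : Kind) (n : ℕ) (p₀ p : unitInterval) (h : (p₀ : ℝ) < p)
    (hth : 0 < theta κ (n + 2) p₀) : Nonempty (RoadSys κ (n + 2) p) := by
  rcases lt_or_eq_of_le p.2.2 with hp | hp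
  · exact road_sys κ (by omega) p₀ p h hp hth
  · exact road_sys_one κ (n + 2) p hp

end Pool.Agent.H66.RS
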