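import Pool.Agent.H41.QC.Bad
import Pool.Agent.H41.QC.Trans
import Pool.Agent.H47.GM.Defs

/-!
# RS: open roads in supercritical percolation, definitions

Block construction for bond and site percolation on `ℤ^d` at a parameter `p` such that
`theta p₀ > 0` for some `p₀ < p`, deterministic geometry of the bad blocks; `Final.lean` gives the
road system of H17/QA.
-/

open MeasureTheory Filter Topology
open Pool.Agent.H17.IIC Pool.Agent.H41.QC Pool.Agent.H47.GM

namespace Pool.Agent.H66.RS

variable {d : ℕ}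

/-- translated configuration: `shC v ω e = ω (e + v)` -/
def shC (v : V d) (ω : El d → Bool) : El d → Bool := fun e => ω (shE v e)

/-- the thinned configuration -/
def andC (ω τ : El d → Bool) : El d → Bool := fun e => ω e && τ e

/-- starting points near `0` of long open paths of `X` are joined in `Y` -/
def UU (κ : Kind) (j k : ℕ) (X Y : El d → Bool) : Prop :=
  ∀ y y' : V d, (∀ i, |y i| ≤ 2 ^ (k - j)) → (∀ i, |y' i| ≤ 2 ^ (k - j)) →
    0 < Pn κ X (2 ^ k) y → 0 < Pn κ X (2 ^ k) y' → Joined κ Y y y' (2 ^ k)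

/-- some vertex of the box of radius `m` starts an open path of length `n` -/
def LP (κ : Kind) (m n : ℕ) (X : El d → Bool) : Prop := ∃ u ∈ Bx (0 : V d) m, 0 < Pn κ X n u

/-- conditional probability of `UU` given `Y` -/
noncomputable def uP (κ : Kind) (q : unitInterval) (j k : ℕ) (Y : El d → Bool) : ℝ :=
  (prodBern (El d) q).real {τ | UU κ j k (andC Y τ) Y}

/-- conditional probability of `LP` given `Y` -/
noncomputable def wP (κ : Kind) (q : unitInterval) (m n : ℕ) (Y : El d → Bool) : ℝ :=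
  (prodBern (El d) q).real {τ | LP κ m n (andC Y τ)}

/-- seeds: the box of radius `m` is fully open and very likely starts a long open path of the
thinned configuration -/
def SeedA (κ : Kind) (q : unitInterval) (m n : ℕ) : Set (El d → Bool) :=
  {Y | FullOpen κ Y (Bx (0 : V d) m : Set (V d)) ∧ 9 / 10 ≤ wP κ q m n Y}

/-- the point `t e_0` -/
def e0 (hd : 0 < d) (t : ℕ) : V d := Pi.single ⟨0, hd⟩ (t : ℤ)

/-- parameters of the block construction -/
structure BP where
  κ : Kind
  q : unitInterval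
  j : ℕ
  k : ℕ
  m : ℕ
  K : ℕ

/-- the vertex `v` is the centre of a good block -/
def GoodAt (B : BP) (hd : 0 < d) (v : V d) (Y : El d → Bool) : Prop :=
  9 / 10 ≤ uP B.κ B.q B.j B.k (shC v Y) ∧
    ∃ t, t ≤ B.K ∧ shC (v + e0 hd t) Y ∈ SeedA (d := d) B.κ B.q B.m (2 ^ B.k)

open Classical in
/-- the centre of the first seed -/
noncomputable def hubAt (B : BP) (hd : 0 < d) (v : V d) (Y : El d → Bool) : V d :=
  v + e0 hd (sInf {t | t ≤ B.K ∧ shC (v + e0 hd t) Y ∈ SeedA (d := d) B.κ B.q B.m (2 ^ B.k)})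

/-- centre of the block `x` -/
def bc (s : ℕ) (x : V d) : V d := fun i => (s : ℤ) * x i

/-- block containing `z` -/
def bi (s : ℕ) (z : V d) : V d := fun i => z i / (s : ℤ)

/-- block fields -/
structure Blocks (κ : Kind) (d : ℕ) (p : unitInterval) (ρ : ℝ) where
  s : ℕ
  L : ℕ
  hs : 1 ≤ s
  good : V d → (El d → Bool) → Prop
  h : V d → (El d → Bool) → V d
  loc : ∀ (x : V d) (ω ω' : El d → Bool), (∀ e : El d, (∀ v ∈ e, v ∈ Bx (bc s x) L) → ω e = ω' e) →
    (good x ω ↔ good x ω') ∧ h x ω = h x ω'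
  near : ∀ (x : V d) (ω : El d → Bool), good x ω → ∀ i, |h x ω i - bc s x i| ≤ L
  opn : ∀ (x : V d) (ω : El d → Bool), good x ω → κ = .site → ω s(h x ω, h x ω) = true
  link : ∀ (x x' : V d) (ω : El d → Bool), good x ω → good x' ω → LatAdj x x' →
    Joined κ ω (h x ω) (h x' ω) L
  prob : ∀ B : Finset (V d), (prodBern (El d) p).real {ω | ∀ x ∈ B, ¬ good x ω} ≤ ρ ^ B.card
  shift_good : ∀ (v x : V d) (ω : El d → Bool), good (x + v) ω ↔ good x (shC ((s : ℤ) • v) ω)
  shift_h : ∀ (v x : V d) (ω : El d → Bool),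
    h (x + v) ω = h x (shC ((s : ℤ) • v) ω) + (s : ℤ) • v

/-! ## deterministic part -/

/-- cluster of the bad block `b` (bad blocks at sup distance at most `5`) -/
def clF (F : Set (V d)) (b : V d) : Set (V d) := clus .site (ofSet F) b

/-- all bad clusters meeting the box of radius `40 t` at `x` have at most `t` elements -/
def Qs (F : Set (V d)) (x : V d) (t : ℕ) : Prop :=
  ∀ b ∈ F, (∀ i, |b i - x i| ≤ 40 * t) → (clF F b).Finite ∧ (clF F b).ncard ≤ t

/-- `y` is exterior to the set `C` -/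
def ExtC (hd : 0 < d) (C : Set (V d)) (y : V d) : Prop :=
  ∃ z : V d, (∀ c ∈ C, c ⟨0, hd⟩ + 2 < z ⟨0, hd⟩) ∧ y ∈ outer (fat C) z

/-- `y` is exterior to all bad clusters meeting the box of radius `40 r` at `x` -/
def ExtR (hd : 0 < d) (F : Set (V d)) (x : V d) (r : ℕ) (y : V d) : Prop :=
  ∀ b ∈ F, (∀ i, |b i - x i| ≤ 40 * r) → ExtC hd (clF F b) y

/-- local size at `x` seen from scale `r` -/
noncomputable def Dr (F : Set (V d)) (r : ℕ) (x : V d) : ℕ :=
  sInf {t | 1 ≤ t ∧ ∀ t', t ≤ t' → t' ≤ r → Qs F x t'}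

/-- exit time -/
noncomputable def tr (hd : 0 < d) (F : Set (V d)) (r : ℕ) (x : V d) : ℕ :=
  sInf {t | ExtR hd F x r (x + e0 hd t)}

/-- the first exterior point on the ray from `x` in direction `e_0` -/
noncomputable def yr (hd : 0 < d) (F : Set (V d)) (r : ℕ) (x : V d) : V d :=
  x + e0 hd (tr hd F r x)

end Pool.Agent.H66.RS
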