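import Pool.Agent.H47.GM.ConnC
import Pool.Agent.H66.RS.Defs

/-!
# RS module ConnU: long open paths of the smaller configuration are joined in the larger one

Copy of the last part of `conn_c` (H47/GM/ConnC) with two moving points `y`, `y'` instead of `0`, `y`:
`conn_one` gives both `Joined y v` and `Joined y' v` with length `ε / 2 * 2 ^ k`, `ε = 1`.
-/

open MeasureTheory Filter Topology
open Pool.Agent.H17.IIC Pool.Agent.H41.QC Pool.Agent.H47.GM

namespace Pool.Agent.H66.RS

variable {d : ℕ}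

theorem conn_u (κ : Kind) (hd : 2 ≤ d) (p₀ p₁ δ : unitInterval) (h01 : (p₀ : ℝ) < p₁)
    (h1 : (p₁ : ℝ) < 1) (hδ : 0 < (δ : ℝ)) (hθ : 0 < theta κ d p₀) :
    ∃ j : ℕ, 1 ≤ j ∧ ∀ᵐ x ∂((mu (parJ d 2 p₁ δ)).prod (prodBern (El d) δ)), ∀ᶠ k : ℕ in atTop,
      UU κ j k (fld 0 x.1) (fun e => tot x.1 e || x.2 e) := by
  classical
  obtain ⟨ℓ, C, hℓ, hB⟩ := backbone κ hd p₀ p₁ δ h01 h1 hθ hδ
  obtain ⟨j, hj1, hj⟩ : ∃ j : ℕ, 1 ≤ j ∧ 4 * (C : ℝ) < 1 * 2 ^ j := by
    have h2 : Tendsto (fun j : ℕ => (1 : ℝ) * (2 : ℝ) ^ j) atTop atTop :=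
      (tendsto_pow_atTop_atTop_of_one_lt (by norm_num)).const_mul_atTop one_pos
    obtain ⟨j, h3, h4⟩ := ((h2.eventually_gt_atTop (4 * (C : ℝ))).and
      (eventually_ge_atTop 1)).exists
    exact ⟨j, h4, h3⟩
  refine ⟨j, hj1, ?_⟩
  rw [Measure.ae_prod_iff_ae_ae]
  · filter_upwards [hB] with ω hω
    obtain ⟨v, hv⟩ := conn_one κ (by omega) hℓ (fld 0 ω) (tot ω) (fld_le_tot 0 ω) hω δ hδ
      one_pos hj
    filter_upwards [hv] with σ hσ
    filter_upwards [hσ] with k hk y y' hy hy' hPy hPy'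
    have e2 := ConnOne_trans (hk y hy hPy) (ConnOne_symm (hk y' hy' hPy'))
    have e3 : (1 : ℝ) / 2 * 2 ^ k + 1 / 2 * 2 ^ k = 2 ^ k := by ring
    rw [e3] at e2
    exact e2
  · have hP : ∀ (N : ℕ) (x : V d), Measurable
        (fun z : (Fin 3 × El d → Bool) × (El d → Bool) => 0 < Pn κ (fld 0 z.1) N x) := by
      intro N x
      have h2 : MeasurableSet {ω : El d → Bool | (0 : ℝ) < (Pn κ ω N x : ℝ)} :=
        measurableSet_lt measurable_const (Pn_measurable κ N x)
      have h3 : MeasurableSet {ω : El d → Bool | 0 < Pn κ ω N x} := by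
        convert h2 using 3
        exact Nat.cast_pos.symm
      exact measurableSet_setOfPred.1 (((measurable_fld (0 : Fin 3)).comp measurable_fst) h3)
    have hJ : ∀ (x y : V d) (r : ℝ), Measurable
        (fun z : (Fin 3 × El d → Bool) × (El d → Bool) =>
          Joined κ (fun e => tot z.1 e || z.2 e) x y r) := by
      intro x y r
      have h2 : Measurable (fun (z : (Fin 3 × El d → Bool) × (El d → Bool)) (e : El d) =>
          tot z.1 e || z.2 e) :=
        coupling_measurable_or.comp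
          ((measurable_tot.comp measurable_fst).prodMk measurable_snd)
      exact measurableSet_setOfPred.1 (h2 (measurable_joined κ x y r))
    refine measurableSet_setOfPred.2 ?_
    simp only [eventually_atTop, UU]
    refine Measurable.exists fun N => Measurable.forall fun k => measurable_const.imp ?_
    refine Measurable.forall fun y => Measurable.forall fun y' => measurable_const.imp
      (measurable_const.imp ((hP _ _).imp ((hP _ _).imp ?_)))
    exact hJ _ _ _

end Pool.Agent.H66.RS
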