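import Pool.Agent.H66.RS.Loc

/-!
# RS module HubJoin: two seeds near a point with large `uP` are joined

Let `a`, `b` be the centres (relative to `v`): `a + m, b + m ≤ 2 ^ (k - j)`. The three events
`UU κ j k (andC Y' τ) Y'` (`Y' = shC v Y`), the event that some `u ∈ Bx a m` starts an open path of length `2^k` of
`andC Y' τ`, the same for `b`, have probability at least `9/10` under `τ` (the law of `τ` is
invariant under translations, `prodBern_shift`, `Pn_shift`), so they occur simultaneously for some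
`τ`: `Joined κ Y' u u' (2^k)`. The boxes `Bx a m`, `Bx b m` are fully open, `rch_box`, `Rch.joined` (H47/GM/Basic)
join `a` to `u` and `u'` to `b` by paths of length at most `(2m+1)^d + 1`.
-/

open MeasureTheory Filter Topology
open Pool.Agent.H17.IIC Pool.Agent.H41.QC Pool.Agent.H47.GM

namespace Pool.Agent.H66.RS

variable {d : ℕ}

lemma HubJoin_card_Bx (c : V d) (m : ℕ) : (Bx c m).card = (2 * m + 1) ^ d := by
  unfold Bx
  rw [Fintype.card_piFinset]
  have h : ∀ i : Fin d, (Finset.Icc (c i - (m : ℤ)) (c i + m)).card = 2 * m + 1 := by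
    intro i
    rw [Int.card_Icc]
    omega
  simp only [h, Finset.prod_const, Finset.card_univ, Fintype.card_fin]

/-- the centre of a fully open box is joined to every vertex of the box -/
lemma HubJoin_centre (κ : Kind) (q : unitInterval) (m n : ℕ) (w u : V d) (Y : El d → Bool)
    (hA : shC w Y ∈ SeedA (d := d) κ q m n) (hu : u ∈ Bx (0 : V d) m) :
    Joined κ Y w (u + w) (((2 * m + 1) ^ d + 1 : ℕ) : ℝ) := by
  have h0 : (0 : V d) ∈ Bx (0 : V d) m := by
    rw [mem_Bx]; intro i; simp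
  have h1 := rch_box hA.1 h0 hu
  have h2 := (Rch.joined h1 (fun hκ => hA.1.2 hκ 0 h0)).1
  rw [joined_shift, zero_add, HubJoin_card_Bx] at h2
  exact_mod_cast h2

/-- the shifted long path event -/
lemma HubJoin_shift (κ : Kind) (q : unitInterval) (m n : ℕ) (a : V d) (Y : El d → Bool)
    (hA : shC a Y ∈ SeedA (d := d) κ q m n) :
    ∃ A : Set (El d → Bool), MeasurableSet A ∧ 9 / 10 ≤ (prodBern (El d) q).real A ∧
      ∀ τ ∈ A, ∃ u ∈ Bx (0 : V d) m, 0 < Pn κ (andC Y τ) n (u + a) := by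
  set S : Set (El d → Bool) := {τ | LP κ m n (andC (shC a Y) τ)} with hS
  have hSm : MeasurableSet S := by
    have h1 : Measurable fun τ : El d → Bool => andC (shC a Y) τ :=
      measurable_andC.comp (measurable_const.prodMk measurable_id)
    exact h1 (measurableSet_LP κ m n)
  have hf : Measurable (fun (τ : El d → Bool) (e : El d) => τ (shE a e)) :=
    trans_measurable_shift a
  refine ⟨(fun (τ : El d → Bool) (e : El d) => τ (shE a e)) ⁻¹' S, hf hSm, ?_, ?_⟩
  · have h2 := hA.2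
    unfold wP at h2
    have h3 : (prodBern (El d) q).real ((fun (τ : El d → Bool) (e : El d) => τ (shE a e)) ⁻¹' S)
        = (prodBern (El d) q).real S := by
      rw [measureReal_def, measureReal_def, ← Measure.map_apply hf hSm, prodBern_shift]
    rw [h3]
    exact h2
  · intro τ hτ
    obtain ⟨u, hu, hp⟩ := (hτ : LP κ m n (andC (shC a Y) fun e => τ (shE a e)))
    refine ⟨u, hu, ?_⟩
    rw [Pn_shift]
    exact hp

theorem hub_join (κ : Kind) (q : unitInterval) (j k m : ℕ) (v a b : V d) (Y : El d → Bool)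
    (hu : 9 / 10 ≤ uP κ q j k (shC v Y)) (ha : ∀ i, |a i| + m ≤ 2 ^ (k - j))
    (hb : ∀ i, |b i| + m ≤ 2 ^ (k - j)) (hA : shC (v + a) Y ∈ SeedA (d := d) κ q m (2 ^ k))
    (hB : shC (v + b) Y ∈ SeedA (d := d) κ q m (2 ^ k)) :
    Joined κ Y (v + a) (v + b) (2 ^ k + 2 * ((2 * m + 1) ^ d + 1) : ℕ) := by
  have hA' : shC a (shC v Y) ∈ SeedA (d := d) κ q m (2 ^ k) := by
    rw [shC_shC, add_comm]; exact hA
  have hB' : shC b (shC v Y) ∈ SeedA (d := d) κ q m (2 ^ k) := by
    rw [shC_shC, add_comm]; exact hB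
  obtain ⟨A1, hA1m, hA1p, hA1⟩ := HubJoin_shift κ q m (2 ^ k) a (shC v Y) hA'
  obtain ⟨A2, hA2m, hA2p, hA2⟩ := HubJoin_shift κ q m (2 ^ k) b (shC v Y) hB'
  unfold uP at hu
  set μ := prodBern (El d) q with hμ
  set A0 : Set (El d → Bool) := {τ | UU κ j k (andC (shC v Y) τ) (shC v Y)} with hA0
  have hex : ∃ τ, τ ∈ A0 ∧ τ ∈ A1 ∧ τ ∈ A2 := by
    by_contra hne
    push Not at hne
    have hsub : A0 ⊆ A1ᶜ ∪ A2ᶜ := by
      intro τ h0
      by_cases h1 : τ ∈ A1
      · exact Or.inr (hne τ h0 h1)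
      · exact Or.inl h1
    have h3 : μ.real A0 ≤ μ.real A1ᶜ + μ.real A2ᶜ :=
      (measureReal_mono hsub).trans (measureReal_union_le _ _)
    have h4 : μ.real A1ᶜ = 1 - μ.real A1 := probReal_compl_eq_one_sub hA1m
    have h5 : μ.real A2ᶜ = 1 - μ.real A2 := probReal_compl_eq_one_sub hA2m
    linarith
  obtain ⟨τ, h0, h1, h2⟩ := hex
  obtain ⟨u, hum, hup⟩ := hA1 τ h1
  obtain ⟨u', hum', hup'⟩ := hA2 τ h2
  have hbd : ∀ (c w : V d), (∀ i, |c i| + m ≤ (2 : ℤ) ^ (k - j)) → w ∈ Bx (0 : V d) m →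
      ∀ i, |(w + c) i| ≤ (2 : ℤ) ^ (k - j) := by
    intro c w hc hw i
    rw [mem_Bx] at hw
    have h6 := hw i
    have h7 := hc i
    rw [Pi.zero_apply, sub_zero] at h6
    rw [Pi.add_apply]
    have h8 := abs_add_le (w i) (c i)
    linarith
  have hJ : Joined κ (shC v Y) (u + a) (u' + b) (2 ^ k) :=
    h0 (u + a) (u' + b) (hbd a u ha hum) (hbd b u' hb hum') hup hup'
  rw [joined_shift] at hJ
  have hJ1 := HubJoin_centre κ q m (2 ^ k) (v + a) u Y hA hum
  have hJ2 := HubJoin_centre κ q m (2 ^ k) (v + b) u' Y hB hum'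
  have e1 : u + a + v = u + (v + a) := by abel
  have e2 : u' + b + v = u' + (v + b) := by abel
  rw [e1, e2] at hJ
  have hfin := Detour_joined_trans (Detour_joined_trans hJ1 hJ) (Detour_joined_symm hJ2)
  refine Detour_joined_mono hfin (le_of_eq ?_)
  push_cast
  ring

end Pool.Agent.H66.RS
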