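import Pool.Agent.H66.RS.Loc

/-!
# RS module SeedErg: seeds on the axis near the origin

`erg` (H47/GM/Erg) with `ι = El d`, `par = p` constant (`mu_const`), `s k e = shE (e0 hd k) e`,
`A n = SeedA κ q m n` (`seedA_anti`, `seedA_local` with `box_elements`, `seed_pos`): almost surely there is
`k` with `shC (e0 k) Y ∈ SeedA n` for all `n`. Continuity in `K`. (See SeedInf for the hypothesis
`hfar`, lemma `SeedInf_bound`.)
-/

open MeasureTheory Filter Topology
open Pool.Agent.H17.IIC Pool.Agent.H41.QC Pool.Agent.H47.GM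

namespace Pool.Agent.H66.RS

variable {d : ℕ}

theorem seed_axis (κ : Kind) (hd : 0 < d) (p q : unitInterval) (m : ℕ)
    (hpos : 0 < (prodBern (El d) p).real (⋂ n, SeedA (d := d) κ q m n)) {η : ℝ} (hη : 0 < η) :
    ∃ K : ℕ, ∀ n : ℕ, 1 - η ≤ (prodBern (El d) p).real
      {Y | ∃ t, t ≤ K ∧ shC (e0 hd t) Y ∈ SeedA (d := d) κ q m n} := by
  classical
  set i₀ : Fin d := ⟨0, hd⟩ with hi₀
  have hinj : ∀ k : ℕ, Function.Injective (shE (e0 hd k) : El d → El d) :=
    fun k => trans_shE_injective _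
  have hfar : ∀ Λ : Finset (El d), ∃ M : ℕ, 1 ≤ M ∧ ∀ k l : ℕ, k ≠ l → ∀ i ∈ Λ, ∀ j ∈ Λ,
      (shE (e0 hd (M * k)) i : El d) ≠ shE (e0 hd (M * l)) j := by
    intro Λ
    obtain ⟨B, hB⟩ := SeedInf_bound i₀ Λ
    refine ⟨2 * B + 1, by omega, ?_⟩
    intro k l hkl i hi j hj heq
    obtain ⟨a, ha⟩ : ∃ a, a ∈ i := by
      induction i using Sym2.ind with
      | _ a b => exact ⟨a, Sym2.mem_mk_left _ _⟩
    have h1 : a + e0 hd ((2 * B + 1) * k) ∈ (shE (e0 hd ((2 * B + 1) * l)) j : El d) := by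
      rw [← heq]
      exact Sym2.mem_map.2 ⟨a, ha, rfl⟩
    obtain ⟨b, hb, hab⟩ := Sym2.mem_map.1 h1
    have h2 := congrFun hab i₀
    simp only [e0, Pi.add_apply, hi₀, Pi.single_eq_same] at h2
    have h3 := abs_le.1 (hB i hi a ha)
    have h4 := abs_le.1 (hB j hj b hb)
    rw [hi₀] at h3 h4
    push_cast at h2
    have h5 : (2 * (B : ℤ) + 1) * ((k : ℤ) - l) = b ⟨0, hd⟩ - a ⟨0, hd⟩ := by linarith
    rcases Nat.lt_or_gt_of_ne hkl with h | h
    · have h6 : (k : ℤ) - l ≤ -1 := by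
        have : (k : ℤ) + 1 ≤ l := by exact_mod_cast h
        linarith
      have h7 : (2 * (B : ℤ) + 1) * ((k : ℤ) - l) ≤ (2 * (B : ℤ) + 1) * (-1) :=
        mul_le_mul_of_nonneg_left h6 (by positivity)
      linarith [h3.1, h3.2, h4.1, h4.2]
    · have h6 : 1 ≤ (k : ℤ) - l := by
        have : (l : ℤ) + 1 ≤ k := by exact_mod_cast h
        linarith
      have h7 : (2 * (B : ℤ) + 1) * 1 ≤ (2 * (B : ℤ) + 1) * ((k : ℤ) - l) :=
        mul_le_mul_of_nonneg_left h6 (by positivity)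
      linarith [h3.1, h3.2, h4.1, h4.2]
  have hdep : ∀ n, ∃ Λ : Finset (El d), On (Λ : Set (El d)) (SeedA (d := d) κ q m n) := by
    intro n
    obtain ⟨Λ, hΛ⟩ := box_elements (0 : V d) (m + n)
    refine ⟨Λ, fun ω ω' h => seedA_local κ q m n fun e he => h e ?_⟩
    rw [Finset.mem_coe, hΛ]
    exact he
  have h := erg (fun _ : El d => p) (fun k => shE (e0 hd k)) hinj (fun _ _ => rfl) hfar
    (fun n => SeedA (d := d) κ q m n) (seedA_anti κ q m) hdep (by rw [mu_const]; exact hpos)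
  rw [mu_const] at h
  set E : ℕ → Set (El d → Bool) := fun K =>
    {Y | ∃ t, t ≤ K ∧ ∀ n, shC (e0 hd t) Y ∈ SeedA (d := d) κ q m n} with hE
  have hmono : Monotone E := by
    rintro a b hab Y ⟨t, ht, hY⟩
    exact ⟨t, ht.trans hab, hY⟩
  have hall : ∀ᵐ ω ∂(prodBern (El d) p), ω ∈ ⋃ K, E K := by
    filter_upwards [h] with ω hω
    obtain ⟨k, hk⟩ := hω
    exact Set.mem_iUnion.2 ⟨k, k, le_rfl, hk⟩
  have hone : (prodBern (El d) p) (⋃ K, E K) = 1 := by
    have h1 : (⋃ K, E K) =ᵐ[prodBern (El d) p] Set.univ := by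
      rw [Filter.eventuallyEq_univ]
      exact hall
    rw [measure_congr h1, measure_univ]
  have htend := tendsto_measure_iUnion_atTop (μ := prodBern (El d) p) hmono
  rw [hone] at htend
  have htend2 : Tendsto (fun K => (prodBern (El d) p).real (E K)) atTop (𝓝 1) := by
    have h1 := (ENNReal.tendsto_toReal ENNReal.one_ne_top).comp htend
    simpa [measureReal_def, Function.comp_def] using h1
  have hev : ∀ᶠ K in atTop, 1 - η < (prodBern (El d) p).real (E K) :=
    htend2.eventually_const_lt (by linarith)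
  obtain ⟨K, hK⟩ := hev.exists
  refine ⟨K, fun n => hK.le.trans (measureReal_mono ?_)⟩
  rintro Y ⟨t, ht, hY⟩
  exact ⟨t, ht, hY n⟩

end Pool.Agent.H66.RS
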