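import Pool.Agent.H41.QC.Coupling
import Pool.Agent.H47.GM.Fields
import Pool.Agent.H66.RS.Defs

/-!
# RS module PairLaw: the joint law of the two configurations

Both sides are determined by the sets `{X = 0 on s} × {Y = 0 on t}`, `s`, `t` finite (a generating
π-system, see `fields_zero_pi`, `fields_zero_gen` in H47/GM/Fields for one factor). Left side:
`(1 - p₁)^|s ∪ t| ((1 - δ)^3)^|t|` (independent coordinates). Right side:
`(1 - p)^|t| (1 - p₁)^|s \ t|`, `1 - p₁ = 1 - p q` being the probability that `Y e && τ e = false`.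
-/

open MeasureTheory Filter Topology
open Pool.Agent.H17.IIC Pool.Agent.H41.QC Pool.Agent.H47.GM

namespace Pool.Agent.H66.RS

variable {d : ℕ}

/-- cylinder events of a pair of independent configurations -/
lemma pairLaw_rect {ι : Type*} (p q : unitInterval) (F : Finset ι) (G : ι → Set (Bool × Bool)) :
    ((prodBern ι p).prod (prodBern ι q)) {x | ∀ i ∈ F, (x.1 i, x.2 i) ∈ G i} =
      ∏ i ∈ F, (ENNReal.ofReal (p : ℝ) * bern q {b | (true, b) ∈ G i}
        + ENNReal.ofReal (1 - (p : ℝ)) * bern q {b | (false, b) ∈ G i}) := by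
  have hm : MeasurableSet {x : (ι → Bool) × (ι → Bool) | ∀ i ∈ F, (x.1 i, x.2 i) ∈ G i} := by
    have : {x : (ι → Bool) × (ι → Bool) | ∀ i ∈ F, (x.1 i, x.2 i) ∈ G i} =
        ⋂ i ∈ F, (fun x : (ι → Bool) × (ι → Bool) => (x.1 i, x.2 i)) ⁻¹' (G i) := by
      ext x; simp
    rw [this]
    apply Finset.measurableSet_biInter
    intro i _
    have h2 : Measurable (fun x : (ι → Bool) × (ι → Bool) => (x.1 i, x.2 i)) := by fun_prop
    exact h2 MeasurableSet.of_discrete
  rw [Measure.prod_apply hm]
  have hsec : ∀ ω : ι → Bool, (prodBern ι q) (Prod.mk ω ⁻¹'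
      {x : (ι → Bool) × (ι → Bool) | ∀ i ∈ F, (x.1 i, x.2 i) ∈ G i})
      = ∏ i ∈ F, bern q {b | (ω i, b) ∈ G i} := by
    intro ω
    have : (Prod.mk ω ⁻¹' {x : (ι → Bool) × (ι → Bool) | ∀ i ∈ F, (x.1 i, x.2 i) ∈ G i})
      = Set.pi (F : Set ι) (fun i => {b | (ω i, b) ∈ G i}) := by
      ext σ
      simp
    rw [this, prodBern, Measure.infinitePi_pi (μ := fun _ : ι => bern q)]
    intro i _
    exact MeasurableSet.of_discrete
  rw [lintegral_congr hsec]
  have hX : ProbabilityTheory.iIndepFun
      (fun i (ω : ι → Bool) => bern q {b | (ω i, b) ∈ G i}) (prodBern ι p) := by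
    unfold prodBern
    exact ProbabilityTheory.iIndepFun_infinitePi
      (X := fun i (a : Bool) => bern q {b | (a, b) ∈ G i}) (fun i => measurable_from_top)
  rw [ProbabilityTheory.lintegral_prod_eq_prod_lintegral_of_indepFun F
    (fun i (ω : ι → Bool) => bern q {b | (ω i, b) ∈ G i}) hX ?_]
  swap
  · intro i
    have h1 : Measurable (fun a : Bool => bern q {b | (a, b) ∈ G i}) := measurable_from_top
    exact h1.comp (measurable_pi_apply i)
  apply Finset.prod_congr rfl
  intro i _
  have h2 : ∫⁻ ω, bern q {b | (ω i, b) ∈ G i} ∂(prodBern ι p)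
      = ∫⁻ a, bern q {b | (a, b) ∈ G i} ∂(bern p) := by
    unfold prodBern
    exact (measurePreserving_eval_infinitePi (fun _ : ι => bern p) i).lintegral_comp
      (f := fun a : Bool => bern q {b | (a, b) ∈ G i}) measurable_from_top
  rw [h2, lintegral_bern]

lemma pairLaw_bern (q : unitInterval) (t : Set Bool) (h1 : true ∈ t) (h0 : false ∈ t) :
    bern q t = 1 := by
  have h3 := q.2
  rw [coupling_bern_apply, if_pos h1, if_pos h0, mul_one, mul_one,
    ← ENNReal.ofReal_add h3.1 (by linarith [h3.2])]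
  simp

lemma pairLaw_bern_false (q : unitInterval) (t : Set Bool) (h1 : true ∉ t) (h0 : false ∈ t) :
    bern q t = ENNReal.ofReal (1 - (q : ℝ)) := by
  rw [coupling_bern_apply, if_neg h1, if_pos h0, mul_one, mul_zero, zero_add]

lemma pairLaw_bern_empty (q : unitInterval) (t : Set Bool) (h1 : true ∉ t) (h0 : false ∉ t) :
    bern q t = 0 := by
  rw [coupling_bern_apply, if_neg h1, if_neg h0, mul_zero, mul_zero, zero_add]

/-- `P(Y = 0 on t, Y && τ = 0 on s)` -/
lemma pairLaw_right {ι : Type*} [DecidableEq ι] (p₁ p q : unitInterval) (h2 : (p₁ : ℝ) = p * q)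
    (s t : Finset ι) :
    ((prodBern ι p).prod (prodBern ι q)) {x | (∀ i ∈ s, (x.1 i && x.2 i) = false) ∧
      ∀ i ∈ t, x.1 i = false} =
      ENNReal.ofReal (1 - (p₁ : ℝ)) ^ (s \ t).card * ENNReal.ofReal (1 - (p : ℝ)) ^ t.card := by
  have hset : {x : (ι → Bool) × (ι → Bool) | (∀ i ∈ s, (x.1 i && x.2 i) = false) ∧
      ∀ i ∈ t, x.1 i = false} =
      {x | ∀ i ∈ (s \ t) ∪ t, (x.1 i, x.2 i) ∈
        (if i ∈ t then {y : Bool × Bool | y.1 = false} else {y | (y.1 && y.2) = false})} := by
    ext x
    simp only [Set.mem_ofPred_eq, Finset.mem_union, Finset.mem_sdiff]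
    constructor
    · rintro ⟨ha, hb⟩ i hi
      by_cases hit : i ∈ t
      · rw [if_pos hit]; exact hb i hit
      · rw [if_neg hit]
        exact ha i (by tauto)
    · intro h
      refine ⟨fun i hi => ?_, fun i hi => ?_⟩
      · by_cases hit : i ∈ t
        · have := h i (Or.inr hit)
          rw [if_pos hit] at this
          have h' : x.1 i = false := this
          rw [h']; rfl
        · have := h i (Or.inl ⟨hi, hit⟩)
          rw [if_neg hit] at this
          exact this
      · have := h i (Or.inr hi)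
        rw [if_pos hi] at this
        exact this
  rw [hset, pairLaw_rect, Finset.prod_union Finset.sdiff_disjoint]
  congr 1
  · rw [← Finset.prod_const]
    apply Finset.prod_congr rfl
    intro i hi
    have hit : i ∉ t := (Finset.mem_sdiff.mp hi).2
    rw [if_neg hit, pairLaw_bern_false q _ (by simp) (by simp), pairLaw_bern q _ (by simp) (by simp),
      mul_one, ← ENNReal.ofReal_mul p.2.1, ← ENNReal.ofReal_add
        (mul_nonneg p.2.1 (by linarith [q.2.2])) (by linarith [p.2.2]), h2]
    congr 1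
    ring
  · rw [← Finset.prod_const]
    apply Finset.prod_congr rfl
    intro i hi
    rw [if_pos hi, pairLaw_bern_empty q _ (by simp) (by simp), pairLaw_bern q _ (by simp) (by simp),
      mul_one, mul_zero, zero_add]

/-- `P(X = 0 on s, Y = 0 on t)` for the field representation -/
lemma pairLaw_left (p₁ p δ : unitInterval) (h1 : (1 - p : ℝ) = (1 - p₁) * (1 - δ) ^ 3)
    [DecidableEq (El d)] (s t : Finset (El d)) :
    ((mu (parJ d 2 p₁ δ)).prod (prodBern (El d) δ)) {x | (∀ i ∈ s, fld 0 x.1 i = false) ∧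
      ∀ i ∈ t, (tot x.1 i || x.2 i) = false} =
      ENNReal.ofReal (1 - (p₁ : ℝ)) ^ (s \ t).card * ENNReal.ofReal (1 - (p : ℝ)) ^ t.card := by
  have hset : {x : (Fin (2 + 1) × El d → Bool) × (El d → Bool) | (∀ i ∈ s, fld 0 x.1 i = false) ∧
      ∀ i ∈ t, (tot x.1 i || x.2 i) = false} =
      {ω : Fin (2 + 1) × El d → Bool | ∀ y ∈ (({0} : Finset (Fin (2 + 1))) ×ˢ (s \ t)) ∪
        ((Finset.univ : Finset (Fin (2 + 1))) ×ˢ t), ω y = false} ×ˢ
        {ω : El d → Bool | ∀ i ∈ t, ω i = false} := by
    ext x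
    simp only [Set.mem_ofPred_eq, Set.mem_prod, Finset.mem_union, Finset.mem_product,
      Finset.mem_singleton, Finset.mem_univ, true_and, Finset.mem_sdiff, fld, tot, Bool.or_eq_false_iff,
      decide_eq_false_iff_not, not_exists, Bool.not_eq_true]
    constructor
    · rintro ⟨ha, hb⟩
      refine ⟨?_, fun i hi => (hb i hi).2⟩
      rintro ⟨j, e⟩ (⟨hj, he, _⟩ | he)
      · have hj' : j = 0 := hj
        subst hj'
        exact ha e he
      · exact (hb e he).1 j
    · rintro ⟨ha, hb⟩
      refine ⟨fun e he => ?_, fun e he => ⟨fun j => ha (j, e) (Or.inr he), hb e he⟩⟩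
      by_cases het : e ∈ t
      · exact ha (0, e) (Or.inr het)
      · exact ha (0, e) (Or.inl ⟨rfl, he, het⟩)
  have hdis : Disjoint (({0} : Finset (Fin (2 + 1))) ×ˢ (s \ t))
      ((Finset.univ : Finset (Fin (2 + 1))) ×ˢ t) := by
    rw [Finset.disjoint_left]
    rintro ⟨j, e⟩ h1 h2
    exact (Finset.mem_sdiff.mp (Finset.mem_product.mp h1).2).2 (Finset.mem_product.mp h2).2
  rw [hset, Measure.prod_prod, fields_mu_zero, Finset.prod_union hdis, ← mu_const, fields_mu_zero,
    Finset.prod_product_right, Finset.prod_product_right, mul_assoc]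
  congr 1
  · rw [← Finset.prod_const]
    apply Finset.prod_congr rfl
    intro e _
    rw [Finset.prod_singleton]
    unfold parJ
    rw [if_pos rfl]
  · rw [← Finset.prod_mul_distrib, ← Finset.prod_const]
    apply Finset.prod_congr rfl
    intro e _
    have h2 : ∀ j : Fin 2, ENNReal.ofReal (1 - (parJ d 2 p₁ δ (j.succ, e) : ℝ)) =
        ENNReal.ofReal (1 - (δ : ℝ)) := by
      intro j
      unfold parJ
      rw [if_neg (Fin.succ_ne_zero j)]
    have h3 : parJ d 2 p₁ δ (0, e) = p₁ := by
      unfold parJ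
      rw [if_pos rfl]
    rw [h1, Fin.prod_univ_succ, Finset.prod_congr rfl (fun j _ => h2 j), Finset.prod_const,
      Finset.card_univ, Fintype.card_fin, h3, ENNReal.ofReal_mul (by linarith [p₁.2.2]),
      ENNReal.ofReal_pow (by linarith [δ.2.2]), mul_assoc]
    congr 1

lemma pairLaw_meas_and :
    Measurable (fun x : (El d → Bool) × (El d → Bool) => andC x.1 x.2) := by
  rw [measurable_pi_iff]
  intro i
  have h1 : Measurable (fun b : Bool × Bool => b.1 && b.2) := Measurable.of_discrete
  have h2 : Measurable (fun x : (El d → Bool) × (El d → Bool) => (x.1 i, x.2 i)) := by fun_prop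
  exact h1.comp h2

lemma pairLaw_meas_left :
    Measurable (fun x : (Fin (2 + 1) × El d → Bool) × (El d → Bool) =>
      ((fld 0 x.1, fun e => tot x.1 e || x.2 e) : (El d → Bool) × (El d → Bool))) := by
  apply Measurable.prodMk ((measurable_fld 0).comp measurable_fst)
  exact coupling_measurable_or.comp
    ((measurable_tot.comp measurable_fst).prodMk measurable_snd)

lemma pairLaw_univ (ι : Type*) : (Set.univ : Set (ι → Bool)) ∈ FieldsZero ι := by
  refine ⟨∅, ?_⟩
  ext ω
  simp

lemma pairLaw_span (ι : Type*) : IsCountablySpanning (FieldsZero ι) :=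
  ⟨fun _ => Set.univ, fun _ => pairLaw_univ ι, Set.iUnion_const _⟩

theorem pair_law (p₁ p q δ : unitInterval) (h1 : (1 - p : ℝ) = (1 - p₁) * (1 - δ) ^ 3)
    (h2 : (p₁ : ℝ) = p * q) :
    ((mu (parJ d 2 p₁ δ)).prod (prodBern (El d) δ)).map
        (fun x => ((fld 0 x.1, fun e => tot x.1 e || x.2 e) : (El d → Bool) × (El d → Bool))) =
      ((prodBern (El d) p).prod (prodBern (El d) q)).map
        (fun x => ((andC x.1 x.2, x.1) : (El d → Bool) × (El d → Bool))) := by
  classical
  have hmR : Measurable (fun x : (El d → Bool) × (El d → Bool) =>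
      ((andC x.1 x.2, x.1) : (El d → Bool) × (El d → Bool))) :=
    pairLaw_meas_and.prodMk measurable_fst
  have hp1 : IsProbabilityMeasure (((mu (parJ d 2 p₁ δ)).prod (prodBern (El d) δ)).map
        (fun x => ((fld 0 x.1, fun e => tot x.1 e || x.2 e) : (El d → Bool) × (El d → Bool)))) :=
    Measure.isProbabilityMeasure_map pairLaw_meas_left.aemeasurable
  have hp2 : IsProbabilityMeasure (((prodBern (El d) p).prod (prodBern (El d) q)).map
        (fun x => ((andC x.1 x.2, x.1) : (El d → Bool) × (El d → Bool)))) :=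
    Measure.isProbabilityMeasure_map hmR.aemeasurable
  apply ext_of_generate_finite
    (Set.image2 (fun (a : Set (El d → Bool)) (b : Set (El d → Bool)) => a ×ˢ b)
      (FieldsZero (El d)) (FieldsZero (El d)))
  · exact (generateFrom_eq_prod (fields_zero_gen _).symm (fields_zero_gen _).symm
      (pairLaw_span _) (pairLaw_span _)).symm
  · exact (fields_zero_pi _).prod (fields_zero_pi _)
  · rintro _ ⟨_, ⟨s, rfl⟩, _, ⟨t, rfl⟩, rfl⟩
    have hm : MeasurableSet ({ω : El d → Bool | ∀ e ∈ s, ω e = false} ×ˢ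
        {ω : El d → Bool | ∀ e ∈ t, ω e = false}) :=
      (fields_zero_meas s).prod (fields_zero_meas t)
    rw [Measure.map_apply pairLaw_meas_left hm, Measure.map_apply hmR hm]
    exact (pairLaw_left p₁ p δ h1 s t).trans (pairLaw_right p₁ p q h2 s t).symm
  · simp

/-- law of the thinned configuration -/
theorem and_law (p₁ p q : unitInterval) (h2 : (p₁ : ℝ) = p * q) :
    ((prodBern (El d) p).prod (prodBern (El d) q)).map (fun x => andC x.1 x.2) =
      prodBern (El d) p₁ := by
  classical
  have hp2 : IsProbabilityMeasure (((prodBern (El d) p).prod (prodBern (El d) q)).map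
        (fun x => andC x.1 x.2)) :=
    Measure.isProbabilityMeasure_map pairLaw_meas_and.aemeasurable
  apply ext_of_generate_finite (FieldsZero (El d)) (fields_zero_gen _) (fields_zero_pi _)
  · rintro _ ⟨s, rfl⟩
    change _ = prodBern (El d) p₁ {ω : El d → Bool | ∀ e ∈ s, ω e = false}
    rw [Measure.map_apply pairLaw_meas_and (fields_zero_meas s), ← mu_const p₁, fields_mu_zero,
      Finset.prod_const]
    have h3 := pairLaw_right p₁ p q h2 s (∅ : Finset (El d))
    rw [Finset.sdiff_empty, Finset.card_empty, pow_zero, mul_one] at h3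
    rw [← h3]
    congr 1
    ext x
    simp [andC]
  · simp

end Pool.Agent.H66.RS
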