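import Pool.Agent.H66.RS.Loc
import Pool.Agent.H66.RS.PairLaw

/-!
# RS module SeedPos: seeds have positive probability at all scales

`seed_inf` for `p₁` with `η = 1/20` gives `m`; an infinite cluster gives `0 < Pn κ X n u` for all `n` (path
leaving the ball of radius `n`; see H41/QC or H47/GM for such a lemma, e.g. in Seed1/Lower2). `and_law` and
Fubini: `∫ wP ≥ 19/20`, Markov: `P(wP < 9/10) ≤ 1/2`, so `P(9/10 ≤ wP) ≥ 1/2` for every `n`. The events
`FullOpen κ Y (Bx 0 m)` and `9/10 ≤ wP κ q m n Y` are increasing (`wP_mono`) and depend on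
finitely many elements (`wP_local`, `box_elements`), so by Harris (`harris_loc` or
`HarrisLoc_two`, H47/GM) `P(SeedA n) ≥ P(FullOpen) / 2 =: c > 0` (`prob_all_open`, `p > 0`), for every `n`.
`SeedA` is antitone in `n`, so the intersection has probability at least `c`.
-/

open MeasureTheory Filter Topology
open Pool.Agent.H17.IIC Pool.Agent.H41.QC Pool.Agent.H47.GM

namespace Pool.Agent.H66.RS

variable {d : ℕ}

/-- an infinite cluster of `u` gives open paths from `u` of every length -/
lemma SeedPos_pn (κ : Kind) {ω : El d → Bool} {u : V d}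
    (h : {y | (Gr κ ω).Reachable u y}.Infinite) (N : ℕ) : 0 < Pn κ ω N u := by
  classical
  have hfin : (Set.Icc (fun i => u i - (N : ℤ)) (fun i => u i + (N : ℤ)) : Set (V d)).Finite :=
    Set.finite_Icc _ _
  obtain ⟨y, hy, hyN⟩ := h.exists_notMem_finite hfin
  have h1 : ∃ i, (N : ℤ) < |y i - u i| := by
    by_contra hcon
    push Not at hcon
    apply hyN
    rw [Set.mem_Icc]
    refine ⟨fun i => ?_, fun i => ?_⟩
    · have := (abs_le.mp (hcon i)).1
      show u i - (N : ℤ) ≤ y i
      linarith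
    · have := (abs_le.mp (hcon i)).2
      show y i ≤ u i + (N : ℤ)
      linarith
  obtain ⟨i, hi⟩ := h1
  obtain ⟨w⟩ := hy
  have h2 := PnBasic_near κ ω (w.toPath : (Gr κ ω).Walk u y) i
  have h3 : N < (w.toPath : (Gr κ ω).Walk u y).length := by
    have := lt_of_lt_of_le hi h2
    exact_mod_cast this
  refine Pn_pos_of_le κ ω h3.le u ?_
  exact PnBasic_of_isPath κ ω _ w.toPath.2 (by omega)

/-- long open paths of the thinned configuration -/
lemma SeedPos_half (κ : Kind) (p₁ p q : unitInterval) (hq : (p₁ : ℝ) = p * q) (m n : ℕ)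
    (h : 19 / 20 ≤ (prodBern (El d) p₁).real {X | LP κ m n X}) :
    1 / 2 ≤ (prodBern (El d) p).real {Y | 9 / 10 ≤ wP κ q m n Y} := by
  classical
  have hmeas : MeasurableSet {x : (El d → Bool) × (El d → Bool) | LP κ m n (andC x.1 x.2)} :=
    measurable_andC (measurableSet_LP κ m n)
  have h1 : (prodBern (El d) p₁) {X | LP κ m n X} =
      ∫⁻ Y, (prodBern (El d) q) {τ | LP κ m n (andC Y τ)} ∂(prodBern (El d) p) := by
    rw [← and_law p₁ p q hq, Measure.map_apply measurable_andC (measurableSet_LP κ m n)]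
    change ((prodBern (El d) p).prod (prodBern (El d) q))
      {x : (El d → Bool) × (El d → Bool) | LP κ m n (andC x.1 x.2)} = _
    rw [Measure.prod_apply hmeas]
    rfl
  set G : Set (El d → Bool) := {Y | 9 / 10 ≤ wP κ q m n Y} with hG
  have hGm : MeasurableSet G := measurableSet_le measurable_const (measurable_wP κ q m n)
  have h2 : ∫⁻ Y, (prodBern (El d) q) {τ | LP κ m n (andC Y τ)} ∂(prodBern (El d) p) ≤
      ∫⁻ Y, (ENNReal.ofReal (9 / 10) + G.indicator (fun _ => ENNReal.ofReal (1 / 10)) Y)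
        ∂(prodBern (El d) p) := by
    apply lintegral_mono
    intro Y
    by_cases hY : Y ∈ G
    · simp only [Set.indicator_of_mem hY]
      rw [← ENNReal.ofReal_add (by norm_num) (by norm_num)]
      norm_num
      exact prob_le_one
    · simp only [Set.indicator_of_notMem hY, add_zero]
      have h3 : wP κ q m n Y < 9 / 10 := by
        by_contra hcon
        exact hY (not_lt.1 hcon)
      rw [← ofReal_measureReal (measure_ne_top _ _)]
      exact ENNReal.ofReal_le_ofReal h3.le
  rw [lintegral_add_left measurable_const, lintegral_const, measure_univ, mul_one,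
    lintegral_indicator_const hGm] at h2
  rw [← h1, ← ofReal_measureReal (μ := prodBern (El d) p₁) (measure_ne_top _ _),
    ← ofReal_measureReal (μ := prodBern (El d) p) (measure_ne_top _ _),
    ← ENNReal.ofReal_mul (by norm_num), ← ENNReal.ofReal_add (by norm_num)
      (mul_nonneg (by norm_num) measureReal_nonneg)] at h2
  rw [ENNReal.ofReal_le_ofReal_iff (add_nonneg (by norm_num)
    (mul_nonneg (by norm_num) measureReal_nonneg))] at h2
  linarith

theorem seed_pos (κ : Kind) (hd : 1 ≤ d) (p₁ p q : unitInterval) (hp₁ : 0 < (p₁ : ℝ))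
    (hq : (p₁ : ℝ) = p * q) (hθ : 0 < theta κ d p₁) :
    ∃ m : ℕ, 0 < (prodBern (El d) p).real (⋂ n, SeedA (d := d) κ q m n) := by
  classical
  obtain ⟨m, hm1, hm⟩ := seed_inf κ hd p₁ hθ (η := 1 / 20) (by norm_num)
  refine ⟨m, ?_⟩
  have hp : 0 < (p : ℝ) := by
    rcases lt_or_eq_of_le p.2.1 with h | h
    · exact h
    · rw [hq, ← h, zero_mul] at hp₁
      exact absurd hp₁ (lt_irrefl _)
  -- long open paths
  have hLP : ∀ n, 19 / 20 ≤ (prodBern (El d) p₁).real {X | LP κ m n X} := by
    intro n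
    have h1 : (prodBern (El d) p₁).real
        {ω | ∃ u ∈ Bx (0 : V d) m, {y | (Gr κ ω).Reachable u y}.Infinite} ≤
        (prodBern (El d) p₁).real {X | LP κ m n X} := by
      refine measureReal_mono ?_ (measure_ne_top _ _)
      rintro ω ⟨u, hu, hu'⟩
      exact ⟨u, hu, SeedPos_pn κ hu' n⟩
    linarith
  -- finite sets of elements
  obtain ⟨Λ₀, hΛ₀⟩ := box_elements (0 : V d) m
  set c : ℝ := (p : ℝ) ^ Λ₀.card / 2 with hc
  have hcpos : 0 < c := by positivity
  have hfull : (p : ℝ) ^ Λ₀.card ≤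
      (prodBern (El d) p).real {Y | FullOpen κ Y (Bx (0 : V d) m : Set (V d))} := by
    rw [← prob_all_open p Λ₀]
    refine measureReal_mono ?_ (measure_ne_top _ _)
    intro σ hσ
    replace hσ : ∀ e ∈ Λ₀, σ e = true := hσ
    refine ⟨fun a ha b hb _ => ?_, fun _ a ha => ?_⟩
    · apply hσ
      rw [hΛ₀]
      intro u hu
      cases κ
      · simp only [stE, Sym2.mem_iff] at hu
        rcases hu with rfl | rfl
        · exact ha
        · exact hb
      · simp only [stE, Sym2.mem_iff, or_self] at hu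
        rw [hu]; exact hb
    · apply hσ
      rw [hΛ₀]
      intro u hu
      simp only [Sym2.mem_iff, or_self] at hu
      rw [hu]; exact ha
  have hOnA : ∀ n, ∀ Λ : Finset (El d), (∀ e, e ∈ Λ ↔ ∀ u ∈ e, u ∈ Bx (0 : V d) (m + n)) →
      On (Λ : Set (El d)) {Y | FullOpen κ Y (Bx (0 : V d) m : Set (V d))} := by
    intro n Λ hΛ ω ω' hω
    apply Basic_fullOpen_congr
    intro a ha b hb
    have hsub : ∀ v ∈ (Bx (0 : V d) m : Set (V d)), v ∈ Bx (0 : V d) (m + n) := by
      intro v hv
      rw [Finset.mem_coe, mem_Bx] at hv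
      rw [mem_Bx]
      intro i
      refine (hv i).trans ?_
      push_cast
      linarith [Int.natCast_nonneg n]
    apply hω
    rw [Finset.mem_coe, hΛ]
    intro u hu
    cases κ
    · simp only [stE, Sym2.mem_iff] at hu
      rcases hu with rfl | rfl
      · exact hsub _ ha
      · exact hsub _ hb
    · simp only [stE, Sym2.mem_iff, or_self] at hu
      rw [hu]; exact hsub _ hb
  have hOnB : ∀ n, ∀ Λ : Finset (El d), (∀ e, e ∈ Λ ↔ ∀ u ∈ e, u ∈ Bx (0 : V d) (m + n)) →
      On (Λ : Set (El d)) {Y | 9 / 10 ≤ wP κ q m n Y} := by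
    intro n Λ hΛ ω ω' hω
    have h1 : wP κ q m n ω = wP κ q m n ω' := by
      apply wP_local
      intro e he
      exact hω e (by rw [Finset.mem_coe, hΛ]; exact he)
    show 9 / 10 ≤ wP κ q m n ω ↔ 9 / 10 ≤ wP κ q m n ω'
    rw [h1]
  have hIA : Incr {Y : El d → Bool | FullOpen κ Y (Bx (0 : V d) m : Set (V d))} :=
    fun ω ω' h hω => FullOpen.mono hω h
  have hIB : ∀ n, Incr {Y : El d → Bool | 9 / 10 ≤ wP κ q m n Y} :=
    fun n ω ω' h hω => le_trans (show 9 / 10 ≤ wP κ q m n ω from hω) (wP_mono κ q m n h)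
  have hseed : ∀ n, c ≤ (prodBern (El d) p).real (SeedA (d := d) κ q m n) := by
    intro n
    obtain ⟨Λ, hΛ⟩ := box_elements (0 : V d) (m + n)
    have h1 := HarrisLoc_two p Λ hIA (hIB n) (hOnA n Λ hΛ) (hOnB n Λ hΛ)
    have h2 := SeedPos_half κ p₁ p q hq m n (hLP n)
    have h3 : {Y : El d → Bool | FullOpen κ Y (Bx (0 : V d) m : Set (V d))} ∩
        {Y : El d → Bool | 9 / 10 ≤ wP κ q m n Y} = SeedA (d := d) κ q m n := rfl
    rw [h3] at h1
    refine le_trans ?_ h1
    rw [hc, div_eq_mul_one_div]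
    exact mul_le_mul hfull h2 (by norm_num) measureReal_nonneg
  have hmeasS : ∀ n, MeasurableSet (SeedA (d := d) κ q m n) := by
    intro n
    obtain ⟨Λ, hΛ⟩ := box_elements (0 : V d) (m + n)
    exact ((hOnA n Λ hΛ).measurableSet).inter ((hOnB n Λ hΛ).measurableSet)
  have htend := tendsto_measure_iInter_atTop (μ := prodBern (El d) p)
    (fun n => (hmeasS n).nullMeasurableSet) (seedA_anti (d := d) κ q m) ⟨0, measure_ne_top _ _⟩
  have htend2 : Tendsto (fun n => (prodBern (El d) p).real (SeedA (d := d) κ q m n)) atTop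
      (𝓝 ((prodBern (El d) p).real (⋂ n, SeedA (d := d) κ q m n))) := by
    have h1 := (ENNReal.tendsto_toReal (measure_ne_top (prodBern (El d) p)
      (⋂ n, SeedA (d := d) κ q m n))).comp htend
    simpa [measureReal_def, Function.comp_def] using h1
  exact lt_of_lt_of_le hcpos (ge_of_tendsto' htend2 hseed)

end Pool.Agent.H66.RS
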