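import Pool.Agent.H47.GM.Mu
import Pool.Agent.H66.RS.Defs

/-!
# RS module Sep: finite range dependence gives an exponential bound

`sep_subset`: induction on `|B|`: choose `x ∈ B`, delete the at most `(2W+1)^d` points of `B` within
sup distance `W` of `x`. `indep_pow`: induction on the finite set with `mu_indep` (H47/GM/Mu; `E` = the
elements of the last set), the events depend on pairwise disjoint sets of coordinates.
`range_bound`: apply both to the separated subset `B₁`: the probability is at most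
`(η)^|B₁| ≤ ρ^|B|` since `η ≤ ρ^((2W+1)^d)`, `ρ ≤ 1`, `|B| ≤ (2W+1)^d |B₁|`.
-/

open MeasureTheory Filter Topology
open Pool.Agent.H17.IIC Pool.Agent.H41.QC Pool.Agent.H47.GM

namespace Pool.Agent.H66.RS

variable {d : ℕ}

lemma Sep_card_Bx (x : V d) (W : ℕ) : (Bx x W).card = (2 * W + 1) ^ d := by
  unfold Bx
  rw [Fintype.card_piFinset]
  have : ∀ i : Fin d, (Finset.Icc (x i - W) (x i + W)).card = 2 * W + 1 := by
    intro i
    rw [Int.card_Icc]
    omega
  rw [Finset.prod_congr rfl (fun i _ => this i), Finset.prod_const, Finset.card_univ,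
    Fintype.card_fin]

theorem sep_subset (W : ℕ) (B : Finset (V d)) : ∃ B₁ ⊆ B,
    (∀ x ∈ B₁, ∀ y ∈ B₁, x ≠ y → ∃ i, (W : ℤ) < |x i - y i|) ∧
      B.card ≤ (2 * W + 1) ^ d * B₁.card := by
  classical
  set S : Finset (Finset (V d)) := B.powerset.filter
    (fun B₁ => ∀ x ∈ B₁, ∀ y ∈ B₁, x ≠ y → ∃ i, (W : ℤ) < |x i - y i|) with hS
  have hne : S.Nonempty := ⟨∅, by
    rw [hS, Finset.mem_filter]
    refine ⟨Finset.mem_powerset.2 (Finset.empty_subset _), ?_⟩
    intro x hx
    exact absurd hx (Finset.notMem_empty x)⟩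
  obtain ⟨B₁, hB₁, hmax⟩ := Finset.exists_max_image S Finset.card hne
  rw [hS, Finset.mem_filter, Finset.mem_powerset] at hB₁
  refine ⟨B₁, hB₁.1, hB₁.2, ?_⟩
  have hcov : B ⊆ B₁.biUnion (fun x => Bx x W) := by
    intro y hy
    by_contra hcon
    rw [Finset.mem_biUnion] at hcon
    push Not at hcon
    have hfar : ∀ x ∈ B₁, ∃ i, (W : ℤ) < |y i - x i| := by
      intro x hx
      have h1 := hcon x hx
      rw [mem_Bx] at h1
      push Not at h1
      exact h1
    have hyB : y ∉ B₁ := by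
      intro h
      obtain ⟨i, hi⟩ := hfar y h
      rw [sub_self, abs_zero] at hi
      have : (0 : ℤ) ≤ W := by positivity
      linarith
    have hins : insert y B₁ ∈ S := by
      rw [hS, Finset.mem_filter, Finset.mem_powerset]
      refine ⟨Finset.insert_subset hy hB₁.1, ?_⟩
      intro a ha b hb hab
      rw [Finset.mem_insert] at ha hb
      rcases ha with rfl | ha <;> rcases hb with rfl | hb
      · exact absurd rfl hab
      · exact hfar b hb
      · obtain ⟨i, hi⟩ := hfar a ha
        exact ⟨i, by rw [abs_sub_comm]; exact hi⟩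
      · exact hB₁.2 a ha b hb hab
    have h2 := hmax _ hins
    rw [Finset.card_insert_of_notMem hyB] at h2
    omega
  calc B.card ≤ (B₁.biUnion (fun x => Bx x W)).card := Finset.card_le_card hcov
    _ ≤ ∑ x ∈ B₁, (Bx x W).card := Finset.card_biUnion_le
    _ = ∑ x ∈ B₁, (2 * W + 1) ^ d := Finset.sum_congr rfl (fun x _ => Sep_card_Bx x W)
    _ = (2 * W + 1) ^ d * B₁.card := by rw [Finset.sum_const, smul_eq_mul, mul_comm]

theorem indep_pow (p : unitInterval) {α : Type*} (B : Finset α) (A : α → Set (El d → Bool))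
    (Λ : α → Finset (El d)) (hA : ∀ x ∈ B, On (Λ x : Set (El d)) (A x))
    (hdis : ∀ x ∈ B, ∀ y ∈ B, x ≠ y → Disjoint (Λ x) (Λ y)) {η : ℝ}
    (hη : ∀ x ∈ B, (prodBern (El d) p).real (A x) ≤ η) :
    (prodBern (El d) p).real {ω | ∀ x ∈ B, ω ∈ A x} ≤ η ^ B.card := by
  classical
  induction B using Finset.induction_on with
  | empty =>
    simp
  | insert a B ha ih =>
    have h1 : On (Λ a : Set (El d)) (A a) := hA a (Finset.mem_insert_self a B)
    have h2 : ∀ x ∈ B, On (Λ x : Set (El d)) (A x) :=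
      fun x hx => hA x (Finset.mem_insert_of_mem hx)
    have h3 := ih h2 (fun x hx y hy => hdis x (Finset.mem_insert_of_mem hx) y
      (Finset.mem_insert_of_mem hy)) (fun x hx => hη x (Finset.mem_insert_of_mem hx))
    have hη0 : 0 ≤ η := (measureReal_nonneg).trans (hη a (Finset.mem_insert_self a B))
    have h4 : On ((B.biUnion Λ : Finset (El d)) : Set (El d)) {ω : El d → Bool | ∀ x ∈ B, ω ∈ A x} := by
      intro ω ω' hω
      constructor
      · intro h x hx
        refine (h2 x hx ω ω' (fun i hi => hω i ?_)).1 (h x hx)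
        rw [Finset.coe_biUnion, Set.mem_iUnion₂]
        exact ⟨x, hx, hi⟩
      · intro h x hx
        refine (h2 x hx ω ω' (fun i hi => hω i ?_)).2 (h x hx)
        rw [Finset.coe_biUnion, Set.mem_iUnion₂]
        exact ⟨x, hx, hi⟩
    have h5 : On ((Λ a : Set (El d))ᶜ) {ω : El d → Bool | ∀ x ∈ B, ω ∈ A x} := by
      refine h4.mono ?_
      intro e he hea
      rw [Finset.coe_biUnion, Set.mem_iUnion₂] at he
      obtain ⟨x, hx, hex⟩ := he
      have hne : a ≠ x := by
        rintro rfl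
        exact ha hx
      have := hdis a (Finset.mem_insert_self a B) x (Finset.mem_insert_of_mem hx) hne
      exact Finset.disjoint_left.1 this hea hex
    have h6 := mu_indep (fun _ : El d => p) (Λ a : Set (El d)) h1.measurableSet h4.measurableSet h1 h5
    have h7 : {ω : El d → Bool | ∀ x ∈ insert a B, ω ∈ A x} =
        A a ∩ {ω : El d → Bool | ∀ x ∈ B, ω ∈ A x} := by
      ext ω
      simp [Finset.forall_mem_insert]
    rw [h7, ← mu_const, h6, Finset.card_insert_of_notMem ha, pow_succ, mul_comm]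
    rw [mu_const]
    exact mul_le_mul h3 (hη a (Finset.mem_insert_self a B)) measureReal_nonneg
      (pow_nonneg hη0 _)

/-- elements inside a box -/
lemma Sep_box (v : V d) (L : ℕ) : ∃ Λ : Finset (El d), ∀ e : El d,
    e ∈ Λ ↔ ∀ u ∈ e, u ∈ Bx v L := by
  classical
  refine ⟨(Bx v L).sym2, fun e => ?_⟩
  exact Finset.mem_sym2_iff

/-- the events `A x` depend on the elements within `L` of `s x`, `2 L ≤ s W` -/
theorem range_bound (p : unitInterval) (s L W : ℕ) (hs : 1 ≤ s) (hW : 2 * L ≤ s * W)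
    (A : V d → Set (El d → Bool))
    (hA : ∀ x ω ω', (∀ e : El d, (∀ v ∈ e, v ∈ Bx (bc s x) L) → ω e = ω' e) →
      (ω ∈ A x ↔ ω' ∈ A x)) {ρ : ℝ} (hρ : 0 ≤ ρ) (hρ1 : ρ ≤ 1)
    (hp : ∀ x, (prodBern (El d) p).real (A x) ≤ ρ ^ ((2 * W + 1) ^ d)) (B : Finset (V d)) :
    (prodBern (El d) p).real {ω | ∀ x ∈ B, ω ∈ A x} ≤ ρ ^ B.card := by
  classical
  obtain ⟨B₁, hB₁, hsep, hcard⟩ := sep_subset W B
  choose Λ hΛ using fun x : V d => Sep_box (bc s x) L
  have h1 : (prodBern (El d) p).real {ω | ∀ x ∈ B₁, ω ∈ A x} ≤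
      (ρ ^ ((2 * W + 1) ^ d)) ^ B₁.card := by
    refine indep_pow p B₁ A Λ ?_ ?_ (fun x _ => hp x)
    · intro x _ ω ω' h
      exact hA x ω ω' (fun e he => h e (by rw [Finset.mem_coe, hΛ]; exact he))
    · intro x hx y hy hxy
      rw [Finset.disjoint_left]
      intro e he he'
      rw [hΛ] at he he'
      obtain ⟨i, hi⟩ := hsep x hx y hy hxy
      induction e using Sym2.ind with
      | _ u w =>
        have h2 := (mem_Bx.1 (he u (Sym2.mem_mk_left u w))) i
        have h3 := (mem_Bx.1 (he' u (Sym2.mem_mk_left u w))) i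
        have h4 : |bc s x i - bc s y i| ≤ 2 * (L : ℤ) := by
          rw [abs_le] at h2 h3 ⊢
          constructor <;> linarith [h2.1, h2.2, h3.1, h3.2]
        have h5 : |bc s x i - bc s y i| = s * |x i - y i| := by
          unfold bc
          rw [← mul_sub, abs_mul, Nat.abs_cast]
        rw [h5] at h4
        have h6 : (2 * L : ℤ) ≤ s * W := by exact_mod_cast hW
        have h7 : (0 : ℤ) < s := by exact_mod_cast hs
        have h8 : (s : ℤ) * W < s * |x i - y i| := (mul_lt_mul_iff_right₀ h7).2 hi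
        linarith
  have h2 : (prodBern (El d) p).real {ω | ∀ x ∈ B, ω ∈ A x} ≤
      (prodBern (El d) p).real {ω | ∀ x ∈ B₁, ω ∈ A x} :=
    measureReal_mono (fun ω h x hx => h x (hB₁ hx)) (measure_ne_top _ _)
  refine h2.trans (h1.trans ?_)
  rw [← pow_mul]
  exact pow_le_pow_of_le_one hρ hρ1 hcard

end Pool.Agent.H66.RS
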