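import Pool.Agent.H47.GM.ConnC
import Pool.Agent.H66.RS.Defs

/-!
# RS module Loc: locality, monotonicity, translation of the block events

`ω` and `ω'` agree near `0` up to radius `L`: `∀ e, (∀ v ∈ e, v ∈ Bx 0 L) → ω e = ω' e`.
`Pn_congr`, `suppP_near` (H41/QC/Trans) for `Pn κ X n y` (elements within `n` of `y`); a walk of length at
most `r` from `y` stays within `r` of `y` (its elements `s(a,b)`, `s(a,a)` too). Since
`andC Y τ` and `andC Y' τ` agree where `Y`, `Y'` agree, `uP`, `wP` only depend on the elements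
within `2 * 2^k` of the origin (`2 ^ (k-j) + 2 ^ k ≤ 2 * 2 ^ k`), resp. within `m + n`.
-/

open MeasureTheory Filter Topology
open Pool.Agent.H17.IIC Pool.Agent.H41.QC Pool.Agent.H47.GM

namespace Pool.Agent.H66.RS

variable {d : ℕ}

lemma shC_shC (v w : V d) (ω : El d → Bool) : shC v (shC w ω) = shC (v + w) ω := by
  funext e
  unfold shC shE
  rw [Sym2.map_map]
  congr 2
  funext x
  simp [add_assoc]

lemma shC_zero (ω : El d → Bool) : shC (0 : V d) ω = ω := by
  funext e
  unfold shC shE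
  simp

lemma Loc_joined_shift {κ : Kind} {ω : El d → Bool} {v x y : V d} {r : ℝ}
    (h : Joined κ (shC v ω) x y r) : Joined κ ω (x + v) (y + v) r := by
  obtain ⟨w, hw⟩ := h
  let f : (Gr κ (shC v ω)) →g (Gr κ ω) :=
    { toFun := fun z => z + v
      map_rel' := by
        intro a b hab
        obtain ⟨⟨s, hs⟩, h2⟩ := hab
        refine ⟨⟨s, ?_⟩, ?_⟩
        · rw [hs]; abel
        · cases κ
          · exact h2
          · exact h2 }
  refine ⟨w.map f, ?_⟩
  rw [SimpleGraph.Walk.length_map]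
  exact hw

lemma joined_shift (κ : Kind) (ω : El d → Bool) (v x y : V d) (r : ℝ) :
    Joined κ (shC v ω) x y r ↔ Joined κ ω (x + v) (y + v) r := by
  constructor
  · exact Loc_joined_shift
  · intro h
    have h1 : shC (-v) (shC v ω) = ω := by
      rw [shC_shC, neg_add_cancel, shC_zero]
    rw [← h1] at h
    have h2 := Loc_joined_shift h
    simpa using h2

lemma pn_pos_le (κ : Kind) {X : El d → Bool} {n n' : ℕ} (h : n ≤ n') {y : V d}
    (hy : 0 < Pn κ X n' y) : 0 < Pn κ X n y :=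
  Pn_pos_of_le κ X h y hy

lemma Loc_mem_of_near {y v : V d} {n L : ℕ} (hy : ∀ i, |y i| + n ≤ L)
    (hv : ∀ i, |v i - y i| ≤ n) : v ∈ Bx (0 : V d) L := by
  rw [mem_Bx]
  intro i
  have h1 := hy i
  have h2 := hv i
  have h3 : |v i| ≤ |v i - y i| + |y i| := by
    calc |v i| = |(v i - y i) + y i| := by ring_nf
      _ ≤ _ := abs_add_le _ _
  simp only [Pi.zero_apply, sub_zero]
  linarith

lemma pn_local (κ : Kind) {X X' : El d → Bool} {n L : ℕ} {y : V d}
    (hy : ∀ i, |y i| + n ≤ L) (h : ∀ e : El d, (∀ v ∈ e, v ∈ Bx (0 : V d) L) → X e = X' e) :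
    Pn κ X n y = Pn κ X' n y := by
  apply Pn_congr κ n (Finset.mem_singleton_self y)
  intro e he
  obtain ⟨x, hx, hxe⟩ := suppP_near κ n he
  rw [Finset.mem_singleton] at hx
  subst hx
  exact h e fun v hv => Loc_mem_of_near hy (hxe v hv)

lemma Loc_walk (κ : Kind) {Y Y' : El d → Bool} {L : ℕ}
    (h : ∀ e : El d, (∀ v ∈ e, v ∈ Bx (0 : V d) L) → Y e = Y' e) {x y : V d}
    (w : (Gr κ Y).Walk x y) (hx : ∀ i, |x i| + (w.length : ℤ) ≤ L) :
    ∃ w' : (Gr κ Y').Walk x y, w'.length = w.length := by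
  induction w with
  | nil => exact ⟨SimpleGraph.Walk.nil, rfl⟩
  | @cons u v z hadj w ih =>
    rw [SimpleGraph.Walk.length_cons] at hx
    push_cast at hx
    have h1 : ∀ i, |v i - u i| ≤ 1 := by
      intro i
      obtain ⟨s, hs⟩ := hadj.1
      have h2 := path_abs_stepVec_le s i
      rw [hs]
      simpa using h2
    have hv : ∀ i, |v i| + (w.length : ℤ) ≤ L := by
      intro i
      have h2 := hx i
      have h3 := h1 i
      have h4 : |v i| ≤ |v i - u i| + |u i| := by
        calc |v i| = |(v i - u i) + u i| := by ring_nf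
          _ ≤ _ := abs_add_le _ _
      linarith
    have huB : u ∈ Bx (0 : V d) L := by
      rw [mem_Bx]
      intro i
      have := hx i
      simp only [Pi.zero_apply, sub_zero]
      have h5 : (0 : ℤ) ≤ (w.length : ℤ) := Int.natCast_nonneg _
      linarith
    have hvB : v ∈ Bx (0 : V d) L := by
      rw [mem_Bx]
      intro i
      have := hv i
      simp only [Pi.zero_apply, sub_zero]
      have h5 : (0 : ℤ) ≤ (w.length : ℤ) := Int.natCast_nonneg _
      linarith
    obtain ⟨w', hw'⟩ := ih hv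
    have hadj' : (Gr κ Y').Adj u v := by
      obtain ⟨hl, h2⟩ := hadj
      refine ⟨hl, ?_⟩
      have key : ∀ a b : V d, a ∈ Bx (0 : V d) L → b ∈ Bx (0 : V d) L →
          Y s(a, b) = Y' s(a, b) := by
        intro a b ha hb
        apply h
        intro c hc
        rw [Sym2.mem_iff] at hc
        rcases hc with rfl | rfl
        · exact ha
        · exact hb
      cases κ
      · show Y' s(u, v) = true
        rw [← key u v huB hvB]
        exact h2
      · show Y' s(u, u) = true ∧ Y' s(v, v) = true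
        rw [← key u u huB huB, ← key v v hvB hvB]
        exact h2
    exact ⟨SimpleGraph.Walk.cons hadj' w', by
      rw [SimpleGraph.Walk.length_cons, SimpleGraph.Walk.length_cons, hw']⟩

lemma joined_local (κ : Kind) {Y Y' : El d → Bool} {r L : ℕ} {x y : V d}
    (hx : ∀ i, |x i| + r ≤ L) (h : ∀ e : El d, (∀ v ∈ e, v ∈ Bx (0 : V d) L) → Y e = Y' e) :
    Joined κ Y x y r → Joined κ Y' x y r := by
  rintro ⟨w, hw⟩
  have hw1 : w.length ≤ r := by exact_mod_cast hw
  obtain ⟨w', hw'⟩ := Loc_walk κ h w (fun i => by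
    have := hx i
    have h2 : (w.length : ℤ) ≤ r := by exact_mod_cast hw1
    linarith)
  exact ⟨w', by rw [hw']; exact hw⟩

lemma Loc_andC {Y Y' τ : El d → Bool} {L : ℕ}
    (h : ∀ e : El d, (∀ v ∈ e, v ∈ Bx (0 : V d) L) → Y e = Y' e) :
    ∀ e : El d, (∀ v ∈ e, v ∈ Bx (0 : V d) L) → andC Y τ e = andC Y' τ e := by
  intro e he
  unfold andC
  rw [h e he]

lemma Loc_UU (κ : Kind) (j k : ℕ) {X X' Y Y' : El d → Bool}
    (hX : ∀ e : El d, (∀ v ∈ e, v ∈ Bx (0 : V d) (2 * 2 ^ k)) → X e = X' e)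
    (hY : ∀ e : El d, (∀ v ∈ e, v ∈ Bx (0 : V d) (2 * 2 ^ k)) → Y e = Y' e)
    (h : UU κ j k X Y) : UU κ j k X' Y' := by
  intro y y' hy hy' h1 h2
  have hpow : (2 : ℤ) ^ (k - j) ≤ 2 ^ k := pow_le_pow_right₀ (by norm_num) (Nat.sub_le k j)
  have hb : ∀ z : V d, (∀ i, |z i| ≤ 2 ^ (k - j)) →
      ∀ i, |z i| + ((2 ^ k : ℕ) : ℤ) ≤ ((2 * 2 ^ k : ℕ) : ℤ) := by
    intro z hz i
    have := hz i
    push_cast
    linarith
  rw [← pn_local κ (hb y hy) hX] at h1
  rw [← pn_local κ (hb y' hy') hX] at h2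
  have h3 := h y y' hy hy' h1 h2
  have h4 : Joined κ Y y y' ((2 ^ k : ℕ) : ℝ) := by
    push_cast
    exact h3
  have h5 := joined_local κ (hb y hy) hY h4
  push_cast at h5
  exact h5

lemma uP_local (κ : Kind) (q : unitInterval) (j k : ℕ) {Y Y' : El d → Bool}
    (h : ∀ e : El d, (∀ v ∈ e, v ∈ Bx (0 : V d) (2 * 2 ^ k)) → Y e = Y' e) :
    uP κ q j k Y = uP κ q j k Y' := by
  unfold uP
  congr 1
  ext τ
  constructor
  · exact Loc_UU κ j k (Loc_andC h) h
  · exact Loc_UU κ j k (Loc_andC fun e he => (h e he).symm) fun e he => (h e he).symm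

lemma Loc_LP (κ : Kind) (m n : ℕ) {X X' : El d → Bool}
    (hX : ∀ e : El d, (∀ v ∈ e, v ∈ Bx (0 : V d) (m + n)) → X e = X' e)
    (h : LP κ m n X) : LP κ m n X' := by
  obtain ⟨u, hu, h1⟩ := h
  refine ⟨u, hu, ?_⟩
  rw [← pn_local κ (L := m + n) (fun i => ?_) hX]
  · exact h1
  · have := mem_Bx.1 hu i
    simp only [Pi.zero_apply, sub_zero] at this
    push_cast
    linarith

lemma wP_local (κ : Kind) (q : unitInterval) (m n : ℕ) {Y Y' : El d → Bool}
    (h : ∀ e : El d, (∀ v ∈ e, v ∈ Bx (0 : V d) (m + n)) → Y e = Y' e) :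
    wP κ q m n Y = wP κ q m n Y' := by
  unfold wP
  congr 1
  ext τ
  constructor
  · exact Loc_LP κ m n (Loc_andC h)
  · exact Loc_LP κ m n (Loc_andC fun e he => (h e he).symm)

lemma Loc_full (κ : Kind) (m n : ℕ) {Y Y' : El d → Bool}
    (h : ∀ e : El d, (∀ v ∈ e, v ∈ Bx (0 : V d) (m + n)) → Y e = Y' e)
    (hf : FullOpen κ Y (Bx (0 : V d) m : Set (V d))) :
    FullOpen κ Y' (Bx (0 : V d) m : Set (V d)) := by
  have hB : ∀ a ∈ (Bx (0 : V d) m : Set (V d)), a ∈ Bx (0 : V d) (m + n) := by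
    intro a ha
    rw [Finset.mem_coe, mem_Bx] at ha
    rw [mem_Bx]
    intro i
    have := ha i
    push_cast
    have h5 : (0 : ℤ) ≤ (n : ℤ) := Int.natCast_nonneg _
    linarith
  have key : ∀ a ∈ (Bx (0 : V d) m : Set (V d)), ∀ b ∈ (Bx (0 : V d) m : Set (V d)),
      Y s(a, b) = Y' s(a, b) := by
    intro a ha b hb
    apply h
    intro c hc
    rw [Sym2.mem_iff] at hc
    rcases hc with rfl | rfl
    · exact hB _ ha
    · exact hB _ hb
  refine ⟨fun a ha b hb hab => ?_, fun hκ a ha => ?_⟩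
  · have h1 := hf.1 a ha b hb hab
    cases κ
    · show Y' s(a, b) = true
      rw [← key a ha b hb]
      exact h1
    · show Y' s(b, b) = true
      rw [← key b hb b hb]
      exact h1
  · rw [← key a ha a ha]
    exact hf.2 hκ a ha

lemma seedA_local (κ : Kind) (q : unitInterval) (m n : ℕ) {Y Y' : El d → Bool}
    (h : ∀ e : El d, (∀ v ∈ e, v ∈ Bx (0 : V d) (m + n)) → Y e = Y' e) :
    Y ∈ SeedA (d := d) κ q m n ↔ Y' ∈ SeedA (d := d) κ q m n := by
  have h' : ∀ e : El d, (∀ v ∈ e, v ∈ Bx (0 : V d) (m + n)) → Y' e = Y e :=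
    fun e he => (h e he).symm
  constructor
  · rintro ⟨h1, h2⟩
    exact ⟨Loc_full κ m n h h1, by rw [← wP_local κ q m n h]; exact h2⟩
  · rintro ⟨h1, h2⟩
    exact ⟨Loc_full κ m n h' h1, by rw [wP_local κ q m n h]; exact h2⟩

/-- the elements inside a box are finitely many -/
lemma box_elements (v : V d) (L : ℕ) : ∃ Λ : Finset (El d), ∀ e : El d,
    e ∈ Λ ↔ ∀ u ∈ e, u ∈ Bx v L := by
  classical
  exact ⟨(Bx v L).sym2, fun e => Finset.mem_sym2_iff⟩

lemma wP_mono (κ : Kind) (q : unitInterval) (m n : ℕ) {Y Y' : El d → Bool}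
    (h : ∀ e, Y e = true → Y' e = true) : wP κ q m n Y ≤ wP κ q m n Y' := by
  unfold wP
  apply measureReal_mono
  · rintro τ ⟨u, hu, h1⟩
    refine ⟨u, hu, h1.trans_le (Pn_mono κ n u fun e he => ?_)⟩
    unfold andC at he ⊢
    rw [Bool.and_eq_true] at he ⊢
    exact ⟨h e he.1, he.2⟩
  · exact measure_ne_top _ _

lemma wP_anti (κ : Kind) (q : unitInterval) (m : ℕ) {n n' : ℕ} (h : n ≤ n') (Y : El d → Bool) :
    wP κ q m n' Y ≤ wP κ q m n Y := by
  unfold wP
  apply measureReal_mono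
  · rintro τ ⟨u, hu, h1⟩
    exact ⟨u, hu, pn_pos_le κ h h1⟩
  · exact measure_ne_top _ _

lemma seedA_anti (κ : Kind) (q : unitInterval) (m : ℕ) :
    Antitone (fun n => SeedA (d := d) κ q m n) := by
  intro n n' h Y hY
  exact ⟨hY.1, hY.2.trans (wP_anti κ q m h Y)⟩

lemma Loc_meas_pos (κ : Kind) (N : ℕ) (y : V d) :
    MeasurableSet {X : El d → Bool | 0 < Pn κ X N y} := by
  have h2 : MeasurableSet {ω : El d → Bool | (0 : ℝ) < (Pn κ ω N y : ℝ)} :=
    measurableSet_lt measurable_const (Pn_measurable κ N y)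
  have h3 : {ω : El d → Bool | (0 : ℝ) < (Pn κ ω N y : ℝ)} =
      {X : El d → Bool | 0 < Pn κ X N y} := by
    ext ω
    simp only [Set.mem_ofPred_eq, Nat.cast_pos]
  rw [← h3]
  exact h2

lemma measurableSet_UU (κ : Kind) (j k : ℕ) :
    MeasurableSet {x : (El d → Bool) × (El d → Bool) | UU κ j k x.1 x.2} := by
  have e1 : {x : (El d → Bool) × (El d → Bool) | UU κ j k x.1 x.2} =
      ⋂ y : V d, ⋂ y' : V d, ⋂ _ : ∀ i, |y i| ≤ 2 ^ (k - j), ⋂ _ : ∀ i, |y' i| ≤ 2 ^ (k - j),
        ((Prod.fst ⁻¹' {X : El d → Bool | 0 < Pn κ X (2 ^ k) y})ᶜ ∪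
          ((Prod.fst ⁻¹' {X : El d → Bool | 0 < Pn κ X (2 ^ k) y'})ᶜ ∪
            (Prod.snd ⁻¹' {Y : El d → Bool | Joined κ Y y y' (2 ^ k)}))) := by
    ext x
    simp only [Set.mem_ofPred_eq, Set.mem_iInter, Set.mem_union, Set.mem_compl_iff,
      Set.mem_preimage]
    constructor
    · intro h y y' hy hy'
      by_cases h1 : 0 < Pn κ x.1 (2 ^ k) y
      · by_cases h2 : 0 < Pn κ x.1 (2 ^ k) y'
        · exact Or.inr (Or.inr (h y y' hy hy' h1 h2))
        · exact Or.inr (Or.inl h2)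
      · exact Or.inl h1
    · intro h y y' hy hy' h1 h2
      rcases h y y' hy hy' with h3 | h3 | h3
      · exact absurd h1 h3
      · exact absurd h2 h3
      · exact h3
  rw [e1]
  refine MeasurableSet.iInter fun y => MeasurableSet.iInter fun y' => MeasurableSet.iInter fun _ =>
    MeasurableSet.iInter fun _ => ?_
  exact (measurable_fst (Loc_meas_pos κ _ y)).compl.union
    ((measurable_fst (Loc_meas_pos κ _ y')).compl.union
      (measurable_snd (measurable_joined κ y y' _)))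

lemma measurableSet_LP (κ : Kind) (m n : ℕ) : MeasurableSet {X : El d → Bool | LP κ m n X} := by
  have e1 : {X : El d → Bool | LP κ m n X} =
      ⋃ u ∈ Bx (0 : V d) m, {X : El d → Bool | 0 < Pn κ X n u} := by
    ext X
    simp only [Set.mem_ofPred_eq, Set.mem_iUnion, exists_prop]
    rfl
  rw [e1]
  exact Finset.measurableSet_biUnion _ fun u _ => Loc_meas_pos κ n u

lemma measurable_andC : Measurable fun x : (El d → Bool) × (El d → Bool) => andC x.1 x.2 := by
  rw [measurable_pi_iff]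
  intro e
  have h1 : Measurable fun b : Bool × Bool => b.1 && b.2 := measurable_of_countable _
  have h2 : Measurable fun x : (El d → Bool) × (El d → Bool) => (x.1 e, x.2 e) :=
    ((measurable_pi_apply e).comp measurable_fst).prodMk
      ((measurable_pi_apply e).comp measurable_snd)
  exact h1.comp h2

lemma measurable_uP (κ : Kind) (q : unitInterval) (j k : ℕ) :
    Measurable (uP (d := d) κ q j k) := by
  have h1 : MeasurableSet {x : (El d → Bool) × (El d → Bool) | UU κ j k (andC x.1 x.2) x.1} := by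
    have h2 : Measurable fun x : (El d → Bool) × (El d → Bool) => (andC x.1 x.2, x.1) :=
      measurable_andC.prodMk measurable_fst
    exact h2 (measurableSet_UU κ j k)
  exact (measurable_measure_prodMk_left (ν := prodBern (El d) q) h1).ennreal_toReal

lemma measurable_wP (κ : Kind) (q : unitInterval) (m n : ℕ) :
    Measurable (wP (d := d) κ q m n) := by
  have h1 : MeasurableSet {x : (El d → Bool) × (El d → Bool) | LP κ m n (andC x.1 x.2)} :=
    measurable_andC (measurableSet_LP κ m n)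
  exact (measurable_measure_prodMk_left (ν := prodBern (El d) q) h1).ennreal_toReal

end Pool.Agent.H66.RS
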