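import Pool.Agent.H66.RS.ConnU
import Pool.Agent.H66.RS.Loc
import Pool.Agent.H66.RS.PairLaw

/-!
# RS module UProb: `uP` is large with high probability

Choose `δ` with `1 - p = (1 - p₁) (1 - δ)^3` (as in the proof of `conn_c`), `0 < δ < 1`. `conn_u`: almost
surely `UU` for all large `k`, so the probability of `UU κ j k` tends to `1` (measurable,
`measurableSet_UU`; the complements have limsup of measure zero: `tendsto` of the measures of
`⋂_{k ≥ n}` increasing to a set of full measure). `pair_law` transports to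
`prodBern p ⊗ prodBern q`; Fubini: `P(UU) = ∫ uP`, and Markov:
`P(uP < 9/10) ≤ 10 (1 - P(UU))`.
-/

open MeasureTheory Filter Topology
open Pool.Agent.H17.IIC Pool.Agent.H41.QC Pool.Agent.H47.GM

namespace Pool.Agent.H66.RS

variable {d : ℕ}

/-- the retention parameter -/
lemma UProb_delta (p₁ p : unitInterval) (h1 : (p₁ : ℝ) < p) (hp : (p : ℝ) < 1) :
    ∃ δ : unitInterval, 0 < (δ : ℝ) ∧ (1 - p : ℝ) = (1 - p₁) * (1 - δ) ^ 3 := by
  have h1p : 0 < 1 - (p₁ : ℝ) := by linarith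
  set t : ℝ := (1 - (p : ℝ)) / (1 - (p₁ : ℝ)) with ht
  have ht0 : 0 < t := div_pos (by linarith) h1p
  have ht1 : t < 1 := by
    rw [ht, div_lt_one h1p]
    linarith
  set s : ℝ := t ^ (1 / 3 : ℝ) with hs
  have hs0 : 0 < s := Real.rpow_pos_of_pos ht0 _
  have hs1 : s < 1 := Real.rpow_lt_one ht0.le ht1 (by norm_num)
  have hs3 : s ^ 3 = t := by
    rw [hs, ← Real.rpow_natCast, ← Real.rpow_mul ht0.le]
    norm_num
  refine ⟨⟨1 - s, by constructor <;> linarith⟩, ?_, ?_⟩
  · show 0 < 1 - s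
    linarith
  · show 1 - (p : ℝ) = (1 - p₁) * (1 - (1 - s)) ^ 3
    rw [sub_sub_cancel, hs3, ht]
    field_simp

/-- Markov's inequality for the sections of a set -/
lemma UProb_markov {α β : Type*} [MeasurableSpace α] [MeasurableSpace β] (P : Measure α)
    (Q : Measure β) [IsProbabilityMeasure P] [IsProbabilityMeasure Q] (S : Set (α × β))
    (hS : MeasurableSet S) {η : ℝ} (h : 1 - η / 10 ≤ (P.prod Q).real S) :
    1 - η ≤ P.real {x | 9 / 10 ≤ Q.real (Prod.mk x ⁻¹' S)} := by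
  have hm : Measurable fun x => Q.real (Prod.mk x ⁻¹' S) :=
    (measurable_measure_prodMk_left hS).ennreal_toReal
  set B : Set α := {x | 9 / 10 ≤ Q.real (Prod.mk x ⁻¹' S)} with hB
  have hBm : MeasurableSet B := measurableSet_le measurable_const hm
  have h1 : (P.prod Q) S ≤ P B + ENNReal.ofReal (9 / 10) * P Bᶜ := by
    rw [Measure.prod_apply hS, ← lintegral_add_compl _ hBm]
    refine add_le_add ?_ ?_
    · calc ∫⁻ x in B, Q (Prod.mk x ⁻¹' S) ∂P ≤ ∫⁻ _ in B, 1 ∂P :=
            lintegral_mono fun x => prob_le_one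
        _ = P B := by simp
    · calc ∫⁻ x in Bᶜ, Q (Prod.mk x ⁻¹' S) ∂P ≤ ∫⁻ _ in Bᶜ, ENNReal.ofReal (9 / 10) ∂P := by
            refine setLIntegral_mono measurable_const fun x hx => ?_
            have h2 : Q.real (Prod.mk x ⁻¹' S) < 9 / 10 := not_le.1 hx
            rw [← ENNReal.ofReal_toReal (measure_ne_top Q (Prod.mk x ⁻¹' S))]
            exact ENNReal.ofReal_le_ofReal h2.le
        _ = ENNReal.ofReal (9 / 10) * P Bᶜ := by
            rw [lintegral_const, Measure.restrict_apply_univ]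
  have h2 : (P.prod Q).real S ≤ P.real B + 9 / 10 * P.real Bᶜ := by
    have h3 := ENNReal.toReal_mono (ENNReal.add_ne_top.2 ⟨measure_ne_top P B,
      ENNReal.mul_ne_top ENNReal.ofReal_ne_top (measure_ne_top P Bᶜ)⟩) h1
    rw [ENNReal.toReal_add (measure_ne_top P B)
      (ENNReal.mul_ne_top ENNReal.ofReal_ne_top (measure_ne_top P Bᶜ)), ENNReal.toReal_mul,
      ENNReal.toReal_ofReal (by norm_num)] at h3
    exact h3
  rw [probReal_compl_eq_one_sub hBm] at h2
  linarith

theorem uP_large (κ : Kind) (hd : 2 ≤ d) (p₀ p₁ p q : unitInterval) (h01 : (p₀ : ℝ) < p₁)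
    (h1 : (p₁ : ℝ) < p) (hp : (p : ℝ) < 1) (hq : (p₁ : ℝ) = p * q) (hθ : 0 < theta κ d p₀) :
    ∃ j : ℕ, 1 ≤ j ∧ ∀ η : ℝ, 0 < η → ∀ᶠ k : ℕ in atTop,
      1 - η ≤ (prodBern (El d) p).real {Y | 9 / 10 ≤ uP κ q j k Y} := by
  classical
  obtain ⟨δ, hδ, hpδ⟩ := UProb_delta p₁ p h1 hp
  obtain ⟨j, hj1, hj⟩ := conn_u (d := d) κ hd p₀ p₁ δ h01 (by linarith) hδ hθ
  refine ⟨j, hj1, fun η hη => ?_⟩
  set φ : (Fin 3 × El d → Bool) × (El d → Bool) → (El d → Bool) × (El d → Bool) :=
    fun x => (fld 0 x.1, fun e => tot x.1 e || x.2 e) with hφ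
  set ψ : (El d → Bool) × (El d → Bool) → (El d → Bool) × (El d → Bool) :=
    fun x => (andC x.1 x.2, x.1) with hψ
  have hφm : Measurable φ := pairLaw_meas_left
  have hψm : Measurable ψ := measurable_andC.prodMk measurable_fst
  have hA : ∀ k, MeasurableSet {x : (El d → Bool) × (El d → Bool) | UU κ j k x.1 x.2} :=
    fun k => measurableSet_UU κ j k
  have hT : Tendsto (fun k => ((mu (parJ d 2 p₁ δ)).prod (prodBern (El d) δ))
      (φ ⁻¹' {x | UU κ j k x.1 x.2})) atTop
      (𝓝 (((mu (parJ d 2 p₁ δ)).prod (prodBern (El d) δ)) Set.univ)) := by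
    refine tendsto_measure_of_ae_tendsto_indicator_of_isFiniteMeasure atTop MeasurableSet.univ
      (fun k => hφm (hA k)) ?_
    filter_upwards [hj] with x hx
    filter_upwards [hx] with k hk
    exact ⟨fun _ => Set.mem_univ _, fun _ => hk⟩
  rw [measure_univ] at hT
  have hlaw := pair_law (d := d) p₁ p q δ hpδ hq
  have hT2 : Tendsto (fun k => ((prodBern (El d) p).prod (prodBern (El d) q)).real
      (ψ ⁻¹' {x | UU κ j k x.1 x.2})) atTop (𝓝 1) := by
    have h2 : ∀ k, ((mu (parJ d 2 p₁ δ)).prod (prodBern (El d) δ))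
        (φ ⁻¹' {x | UU κ j k x.1 x.2}) = ((prodBern (El d) p).prod (prodBern (El d) q))
        (ψ ⁻¹' {x | UU κ j k x.1 x.2}) := by
      intro k
      rw [← Measure.map_apply hφm (hA k), ← Measure.map_apply hψm (hA k), hφ, hψ, hlaw]
    simp_rw [h2] at hT
    have h3 := (ENNReal.tendsto_toReal ENNReal.one_ne_top).comp hT
    rw [ENNReal.toReal_one] at h3
    exact h3
  have h4 : ∀ᶠ k in atTop, 1 - η / 10 < ((prodBern (El d) p).prod (prodBern (El d) q)).real
      (ψ ⁻¹' {x | UU κ j k x.1 x.2}) := hT2.eventually (lt_mem_nhds (by linarith))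
  filter_upwards [h4] with k hk
  exact UProb_markov (prodBern (El d) p) (prodBern (El d) q) _ (hψm (hA k)) hk.le

end Pool.Agent.H66.RS
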