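import Pool.Agent.H47.GM.Theta
import Pool.Agent.H66.RS.HubJoin
import Pool.Agent.H66.RS.SeedErg
import Pool.Agent.H66.RS.SeedPos
import Pool.Agent.H66.RS.Sep
import Pool.Agent.H66.RS.UProb

/-!
# RS module BlocksThm: existence of block fields

Given `ρ > 0` (WLOG `ρ ≤ 1`). `p₁ = (p₀ + p) / 2`, `q = p₁ / p`; `j` from `uP_large`, `m` from `seed_pos`
(`theta_mono`), `W = 2 ^ (j + 4)`, `η = ρ^((2W+1)^d) / 2`, `K` from `seed_axis` for `η`, then `k` large:
`j + 1 ≤ k`, `K + m ≤ 2 ^ (k - j - 1)` and the bound of `uP_large` for `η`. `s = 2 ^ (k - j - 1)`,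
`good x = GoodAt B hd (bc s x)`, `h x = hubAt B hd (bc s x)` with `B = ⟨κ, q, j, k, m, K⟩`,
`L = 2 * 2 ^ k + 2 * ((2 * m + 1) ^ d + 1) + K`. Locality: `uP_local`, `seedA_local` (the relevant elements are within
`2 * 2^k` resp. `K + m + 2^k ≤ 2 * 2^k` of `bc s x`). For `range_bound` use the radius `2 * 2^k`:
`2 * (2 * 2^k) = 2^(k+2) ≤ s * W = 2^(k+3)`. Link: `hub_join` with `v = bc s x`, `a = e0 t`,
`b = bc s x' - bc s x + e0 t'`, `|b i| ≤ s + K`, `s + K + m ≤ 2 ^ (k - j)`. Open: the seed box is fully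
open. Probability: translation invariance (`prodBern_shift`). Equivariance `shift_good`, `shift_h`:
`bc s (x + v) = bc s x + s • v`, `shC_shC`.
-/

open MeasureTheory Filter Topology
open Pool.Agent.H17.IIC Pool.Agent.H41.QC Pool.Agent.H47.GM

namespace Pool.Agent.H66.RS

variable {d : ℕ}

lemma BlocksThm_e0 {hd : 0 < d} (t : ℕ) (i : Fin d) : |e0 hd t i| ≤ t := by
  unfold e0
  rw [Pi.single_apply]
  split_ifs
  · rw [Nat.abs_cast]
  · simp

/-- elements of the shifted configuration -/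
lemma BlocksThm_sh {v : V d} {L M : ℕ} {w : V d} {ω ω' : El d → Bool}
    (hw : ∀ i, |w i| + M ≤ L)
    (h : ∀ e : El d, (∀ u ∈ e, u ∈ Bx v L) → ω e = ω' e) :
    ∀ e : El d, (∀ u ∈ e, u ∈ Bx (0 : V d) M) → shC (v + w) ω e = shC (v + w) ω' e := by
  intro e he
  unfold shC
  refine h _ fun u hu => ?_
  unfold shE at hu
  rw [Sym2.mem_map] at hu
  obtain ⟨a, ha, rfl⟩ := hu
  have h1 := he a ha
  rw [mem_Bx] at h1 ⊢
  intro i
  have h2 := h1 i
  have h3 := hw i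
  have e1 : (a + (v + w)) i - v i = (a i - (0 : V d) i) + w i := by
    simp only [Pi.add_apply, Pi.zero_apply]
    ring
  rw [e1]
  have h4 := abs_add_le (a i - (0 : V d) i) (w i)
  linarith

lemma BlocksThm_uP {κ : Kind} {q : unitInterval} {j k L : ℕ} {v : V d} {ω ω' : El d → Bool}
    (hL : 2 * 2 ^ k ≤ L) (h : ∀ e : El d, (∀ u ∈ e, u ∈ Bx v L) → ω e = ω' e) :
    uP κ q j k (shC v ω) = uP κ q j k (shC v ω') := by
  have h1 := BlocksThm_sh (v := v) (L := L) (M := 2 * 2 ^ k) (w := 0) (fun i => by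
    simp only [Pi.zero_apply, abs_zero, zero_add]
    exact_mod_cast hL) h
  rw [add_zero] at h1
  exact uP_local κ q j k h1

lemma BlocksThm_seed {κ : Kind} {q : unitInterval} {m n K L t : ℕ} {hd : 0 < d} {v : V d}
    {ω ω' : El d → Bool} (ht : t ≤ K) (hL : K + m + n ≤ L)
    (h : ∀ e : El d, (∀ u ∈ e, u ∈ Bx v L) → ω e = ω' e) :
    shC (v + e0 hd t) ω ∈ SeedA (d := d) κ q m n ↔
      shC (v + e0 hd t) ω' ∈ SeedA (d := d) κ q m n := by
  refine seedA_local κ q m n (BlocksThm_sh (L := L) (fun i => ?_) h)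
  have h1 := BlocksThm_e0 (hd := hd) t i
  have h2 : ((t : ℕ) : ℤ) + ((m + n : ℕ) : ℤ) ≤ (L : ℤ) := by
    exact_mod_cast (by omega : t + (m + n) ≤ L)
  linarith

lemma BlocksThm_good {B : BP} {hd : 0 < d} {v : V d} {L : ℕ} {ω ω' : El d → Bool}
    (hL : 2 * 2 ^ B.k ≤ L) (hL' : B.K + B.m + 2 ^ B.k ≤ L)
    (h : ∀ e : El d, (∀ u ∈ e, u ∈ Bx v L) → ω e = ω' e) :
    (GoodAt B hd v ω ↔ GoodAt B hd v ω') ∧ hubAt B hd v ω = hubAt B hd v ω' := by
  have hs : ∀ t, (t ≤ B.K ∧ shC (v + e0 hd t) ω ∈ SeedA (d := d) B.κ B.q B.m (2 ^ B.k)) ↔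
      (t ≤ B.K ∧ shC (v + e0 hd t) ω' ∈ SeedA (d := d) B.κ B.q B.m (2 ^ B.k)) := by
    intro t
    constructor
    · rintro ⟨h1, h2⟩
      exact ⟨h1, (BlocksThm_seed h1 hL' h).1 h2⟩
    · rintro ⟨h1, h2⟩
      exact ⟨h1, (BlocksThm_seed h1 hL' h).2 h2⟩
  constructor
  · unfold GoodAt
    rw [BlocksThm_uP hL h]
    exact and_congr_right fun _ => exists_congr hs
  · unfold hubAt
    congr 2
    congr 1
    ext t
    exact hs t

/-- the centre of the seed of a good block -/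
lemma BlocksThm_hub {B : BP} {hd : 0 < d} {v : V d} {ω : El d → Bool} (h : GoodAt B hd v ω) :
    ∃ t, t ≤ B.K ∧ hubAt B hd v ω = v + e0 hd t ∧
      shC (v + e0 hd t) ω ∈ SeedA (d := d) B.κ B.q B.m (2 ^ B.k) := by
  obtain ⟨-, hne⟩ := h
  have hne' : {t | t ≤ B.K ∧ shC (v + e0 hd t) ω ∈
      SeedA (d := d) B.κ B.q B.m (2 ^ B.k)}.Nonempty := hne
  obtain ⟨h1, h2⟩ := Nat.sInf_mem hne'
  exact ⟨_, h1, rfl, h2⟩

lemma BlocksThm_open {κ : Kind} {q : unitInterval} {m n : ℕ} {v : V d} {ω : El d → Bool}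
    (h : shC v ω ∈ SeedA (d := d) κ q m n) (hκ : κ = .site) : ω s(v, v) = true := by
  have h1 := h.1.2 hκ 0 (by
    rw [Finset.mem_coe, mem_Bx]
    intro i
    simp)
  unfold shC shE at h1
  rw [Sym2.map_mk] at h1
  simpa using h1

lemma BlocksThm_bc {s : ℕ} {x x' : V d} (h : LatAdj x x') (i : Fin d) :
    |bc s x' i - bc s x i| ≤ s := by
  obtain ⟨st, rfl⟩ := h
  unfold bc
  have h1 : |stepVec st i| ≤ 1 := by
    unfold stepVec
    rw [Pi.single_apply]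
    split_ifs <;> simp
  have e1 : (s : ℤ) * (x + stepVec st) i - s * x i = s * stepVec st i := by
    rw [Pi.add_apply]
    ring
  rw [e1, abs_mul, Nat.abs_cast]
  have h2 : (0 : ℤ) ≤ s := Int.natCast_nonneg s
  nlinarith

lemma BlocksThm_shift (B : BP) (hd : 0 < d) (w u : V d) (ω : El d → Bool) :
    (GoodAt B hd (w + u) ω ↔ GoodAt B hd w (shC u ω)) ∧
      hubAt B hd (w + u) ω = hubAt B hd w (shC u ω) + u := by
  have h1 : shC (w + u) ω = shC w (shC u ω) := (shC_shC w u ω).symm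
  have h2 : ∀ t : ℕ, shC (w + u + e0 hd t) ω = shC (w + e0 hd t) (shC u ω) := by
    intro t
    rw [shC_shC]
    congr 1
    abel
  constructor
  · unfold GoodAt
    rw [h1]
    simp only [h2]
  · unfold hubAt
    simp only [h2]
    abel

lemma BlocksThm_bc_add (s : ℕ) (x v : V d) : bc s (x + v) = bc s x + (s : ℤ) • v := by
  funext i
  unfold bc
  simp only [Pi.add_apply, Pi.smul_apply, smul_eq_mul]
  ring

theorem blocks_thm (κ : Kind) (hd : 2 ≤ d) (p₀ p : unitInterval) (h0p : (p₀ : ℝ) < p)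
    (hp : (p : ℝ) < 1) (hθ : 0 < theta κ d p₀) {ρ : ℝ} (hρ : 0 < ρ) :
    Nonempty (Blocks κ d p ρ) := by
  have hd0 : 0 < d := by omega
  -- it is enough to treat `ρ' = min ρ 1`
  set ρ' : ℝ := min ρ 1 with hρ'
  have hρ'0 : 0 < ρ' := lt_min hρ one_pos
  have hρ'1 : ρ' ≤ 1 := min_le_right _ _
  have hρ'ρ : ρ' ≤ ρ := min_le_left _ _
  have hp0 : (0 : ℝ) < p := lt_of_le_of_lt p₀.2.1 h0p
  -- the parameters
  obtain ⟨p₁, hp₁⟩ : ∃ p₁ : unitInterval, (p₁ : ℝ) = ((p₀ : ℝ) + p) / 2 :=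
    ⟨⟨((p₀ : ℝ) + p) / 2, by
      have h1 := p₀.2.1
      linarith, by linarith⟩, rfl⟩
  have h01 : (p₀ : ℝ) < p₁ := by linarith
  have h1 : (p₁ : ℝ) < p := by linarith
  have hp₁0 : (0 : ℝ) < p₁ := lt_of_le_of_lt p₀.2.1 h01
  obtain ⟨q, hq⟩ : ∃ q : unitInterval, (q : ℝ) = (p₁ : ℝ) / p :=
    ⟨⟨(p₁ : ℝ) / p, by positivity, by
      rw [div_le_one hp0]
      exact h1.le⟩, rfl⟩
  have hpq : (p₁ : ℝ) = p * q := by
    rw [hq, mul_div_cancel₀ _ hp0.ne']
  have hθ₁ : 0 < theta κ d p₁ := lt_of_lt_of_le hθ (theta_mono κ d h01.le)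
  obtain ⟨j, hj, hU⟩ := uP_large κ hd p₀ p₁ p q h01 h1 hp hpq hθ
  obtain ⟨m, hm⟩ := seed_pos κ (by omega) p₁ p q hp₁0 hpq hθ₁
  obtain ⟨W, hW⟩ : ∃ W : ℕ, W = 2 ^ (j + 4) := ⟨_, rfl⟩
  have hη : 0 < ρ' ^ ((2 * W + 1) ^ d) / 2 := by positivity
  obtain ⟨η, hηdef⟩ : ∃ η : ℝ, η = ρ' ^ ((2 * W + 1) ^ d) / 2 := ⟨_, rfl⟩
  rw [← hηdef] at hη
  obtain ⟨K, hK⟩ := seed_axis κ hd0 p q m hm hη
  have hbig : ∀ᶠ k : ℕ in atTop, j + 1 ≤ k ∧ K + m ≤ 2 ^ (k - j - 1) := by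
    filter_upwards [eventually_ge_atTop (j + 1 + (K + m))] with k hk
    refine ⟨by omega, ?_⟩
    calc K + m ≤ k - j - 1 := by omega
      _ ≤ 2 ^ (k - j - 1) := Nat.lt_two_pow_self.le
  obtain ⟨k, hUk, hjk, hKm⟩ := ((hU η hη).and hbig).exists
  obtain ⟨s, hs⟩ : ∃ s : ℕ, s = 2 ^ (k - j - 1) := ⟨_, rfl⟩
  have hs1 : 1 ≤ s := by
    rw [hs]
    exact Nat.one_le_two_pow
  have hkj : 2 * s = 2 ^ (k - j) := by
    rw [hs, ← pow_succ']
    congr 1
    omega
  have hsk : s ≤ 2 ^ k := by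
    rw [hs]
    exact Nat.pow_le_pow_right (by norm_num) (by omega)
  rw [← hs] at hKm
  obtain ⟨B, hB⟩ : ∃ B : BP, B = ⟨κ, q, j, k, m, K⟩ := ⟨_, rfl⟩
  have hBκ : B.κ = κ := by rw [hB]
  have hBq : B.q = q := by rw [hB]
  have hBj : B.j = j := by rw [hB]
  have hBk : B.k = k := by rw [hB]
  have hBm : B.m = m := by rw [hB]
  have hBK : B.K = K := by rw [hB]
  have hr1 : 2 * 2 ^ B.k ≤ 2 * 2 ^ k := by rw [hBk]
  have hr2 : B.K + B.m + 2 ^ B.k ≤ 2 * 2 ^ k := by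
    rw [hBk, hBm, hBK]
    omega
  have hcard : 2 * (2 * 2 ^ k) ≤ s * W := by
    rw [hs, hW, ← pow_add, show k - j - 1 + (j + 4) = k + 3 by omega]
    have h2 : 2 ^ (k + 3) = 8 * 2 ^ k := by ring
    rw [h2]
    omega
  -- measurability through locality
  have hmeas : ∀ (A : Set (El d → Bool)), (∀ ω ω' : El d → Bool,
      (∀ e : El d, (∀ u ∈ e, u ∈ Bx (0 : V d) (2 * 2 ^ k)) → ω e = ω' e) → (ω ∈ A ↔ ω' ∈ A)) →
      MeasurableSet A := by
    intro A hA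
    obtain ⟨Λ, hΛ⟩ := box_elements (0 : V d) (2 * 2 ^ k)
    refine On.measurableSet (Λ := Λ) fun ω ω' h => hA ω ω' fun e he => h e ?_
    rw [Finset.mem_coe]
    exact (hΛ e).2 he
  -- the probability of a bad block
  have hbad : ∀ v : V d, (prodBern (El d) p).real {ω | ¬ GoodAt B hd0 v ω} ≤
      ρ' ^ ((2 * W + 1) ^ d) := by
    intro v
    set A₁ : Set (El d → Bool) := {Y | 9 / 10 ≤ uP κ q j k Y} with hA₁
    set A₂ : Set (El d → Bool) := {Y | ∃ t, t ≤ K ∧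
      shC (e0 hd0 t) Y ∈ SeedA (d := d) κ q m (2 ^ k)} with hA₂
    have mA₁ : MeasurableSet A₁ := by
      refine hmeas _ fun ω ω' h => ?_
      have h2 := BlocksThm_uP (κ := κ) (q := q) (j := j) (k := k) (v := (0 : V d)) le_rfl h
      rw [shC_zero, shC_zero] at h2
      simp only [hA₁, Set.mem_ofPred_eq, h2]
    have mA₂ : MeasurableSet A₂ := by
      refine hmeas _ fun ω ω' h => ?_
      have h2 : ∀ t, t ≤ K → (shC (e0 hd0 t) ω ∈ SeedA (d := d) κ q m (2 ^ k) ↔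
          shC (e0 hd0 t) ω' ∈ SeedA (d := d) κ q m (2 ^ k)) := by
        intro t ht
        have h3 := BlocksThm_seed (κ := κ) (q := q) (m := m) (n := 2 ^ k) (K := K)
          (L := 2 * 2 ^ k) (hd := hd0) (v := (0 : V d)) ht (by omega) h
        rw [zero_add] at h3
        exact h3
      constructor
      · rintro ⟨t, ht, ht'⟩
        exact ⟨t, ht, (h2 t ht).1 ht'⟩
      · rintro ⟨t, ht, ht'⟩
        exact ⟨t, ht, (h2 t ht).2 ht'⟩
    have hpA : ∀ A : Set (El d → Bool), MeasurableSet A → 1 - η ≤ (prodBern (El d) p).real A →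
        (prodBern (El d) p).real {ω | shC v ω ∉ A} ≤ η := by
      intro A mA hA
      have h2 : (prodBern (El d) p).real {ω | shC v ω ∉ A} = (prodBern (El d) p).real Aᶜ := by
        conv_rhs => rw [← prodBern_shift p v]
        rw [map_measureReal_apply (trans_measurable_shift v) mA.compl]
        rfl
      rw [h2, probReal_compl_eq_one_sub mA]
      linarith
    have hsub : {ω | ¬ GoodAt B hd0 v ω} ⊆ {ω | shC v ω ∉ A₁} ∪ {ω | shC v ω ∉ A₂} := by
      intro ω hω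
      by_contra hcon
      simp only [Set.mem_union, not_or, Set.mem_ofPred_eq, not_not] at hcon
      apply hω
      unfold GoodAt
      rw [hBκ, hBq, hBj, hBk, hBm, hBK]
      refine ⟨hcon.1, ?_⟩
      obtain ⟨t, ht, ht'⟩ := hcon.2
      refine ⟨t, ht, ?_⟩
      rw [shC_shC] at ht'
      rw [add_comm v]
      exact ht'
    calc (prodBern (El d) p).real {ω | ¬ GoodAt B hd0 v ω}
        ≤ (prodBern (El d) p).real ({ω | shC v ω ∉ A₁} ∪ {ω | shC v ω ∉ A₂}) :=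
          measureReal_mono hsub
      _ ≤ (prodBern (El d) p).real {ω | shC v ω ∉ A₁} +
          (prodBern (El d) p).real {ω | shC v ω ∉ A₂} := measureReal_union_le _ _
      _ ≤ η + η := add_le_add (hpA A₁ mA₁ hUk) (hpA A₂ mA₂ (hK _))
      _ = ρ' ^ ((2 * W + 1) ^ d) := by
          rw [hηdef]
          ring
  refine ⟨{
    s := s
    L := 2 * 2 ^ k + 2 * ((2 * m + 1) ^ d + 1) + K
    hs := hs1
    good := fun x ω => GoodAt B hd0 (bc s x) ω
    h := fun x ω => hubAt B hd0 (bc s x) ω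
    loc := ?_
    near := ?_
    opn := ?_
    link := ?_
    prob := ?_
    shift_good := ?_
    shift_h := ?_ }⟩
  · intro x ω ω' h
    exact BlocksThm_good (hr1.trans (by omega)) (hr2.trans (by omega)) h
  · intro x ω h i
    obtain ⟨t, ht, he, -⟩ := BlocksThm_hub h
    change |hubAt B hd0 (bc s x) ω i - bc s x i| ≤ _
    rw [he, Pi.add_apply, add_sub_cancel_left]
    refine (BlocksThm_e0 t i).trans ?_
    rw [hBK] at ht
    have h2 : t ≤ 2 * 2 ^ k + 2 * ((2 * m + 1) ^ d + 1) + K := by omega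
    exact_mod_cast h2
  · intro x ω h hκ
    obtain ⟨t, -, he, hS⟩ := BlocksThm_hub h
    change ω s(hubAt B hd0 (bc s x) ω, hubAt B hd0 (bc s x) ω) = true
    rw [he]
    exact BlocksThm_open hS (by rw [hBκ, hκ])
  · intro x x' ω h h' hadj
    obtain ⟨t, ht, he, hS⟩ := BlocksThm_hub h
    obtain ⟨t', ht', he', hS'⟩ := BlocksThm_hub h'
    change Joined κ ω (hubAt B hd0 (bc s x) ω) (hubAt B hd0 (bc s x') ω) _
    rw [he, he']
    rw [hBκ, hBq, hBk, hBm] at hS hS'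
    rw [hBK] at ht ht'
    have hg : 9 / 10 ≤ uP κ q j k (shC (bc s x) ω) := by
      have h2 := h.1
      rw [hBκ, hBq, hBj, hBk] at h2
      exact h2
    have e1 : bc s x' + e0 hd0 t' = bc s x + (bc s x' - bc s x + e0 hd0 t') := by
      rw [← add_assoc, add_sub_cancel]
    rw [e1] at hS' ⊢
    have hkj' : ((2 : ℤ)) ^ (k - j) = 2 * s := by exact_mod_cast hkj.symm
    have hKm' : (K : ℤ) + m ≤ s := by exact_mod_cast hKm
    have hs' : (1 : ℤ) ≤ s := by exact_mod_cast hs1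
    have ht1 : (t : ℤ) ≤ K := by exact_mod_cast ht
    have ht2 : (t' : ℤ) ≤ K := by exact_mod_cast ht'
    have hJ := hub_join κ q j k m (bc s x) (e0 hd0 t) (bc s x' - bc s x + e0 hd0 t') ω hg
      (fun i => by
        have h2 := BlocksThm_e0 (hd := hd0) t i
        rw [hkj']
        linarith)
      (fun i => by
        have h2 := BlocksThm_e0 (hd := hd0) t' i
        have h3 := BlocksThm_bc (s := s) hadj i
        rw [hkj', Pi.add_apply, Pi.sub_apply]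
        have h4 := abs_add_le (bc s x' i - bc s x i) (e0 hd0 t' i)
        linarith)
      hS hS'
    obtain ⟨w, hw⟩ := hJ
    refine ⟨w, hw.trans ?_⟩
    have h2 : 2 ^ k + 2 * ((2 * m + 1) ^ d + 1) ≤ 2 * 2 ^ k + 2 * ((2 * m + 1) ^ d + 1) + K := by
      omega
    exact_mod_cast h2
  · intro A
    have h2 := range_bound (d := d) p s (2 * 2 ^ k) W hs1 hcard
      (fun x => {ω | ¬ GoodAt B hd0 (bc s x) ω}) (by
        intro x ω ω' h
        exact not_congr (BlocksThm_good hr1 hr2 h).1) hρ'0.le hρ'1 (fun x => hbad _) A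
    exact h2.trans (pow_le_pow_left₀ hρ'0.le hρ'ρ _)
  · intro v x ω
    rw [BlocksThm_bc_add]
    exact (BlocksThm_shift B hd0 _ _ ω).1
  · intro v x ω
    change hubAt B hd0 (bc s (x + v)) ω = hubAt B hd0 (bc s x) (shC ((s : ℤ) • v) ω) + (s : ℤ) • v
    rw [BlocksThm_bc_add]
    exact (BlocksThm_shift B hd0 _ _ ω).2

end Pool.Agent.H66.RS
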