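import Pool.Agent.H66.RS.ExtFacts

/-!
# RS module Dist: local size and exit of the hulls

`dr_spec`: `r` belongs to the set in the definition of `Dr` if `Qs F x r` (and `1 ≤ r`).
`hull_small`: if `x` is not exterior to `clF F b`, `b ∈ F` near, `n = ncard`: all points of the cluster are
within `5 n` of `x` (`near_of_not_ext`), so if `n ≥ 2` then `Qs F x (n-1)` fails (`5 n ≤ 40 (n - 1)`); since
`n ≤ r` (`Qs F x r`) this forces `n - 1 < Dr`, i.e. `n ≤ Dr`.
`exit_straight`: if `x` itself is not `ExtR`, among the clusters of `b ∈ F`, `|b - x| ≤ 40 r`, to which `x` is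
not exterior choose one, `C`, whose hull (the set of points which are not exterior) has maximal
`ncard` (hulls are finite: contained in a cube); `ncard C ≤ Dr`. The points `x + t e_0` with
`t > 5 Dr` are exterior to `C` (`near_of_not_ext` with `c ∈ C`: `|x 0 + t - c 0| ≤ 5 n` and `|x 0 - c 0| ≤ 5 n`
would give `t ≤ 10 n`), so let `t` be minimal with `x + t e_0` exterior to `C`, `1 ≤ t ≤ 10 Dr + 1`. The previous
point is in `fat C` (`outer_closed`). If `x + t e_0` is not exterior to some `clF F b'`, `|b' - x| ≤ 40 r`, then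
`ext_nested` shows that `x` is not exterior to `clF F b'` and that its hull is strictly larger:
contradiction. Compare `exitW` (H47/GM/ExitW) and `exit` (H41/QC/Exit).
-/

open MeasureTheory Filter Topology
open Pool.Agent.H17.IIC Pool.Agent.H41.QC Pool.Agent.H47.GM

namespace Pool.Agent.H66.RS

variable {d : ℕ}

lemma dr_spec {F : Set (V d)} {x : V d} {r : ℕ} (hr : 1 ≤ r) (h : Qs F x r) :
    1 ≤ Dr F r x ∧ Dr F r x ≤ r ∧ ∀ t, Dr F r x ≤ t → t ≤ r → Qs F x t := by
  have hmem : r ∈ {t | 1 ≤ t ∧ ∀ t', t ≤ t' → t' ≤ r → Qs F x t'} := by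
    refine ⟨hr, fun t' h1 h2 => ?_⟩
    obtain rfl : r = t' := le_antisymm h1 h2
    exact h
  have h1 : Dr F r x ∈ {t | 1 ≤ t ∧ ∀ t', t ≤ t' → t' ≤ r → Qs F x t'} := Nat.sInf_mem ⟨r, hmem⟩
  exact ⟨h1.1, Nat.sInf_le hmem, h1.2⟩

lemma hull_small (hd : 2 ≤ d) {F : Set (V d)} {x : V d} {r : ℕ} (hr : 1 ≤ r) (h : Qs F x r)
    {b : V d} (hb : b ∈ F) (hbx : ∀ i, |b i - x i| ≤ 40 * r)
    (hx : ¬ ExtC (by omega) (clF F b) x) : (clF F b).ncard ≤ Dr F r x := by
  obtain ⟨hfin, hcard⟩ := h b hb hbx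
  obtain ⟨hD1, hDr, hDq⟩ := dr_spec hr h
  by_contra hcon
  push Not at hcon
  have h1 := near_of_not_ext hd hfin hx (clF_self F b)
  have h2 := hDq ((clF F b).ncard - 1) (by omega) (by omega) b hb (fun i => by
    have h3 := h1 i
    rw [abs_sub_comm] at h3
    refine h3.trans ?_
    have h4 : 2 ≤ (clF F b).ncard := by omega
    push_cast [Nat.cast_sub (by omega : 1 ≤ (clF F b).ncard)]
    have h5 : (2 : ℤ) ≤ ((clF F b).ncard : ℤ) := by exact_mod_cast h4
    linarith)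
  have h3 := h2.2
  omega

lemma Dist_e0_apply (hd : 0 < d) (t : ℕ) : e0 hd t ⟨0, hd⟩ = t := by
  simp [e0]

lemma Dist_adj (hd : 0 < d) (x : V d) {t : ℕ} (ht : 1 ≤ t) :
    LatAdj (x + e0 hd (t - 1)) (x + e0 hd t) := by
  refine ⟨(⟨0, hd⟩, true), ?_⟩
  have : e0 hd t = e0 hd (t - 1) + stepVec ((⟨0, hd⟩ : Fin d), true) := by
    unfold e0 stepVec
    rw [← Pi.single_add]
    congr 1
    push_cast [Nat.cast_sub ht]
    simp
  rw [this, add_assoc]

lemma Dist_hull_fin (hd : 2 ≤ d) {F : Set (V d)} {b : V d} (hfin : (clF F b).Finite) :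
    ({y | ¬ ExtC (by omega) (clF F b) y} : Set (V d)).Finite := by
  refine (Finset.finite_toSet (Fintype.piFinset fun i =>
    Finset.Icc (b i - 5 * ((clF F b).ncard : ℤ)) (b i + 5 * ((clF F b).ncard : ℤ)))).subset ?_
  intro y hy
  rw [Finset.mem_coe, Fintype.mem_piFinset]
  intro i
  have h1 := near_of_not_ext hd hfin hy (clF_self F b) i
  rw [abs_le] at h1
  rw [Finset.mem_Icc]
  constructor <;> linarith [h1.1, h1.2]

theorem exit_straight (hd : 2 ≤ d) {F : Set (V d)} {x : V d} {r : ℕ} (hr : 1 ≤ r)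
    (h : Qs F x r) : ∃ t, t ≤ 10 * Dr F r x + 1 ∧
      ExtR (by omega) F x r (x + e0 (by omega) t) := by
  classical
  have hd0 : 0 < d := by omega
  by_cases hall : ExtR hd0 F x r x
  · refine ⟨0, by omega, ?_⟩
    have : x + e0 hd0 0 = x := by
      simp [e0]
    rw [this]
    exact hall
  unfold ExtR at hall
  push Not at hall
  obtain ⟨b0, hb0, hb0x, hxb0⟩ := hall
  set cube : Finset (V d) := Fintype.piFinset fun i => Finset.Icc (x i - 40 * r) (x i + 40 * r)
    with hcube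
  set T : Finset (V d) := cube.filter (fun b => b ∈ F ∧ ¬ ExtC hd0 (clF F b) x) with hT
  have hmemT : ∀ b, b ∈ T ↔ (∀ i, |b i - x i| ≤ 40 * r) ∧ b ∈ F ∧ ¬ ExtC hd0 (clF F b) x := by
    intro b
    rw [hT, Finset.mem_filter, hcube, Fintype.mem_piFinset]
    simp only [Finset.mem_Icc, abs_le]
    constructor
    · rintro ⟨h1, h2⟩
      exact ⟨fun i => ⟨by linarith [(h1 i).1], by linarith [(h1 i).2]⟩, h2⟩
    · rintro ⟨h1, h2⟩
      exact ⟨fun i => ⟨by linarith [(h1 i).1], by linarith [(h1 i).2]⟩, h2⟩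
  obtain ⟨b, hbT, hmax⟩ := Finset.exists_max_image T
    (fun b => ({y | ¬ ExtC hd0 (clF F b) y} : Set (V d)).ncard)
    ⟨b0, (hmemT b0).2 ⟨hb0x, hb0, hxb0⟩⟩
  obtain ⟨hbx, hb, hxb⟩ := (hmemT b).1 hbT
  obtain ⟨hfin, hcard⟩ := h b hb hbx
  have hnD : (clF F b).ncard ≤ Dr F r x := hull_small hd hr h hb hbx hxb
  have hex : ∃ t, ExtC hd0 (clF F b) (x + e0 hd0 t) := by
    refine ⟨10 * (clF F b).ncard + 1, ?_⟩
    by_contra hcon
    have h1 := near_of_not_ext hd hfin hcon (clF_self F b) ⟨0, hd0⟩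
    have h2 := near_of_not_ext hd hfin hxb (clF_self F b) ⟨0, hd0⟩
    rw [Pi.add_apply, Dist_e0_apply] at h1
    rw [abs_le] at h1 h2
    push_cast at h1
    linarith [h1.2, h2.1]
  have hle : Nat.find hex ≤ 10 * (clF F b).ncard + 1 := by
    refine Nat.find_min' hex ?_
    by_contra hcon
    have h1 := near_of_not_ext hd hfin hcon (clF_self F b) ⟨0, hd0⟩
    have h2 := near_of_not_ext hd hfin hxb (clF_self F b) ⟨0, hd0⟩
    rw [Pi.add_apply, Dist_e0_apply] at h1
    rw [abs_le] at h1 h2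
    push_cast at h1
    linarith [h1.2, h2.1]
  set t0 := Nat.find hex with ht0
  have ht0s : ExtC hd0 (clF F b) (x + e0 hd0 t0) := Nat.find_spec hex
  have ht01 : 1 ≤ t0 := by
    rcases Nat.eq_zero_or_pos t0 with h0 | h0
    · exfalso
      apply hxb
      rw [h0] at ht0s
      have : x + e0 hd0 0 = x := by simp [e0]
      rwa [this] at ht0s
    · exact h0
  have hmin : ¬ ExtC hd0 (clF F b) (x + e0 hd0 (t0 - 1)) := Nat.find_min hex (by omega)
  have hadj := Dist_adj hd0 x ht01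
  have huf : x + e0 hd0 (t0 - 1) ∈ fat (clF F b) := by
    by_contra hcon
    apply hmin
    obtain ⟨z, hz, hz2⟩ := ht0s
    exact ⟨z, hz, outer_closed _ _ _ hz2 _ (SimpleGraph.Adj.symm (G := Lat d) hadj) hcon⟩
  refine ⟨t0, by omega, ?_⟩
  intro b' hb' hb'x
  by_contra hx'
  obtain ⟨hfin', hcard'⟩ := h b' hb' hb'x
  have hne : clF F b ≠ clF F b' := by
    intro heq
    apply hx'
    rw [← heq]
    exact ht0s
  have hnest : ∀ y, ExtC hd0 (clF F b') y → ExtC hd0 (clF F b) y := fun y hy =>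
    ext_nested hd hb hb' hfin hfin' hne huf hadj hx' hy
  have hxb' : ¬ ExtC hd0 (clF F b') x := fun h1 => hxb (hnest x h1)
  have hle2 := hmax b' ((hmemT b').2 ⟨hb'x, hb', hxb'⟩)
  have hss : ({y | ¬ ExtC hd0 (clF F b) y} : Set (V d)) ⊂ {y | ¬ ExtC hd0 (clF F b') y} := by
    refine ⟨fun y hy h1 => hy (hnest y h1), ?_⟩
    intro h1
    exact h1 hx' ht0s
  have hlt := Set.ncard_lt_ncard hss (Dist_hull_fin hd hfin')
  exact absurd hlt (not_lt.2 hle2)

/-- the exit time is small and the exit point is exterior -/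
theorem tr_spec (hd : 2 ≤ d) {F : Set (V d)} {x : V d} {r : ℕ} (hr : 1 ≤ r) (h : Qs F x r) :
    tr (by omega) F r x ≤ 10 * Dr F r x + 1 ∧ ExtR (by omega) F x r (yr (by omega) F r x) := by
  obtain ⟨t, ht, hE⟩ := exit_straight hd hr h
  have hmem : t ∈ {t | ExtR (by omega) F x r (x + e0 (by omega) t)} := hE
  refine ⟨(Nat.sInf_le hmem).trans ht, ?_⟩
  have h1 : tr (by omega) F r x ∈ {t | ExtR (by omega) F x r (x + e0 (by omega) t)} :=
    Nat.sInf_mem ⟨t, hmem⟩
  exact h1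

end Pool.Agent.H66.RS
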