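import Pool.Agent.H47.GM.Basic
import Pool.Agent.H66.RS.Defs

/-!
# RS module Equiv: translation of the deterministic objects

For `F' = {x | x + v ∈ F}`: `clF F' b = {y | y + v ∈ clF F (b + v)}` (graph isomorphism `BG`), `outer`, `fat`, `ExtC`,
`ExtR`, `Qs`, `Dr`, `tr`, `yr` are translated.
-/

open MeasureTheory Filter Topology
open Pool.Agent.H17.IIC Pool.Agent.H41.QC Pool.Agent.H47.GM

namespace Pool.Agent.H66.RS

variable {d : ℕ}

/-- translation as a homomorphism of the graphs of bad vertices -/
def Equiv_bg (F F' : Set (V d)) (v : V d) (h : ∀ x, x ∈ F' → x + v ∈ F) :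
    BG .site (ofSet F') →g BG .site (ofSet F) where
  toFun x := x + v
  map_rel' := by
    intro a b hab
    obtain ⟨h1, h2, h3, h4⟩ := hab
    refine ⟨fun hh => h1 (add_right_cancel hh), ?_, ?_, ?_⟩
    · intro i
      have := h2 i
      simpa using this
    · exact (bad_ofSet F _).2 (h a ((bad_ofSet F' a).1 h3))
    · exact (bad_ofSet F _).2 (h b ((bad_ofSet F' b).1 h4))

/-- translation as a homomorphism of the lattice -/
def Equiv_lat (v : V d) : Lat d →g Lat d where
  toFun x := x + v
  map_rel' := by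
    intro a b hab
    obtain ⟨s, hs⟩ := hab
    exact ⟨s, by rw [hs]; abel⟩

lemma clF_trans (F : Set (V d)) (v b y : V d) :
    y ∈ clF {x | x + v ∈ F} b ↔ y + v ∈ clF F (b + v) := by
  constructor
  · intro h
    exact SimpleGraph.Reachable.map (Equiv_bg F {x | x + v ∈ F} v (fun x hx => hx)) h
  · intro h
    have h2 := SimpleGraph.Reachable.map (Equiv_bg {x | x + v ∈ F} F (-v)
      (fun x hx => by simpa using hx)) h
    have e1 : (Equiv_bg {x | x + v ∈ F} F (-v) (fun x hx => by simpa using hx)) (b + v) = b := by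
      show b + v + -v = b
      abel
    have e2 : (Equiv_bg {x | x + v ∈ F} F (-v) (fun x hx => by simpa using hx)) (y + v) = y := by
      show y + v + -v = y
      abel
    rw [e1, e2] at h2
    exact h2

lemma Equiv_clF_image (F : Set (V d)) (v b : V d) :
    clF F (b + v) = (fun y : V d => y + v) '' clF {x | x + v ∈ F} b := by
  ext y
  constructor
  · intro h
    refine ⟨y - v, ?_, by simp⟩
    rw [clF_trans]
    simpa using h
  · rintro ⟨z, hz, rfl⟩
    exact (clF_trans F v b z).1 hz

lemma Equiv_inj (v : V d) : Function.Injective (fun y : V d => y + v) :=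
  fun _ _ h => add_right_cancel h

theorem qs_trans (F : Set (V d)) (v x : V d) (t : ℕ) :
    Qs {x | x + v ∈ F} x t ↔ Qs F (x + v) t := by
  constructor
  · intro h b hb hbx
    have h1 := h (b - v) (by simpa using hb) (by
      intro i
      have := hbx i
      simp only [Pi.add_apply, Pi.sub_apply] at this ⊢
      have e : b i - v i - x i = b i - (x i + v i) := by ring
      rw [e]; exact this)
    have e := Equiv_clF_image F v (b - v)
    rw [sub_add_cancel] at e
    rw [e, Set.ncard_image_of_injective _ (Equiv_inj v)]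
    exact ⟨h1.1.image _, h1.2⟩
  · intro h b hb hbx
    have h1 := h (b + v) hb (by
      intro i
      have := hbx i
      simp only [Pi.add_apply] at this ⊢
      have e : b i + v i - (x i + v i) = b i - x i := by ring
      rw [e]; exact this)
    rw [Equiv_clF_image F v b, Set.ncard_image_of_injective _ (Equiv_inj v)] at h1
    exact ⟨Set.Finite.of_finite_image h1.1 (Equiv_inj v).injOn, h1.2⟩

theorem dr_trans (F : Set (V d)) (v x : V d) (r : ℕ) :
    Dr {x | x + v ∈ F} r x = Dr F r (x + v) := by
  unfold Dr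
  congr 1
  ext t
  simp only [Set.mem_ofPred_eq]
  constructor
  · rintro ⟨h1, h2⟩
    exact ⟨h1, fun t' h3 h4 => (qs_trans F v x t').1 (h2 t' h3 h4)⟩
  · rintro ⟨h1, h2⟩
    exact ⟨h1, fun t' h3 h4 => (qs_trans F v x t').2 (h2 t' h3 h4)⟩

lemma Equiv_fat (C : Set (V d)) (v y : V d) :
    y ∈ fat {x | x + v ∈ C} ↔ y + v ∈ fat C := by
  constructor
  · rintro ⟨c, hc, hcl⟩
    exact ⟨c + v, hc, fun i => by simpa using hcl i⟩
  · rintro ⟨c, hc, hcl⟩
    refine ⟨c - v, by simpa using hc, fun i => ?_⟩
    have := hcl i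
    simp only [Pi.add_apply, Pi.sub_apply] at this ⊢
    have e : y i - (c i - v i) = y i + v i - c i := by ring
    rw [e]; exact this

lemma Equiv_outer_aux {A A' : Set (V d)} {v z y : V d} (h : ∀ u, u + v ∈ A' → u ∈ A)
    (hy : y ∈ outer A z) : y + v ∈ outer A' (z + v) := by
  obtain ⟨w, hw⟩ := hy
  have hs := SimpleGraph.Walk.support_map (Equiv_lat v) w
  have hA : ∀ u ∈ (w.map (Equiv_lat v)).support, u ∉ A' := by
    intro u hu hA
    rw [hs, List.mem_map] at hu
    obtain ⟨u', hu', rfl⟩ := hu
    exact hw u' hu' (h u' hA)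
  exact ⟨w.map (Equiv_lat v), hA⟩

lemma Equiv_outer (C : Set (V d)) (v z y : V d) :
    y ∈ outer (fat {x | x + v ∈ C}) z ↔ y + v ∈ outer (fat C) (z + v) := by
  constructor
  · intro h
    exact Equiv_outer_aux (fun u hu => (Equiv_fat C v u).2 hu) h
  · intro h
    have h2 := Equiv_outer_aux (A' := fat {x | x + v ∈ C}) (v := -v) (fun u hu => by
      rw [Equiv_fat] at hu
      simpa using hu) h
    have e1 : y + v + -v = y := by abel
    have e2 : z + v + -v = z := by abel
    rw [e1, e2] at h2
    exact h2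

lemma Equiv_extC (hd : 0 < d) (C : Set (V d)) (v y : V d) :
    ExtC hd {x | x + v ∈ C} y ↔ ExtC hd C (y + v) := by
  constructor
  · rintro ⟨z, hz, hy⟩
    refine ⟨z + v, fun c hc => ?_, (Equiv_outer C v z y).1 hy⟩
    have := hz (c - v) (by simpa using hc)
    simp only [Pi.add_apply, Pi.sub_apply] at this ⊢
    linarith
  · rintro ⟨z, hz, hy⟩
    refine ⟨z - v, fun c hc => ?_, (Equiv_outer C v (z - v) y).2 (by simpa using hy)⟩
    have := hz (c + v) hc
    simp only [Pi.add_apply, Pi.sub_apply] at this ⊢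
    linarith

lemma Equiv_clF_set (F : Set (V d)) (v b : V d) :
    clF {x | x + v ∈ F} b = {x | x + v ∈ clF F (b + v)} := by
  ext y
  exact clF_trans F v b y

lemma Equiv_extR (hd : 0 < d) (F : Set (V d)) (v x y : V d) (r : ℕ) :
    ExtR hd {x | x + v ∈ F} x r y ↔ ExtR hd F (x + v) r (y + v) := by
  constructor
  · intro h b hb hbx
    have h1 := h (b - v) (by simpa using hb) (by
      intro i
      have := hbx i
      simp only [Pi.add_apply, Pi.sub_apply] at this ⊢
      have e : b i - v i - x i = b i - (x i + v i) := by ring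
      rw [e]; exact this)
    rw [Equiv_clF_set, Equiv_extC, sub_add_cancel] at h1
    exact h1
  · intro h b hb hbx
    have h1 := h (b + v) hb (by
      intro i
      have := hbx i
      simp only [Pi.add_apply] at this ⊢
      have e : b i + v i - (x i + v i) = b i - x i := by ring
      rw [e]; exact this)
    rw [Equiv_clF_set, Equiv_extC]
    exact h1

lemma Equiv_tr (hd : 0 < d) (F : Set (V d)) (v x : V d) (r : ℕ) :
    tr hd {x | x + v ∈ F} r x = tr hd F r (x + v) := by
  unfold tr
  congr 1
  ext t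
  simp only [Set.mem_ofPred_eq]
  rw [Equiv_extR]
  have e : x + e0 hd t + v = x + v + e0 hd t := by abel
  rw [e]

theorem yr_trans (hd : 0 < d) (F : Set (V d)) (v x : V d) (r : ℕ) :
    yr hd F r (x + v) = yr hd {x | x + v ∈ F} r x + v := by
  unfold yr
  rw [Equiv_tr]
  abel

end Pool.Agent.H66.RS
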