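import Pool.Agent.H41.QC.Exit
import Pool.Agent.H47.GM.Basic
import Pool.Agent.H66.RS.Defs

/-!
# RS module ExtFacts: exterior points of finite sets

For `d ≥ 2` the complement of a cube is connected (`cube_compl`, H41/QC/CubeCompl). If `C` is finite then all
`z` with `z 0 > c 0 + 2` for all `c ∈ C` are in the same component of the complement of `fat C`; hence
`ExtC C y` iff `y ∈ outer (fat C) z` for one (all) such `z`. A point `y` with `|y i - c i| > 2 + 5 (n - 1)` for
one `i`, all `c` ... is outside the bounding box of `fat C`, so exterior. `clF_diff`: points of a cluster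
with `n` elements are within `5 (n - 1)` of each other (`Exit_clus_diff`).
`ext_notMem`: an exterior point is not in `fat C`, so if it is exterior to the clusters of all
`b ∈ F` near it, it is not in `F`.
-/

open MeasureTheory Filter Topology
open Pool.Agent.H17.IIC Pool.Agent.H41.QC Pool.Agent.H47.GM

namespace Pool.Agent.H66.RS

variable {d : ℕ}

lemma clF_self (F : Set (V d)) (b : V d) : b ∈ clF F b :=
  Exit_self_mem .site (ofSet F) b

lemma clF_eq {F : Set (V d)} {b c : V d} (h : c ∈ clF F b) : clF F c = clF F b :=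
  bad_clus_eq h

lemma clF_sub {F : Set (V d)} {b c : V d} (hb : b ∈ F) (h : c ∈ clF F b) : c ∈ F :=
  (bad_ofSet F c).1 (bad_clus_bad ((bad_ofSet F b).2 hb) h)

lemma clF_diff {F : Set (V d)} {b c : V d} (hfin : (clF F b).Finite) (hc : c ∈ clF F b)
    (i : Fin d) : |b i - c i| ≤ 5 * ((clF F b).ncard : ℤ) - 5 :=
  Exit_clus_diff .site (ofSet F) hfin hc i

/-- two reference points in the half space beyond `C` are joined outside `fat C` -/
lemma ExtFacts_half {C : Set (V d)} {i : Fin d} {z z' : V d} (hz : ∀ c ∈ C, c i + 2 < z i)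
    (hz' : ∀ c ∈ C, c i + 2 < z' i) :
    ∃ w : (Lat d).Walk z z', ∀ u ∈ w.support, u ∉ fat C := by
  obtain ⟨w, -, hw⟩ := exists_walk z z'
  refine ⟨w, ?_⟩
  rintro u hu ⟨c, hc, hcl⟩
  have h1 := (hw u hu i).1
  have h2 := hz c hc
  have h3 := hz' c hc
  have h4 : |u i - c i| ≤ 2 := by exact_mod_cast hcl i
  rw [abs_le] at h4
  have h5 : c i + 2 < min (z i) (z' i) := lt_min h2 h3
  linarith [h4.2]

/-- all admissible reference points are equivalent -/
lemma extC_iff (hd : 2 ≤ d) {C : Set (V d)} (hC : C.Finite) {z y : V d}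
    (hz : ∀ c ∈ C, c ⟨0, by omega⟩ + 2 < z ⟨0, by omega⟩) :
    ExtC (by omega) C y ↔ y ∈ outer (fat C) z := by
  have _ := hC
  constructor
  · rintro ⟨z', hz', w, hw⟩
    obtain ⟨w2, hw2⟩ := ExtFacts_half hz' hz
    refine ⟨w.append w2, fun u hu => ?_⟩
    rw [SimpleGraph.Walk.mem_support_append_iff] at hu
    rcases hu with hu | hu
    · exact hw u hu
    · exact hw2 u hu
  · intro h
    exact ⟨z, hz, h⟩

/-- a point which is not exterior is near all points of the cluster -/
lemma near_of_not_ext (hd : 2 ≤ d) {F : Set (V d)} {b y : V d} (hfin : (clF F b).Finite)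
    (h : ¬ ExtC (by omega) (clF F b) y) {c : V d} (hc : c ∈ clF F b) (i : Fin d) :
    |y i - c i| ≤ 5 * ((clF F b).ncard : ℤ) := by
  by_contra hcon
  apply h
  have hcb : clF F c = clF F b := clF_eq hc
  have hdiff : ∀ c' ∈ clF F b, ∀ j, |c j - c' j| ≤ 5 * ((clF F b).ncard : ℤ) - 5 := by
    intro c' hc' j
    have h1 := clF_diff (F := F) (b := c) (c := c') (by rw [hcb]; exact hfin)
      (by rw [hcb]; exact hc') j
    rwa [hcb] at h1
  set n : ℤ := ((clF F b).ncard : ℤ) with hn
  have hn1 : 1 ≤ n := by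
    have h1 : 0 < (clF F b).ncard := (Set.ncard_pos hfin).2 ⟨b, clF_self F b⟩
    rw [hn]; exact_mod_cast h1
  set z : V d := fun j => c j + 5 * n with hz
  obtain ⟨w, hw⟩ := cube_compl hd (fun j => c j - 5 * n + 3) (fun j => c j + 5 * n - 3)
    (x := y) (y := z) (by
      refine ⟨i, ?_⟩
      by_contra h2
      push Not at h2
      apply hcon
      rw [abs_le]
      constructor <;> linarith [h2.1, h2.2]) ⟨⟨0, by omega⟩, Or.inr (by
        show c _ + 5 * n - 3 < c _ + 5 * n
        linarith)⟩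
  refine ⟨z, ?_, w, ?_⟩
  · intro c' hc'
    have h1 := hdiff c' hc' ⟨0, by omega⟩
    rw [abs_le] at h1
    show c' _ + 2 < c _ + 5 * n
    linarith [h1.1]
  · rintro u hu ⟨c', hc', hcl⟩
    obtain ⟨j, hj⟩ := hw u hu
    have h1 := hdiff c' hc' j
    have h2 : |u j - c' j| ≤ 2 := by exact_mod_cast hcl j
    rw [abs_le] at h1 h2
    rcases hj with hj | hj
    · linarith [h1.1, h1.2, h2.1, h2.2]
    · linarith [h1.1, h1.2, h2.1, h2.2]

lemma ext_notMem {hd : 0 < d} {C : Set (V d)} {y : V d} (h : ExtC hd C y) : y ∉ fat C := by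
  obtain ⟨z, -, hz⟩ := h
  exact Detour_outer_notMem hz

lemma ext_good {hd : 0 < d} {F : Set (V d)} {x y : V d} {r : ℕ} (h : ExtR hd F x r y)
    (hy : ∀ i, |y i - x i| ≤ 40 * r) : y ∉ F := fun hyF =>
  ext_notMem (h y hyF hy) (Detour_mem_fat_self .site (ofSet F) y)

/-- hulls of different clusters are nested or far apart, `Exit_nested` in the form needed: if `y`
is not exterior to `clF F b'`, but a lattice neighbour `u` of `y` belongs to `fat (clF F b)`, `b`, `b'` bad with
different clusters, then everything exterior to `clF F b'` is exterior to `clF F b` -/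
lemma ext_nested (hd : 2 ≤ d) {F : Set (V d)} {b b' u y : V d} (hb : b ∈ F) (hb' : b' ∈ F)
    (hfin : (clF F b).Finite) (hfin' : (clF F b').Finite) (hne : clF F b ≠ clF F b')
    (hu : u ∈ fat (clF F b)) (huy : LatAdj u y) (hy : ¬ ExtC (by omega) (clF F b') y) {x : V d}
    (hx : ExtC (by omega) (clF F b') x) : ExtC (by omega) (clF F b) x := by
  obtain ⟨M, hM⟩ : ∃ M : ℤ, ∀ c ∈ clF F b ∪ clF F b', c ⟨0, by omega⟩ + 2 < M := by
    obtain ⟨M, hM⟩ := ((hfin.union hfin').image (fun c : V d => c ⟨0, by omega⟩)).bddAbove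
    refine ⟨M + 3, fun c hc => ?_⟩
    have := hM ⟨c, hc, rfl⟩
    simp only at this
    omega
  have hz : ∀ c ∈ clF F b, c ⟨0, by omega⟩ + 2 < (fun _ => M : V d) ⟨0, by omega⟩ :=
    fun c hc => hM c (Or.inl hc)
  have hz' : ∀ c ∈ clF F b', c ⟨0, by omega⟩ + 2 < (fun _ => M : V d) ⟨0, by omega⟩ :=
    fun c hc => hM c (Or.inr hc)
  have hcl : Cl 1 y u := bd_Cl_symm (bd_adj_cl huy)
  have hy' : y ∉ outer (fat (clF F b')) (fun _ => M) := fun h => hy ((extC_iff hd hfin' hz').2 h)
  have hn := Exit_nested .site (ofSet F) ((bad_ofSet F b).2 hb) ((bad_ofSet F b').2 hb') hne hu huy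
    hcl hy'
  exact (extC_iff hd hfin hz).2 (hn ((extC_iff hd hfin' hz').1 hx))

end Pool.Agent.H66.RS
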