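import Pool.Agent.H66.RS.Dist

/-!
# RS module Link: exit points of neighbouring regular blocks are joined through good blocks

First a version of `around` and `Detour_main` (H41/QC/Detour) with location: the open walk stays in the
support of `ℓ` or within `Cl 3` of the clusters hit by `ℓ`.
Write `D = Dr F r x`, `D' = Dr F r' x'`. Walk `ℓ` from `yr F r x` back along the ray to `x`, then to `x'`, then along the
ray to `yr F r' x'` (`exists_walk`, H41/QC/CubeCompl, `append`): length at most `(10 D + 1) + 1 + (10 D' + 1)`, the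
vertices of the first part are within `10 D + 1` of `x`, those of the last part within `10 D' + 1` of
`x'`. A bad cluster whose fattening meets a vertex of the first part has a point within
`10 D + 3 ≤ 40 D` of `x`, so at most `D` elements (`Qs F x D`, `dr_spec`); similarly for the last part. Every vertex
of `ℓ` is in the fattening of at most one cluster (`clus_far`), so `hitset .site (ofSet F) ℓ.support` is finite with
at most `(10 D + 10 D' + 4) * max D D'` elements. Detour with a reference point `z` far in direction `e_0`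
(beyond all elements of the hitset): `yr F r x`, `yr F r' x'` are exterior to these clusters (`tr_spec`; the
clusters near `x'` have a point within `10 D' + 4 ≤ 10 (2 r + 1) + 4 ≤ 40 r` of `x` and conversely),
`extC_iff`.
-/

open MeasureTheory Filter Topology
open Pool.Agent.H17.IIC Pool.Agent.H41.QC Pool.Agent.H47.GM

namespace Pool.Agent.H66.RS

variable {d : ℕ}

/-- a lattice walk through good vertices is open, with the same vertices -/
lemma Link_good (κ : Kind) (ω : El d → Bool) {x y : V d} (w : (Lat d).Walk x y)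
    (h : ∀ z ∈ w.support, ¬ Bad κ ω z) :
    ∃ w' : (Gr κ ω).Walk x y, w'.length = w.length ∧ w'.support = w.support := by
  induction w with
  | nil => exact ⟨SimpleGraph.Walk.nil, by simp⟩
  | cons hh p ih =>
    rename_i a b c'
    have ha := h a (by rw [SimpleGraph.Walk.support_cons]; exact List.mem_cons_self)
    have hb := h b (by
      rw [SimpleGraph.Walk.support_cons]
      exact List.mem_cons_of_mem _ (SimpleGraph.Walk.start_mem_support p))
    obtain ⟨w', hw', hs⟩ := ih (fun z hz => h z (by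
      rw [SimpleGraph.Walk.support_cons]; exact List.mem_cons_of_mem _ hz))
    refine ⟨SimpleGraph.Walk.cons (bad_gr_adj κ ω hh ha hb) w', ?_, ?_⟩
    · rw [SimpleGraph.Walk.length_cons, SimpleGraph.Walk.length_cons, hw']
    · rw [SimpleGraph.Walk.support_cons, SimpleGraph.Walk.support_cons, hs]

/-- `around` with location -/
theorem Link_around (κ : Kind) (ω : El d → Bool) {b z : V d} (hb : Bad κ ω b)
    (hfin : (clus κ ω b).Finite) {u v u' v' : V d}
    (hu : u ∈ fat (clus κ ω b)) (hv : v ∈ outer (fat (clus κ ω b)) z) (huv : LatAdj u v)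
    (hu' : u' ∈ fat (clus κ ω b)) (hv' : v' ∈ outer (fat (clus κ ω b)) z) (huv' : LatAdj u' v') :
    ∃ w : (Gr κ ω).Walk v v', w.length ≤ 7 ^ d * (clus κ ω b).ncard ∧
      ∀ t ∈ w.support, ∃ c ∈ clus κ ω b, Cl 3 t c := by
  classical
  set C := clus κ ω b with hC
  obtain ⟨w, hw⟩ := boundary_connected (fat C) (outer (fat C) z) (fat_clus_sconnected κ ω b)
    (outer_connected _ z) (Set.disjoint_left.mpr fun t ht ht' => bad_outer_not_mem ht' ht)
    (outer_closed _ z) hu hv huv hu' hv' huv'
  set p := w.bypass with hp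
  have hpp : p.IsPath := w.bypass_isPath
  have hsub : ∀ t ∈ p.support, t ∈ w.support := fun t ht => w.support_bypass_subset_support ht
  have hgood : ∀ t ∈ p.support, ¬ Bad κ ω t := by
    intro t ht
    obtain ⟨a, ha, o, ho, hao, hta⟩ := hw t (hsub t ht)
    exact good_near_boundary κ ω hb ha (bad_outer_not_mem ho) hao hta
  have hloc : ∀ t ∈ p.support, ∃ c ∈ C, Cl 3 t c := by
    intro t ht
    obtain ⟨a, ha, o, ho, hao, hta⟩ := hw t (hsub t ht)
    obtain ⟨c, hc, hac⟩ := ha
    exact ⟨c, hc, bd_Cl_trans hta hac⟩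
  obtain ⟨w', hw'l, hw's⟩ := Link_good κ ω p hgood
  refine ⟨w', ?_, fun t ht => hloc t (hw's ▸ ht)⟩
  rw [hw'l]
  set U : Finset (V d) := hfin.toFinset.biUnion
    (fun c => Fintype.piFinset (fun i => Finset.Icc (c i - 3) (c i + 3))) with hU
  have h1 : p.support.toFinset ⊆ U := by
    intro t ht
    rw [List.mem_toFinset] at ht
    obtain ⟨c, hc, htc⟩ := hloc t ht
    rw [hU, Finset.mem_biUnion]
    refine ⟨c, hfin.mem_toFinset.mpr hc, ?_⟩
    rw [Fintype.mem_piFinset]
    intro i
    have h2 := htc i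
    rw [abs_le] at h2
    rw [Finset.mem_Icc]
    push_cast at h2
    omega
  have h2 : U.card ≤ (clus κ ω b).ncard * 7 ^ d := by
    rw [hU]
    refine Finset.card_biUnion_le.trans ?_
    have h3 : ∀ c ∈ hfin.toFinset,
        (Fintype.piFinset (fun i => Finset.Icc (c i - 3) (c i + 3))).card = 7 ^ d := by
      intro c _
      rw [Fintype.card_piFinset]
      have h4 : ∀ i : Fin d, (Finset.Icc (c i - 3) (c i + 3)).card = 7 := by
        intro i
        rw [Int.card_Icc]
        have : c i + 3 + 1 - (c i - 3) = 7 := by ring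
        rw [this]; rfl
      rw [Finset.prod_congr rfl (fun i _ => h4 i), Finset.prod_const, Finset.card_univ,
        Fintype.card_fin]
    rw [Finset.sum_congr rfl h3, Finset.sum_const, smul_eq_mul,
      Set.ncard_eq_toFinset_card _ hfin]
  have h3 : p.length + 1 ≤ (clus κ ω b).ncard * 7 ^ d := by
    rw [← SimpleGraph.Walk.length_support, ← List.toFinset_card_of_nodup hpp.support_nodup]
    exact (Finset.card_le_card h1).trans h2
  rw [mul_comm] at h3
  change p.length ≤ 7 ^ d * (clus κ ω b).ncard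
  omega

/-- `Detour_main` with location -/
lemma Link_detour (κ : Kind) (ω : El d → Bool) (z : V d) (n : ℕ) : ∀ {x y : V d}
    (ℓ : (Lat d).Walk x y), ℓ.length ≤ n →
    (hitset κ ω {u | u ∈ ℓ.support}).Finite →
    (∀ b ∈ hitset κ ω {u | u ∈ ℓ.support}, x ∈ outer (fat (clus κ ω b)) z) →
    (∀ b ∈ hitset κ ω {u | u ∈ ℓ.support}, y ∈ outer (fat (clus κ ω b)) z) →
    ∃ w : (Gr κ ω).Walk x y,
      w.length ≤ ℓ.length + 7 ^ d * (hitset κ ω {u | u ∈ ℓ.support}).ncard ∧
      ∀ t ∈ w.support, t ∈ ℓ.support ∨ ∃ c ∈ hitset κ ω {u | u ∈ ℓ.support}, Cl 3 t c := by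
  induction n with
  | zero =>
    intro x y ℓ hℓ hfin hx hy
    cases ℓ with
    | nil =>
      refine ⟨SimpleGraph.Walk.nil, by simp, ?_⟩
      intro t ht
      left
      simpa using ht
    | cons h p => rw [SimpleGraph.Walk.length_cons] at hℓ; omega
  | succ n ih =>
    intro x y ℓ hℓ hfin hx hy
    cases ℓ with
    | nil =>
      refine ⟨SimpleGraph.Walk.nil, by simp, ?_⟩
      intro t ht
      left
      simpa using ht
    | @cons _ x1 _ h p =>
      have hsup : ∀ t ∈ p.support, t ∈ (SimpleGraph.Walk.cons h p).support := by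
        intro t ht
        rw [SimpleGraph.Walk.support_cons]
        exact List.mem_cons_of_mem _ ht
      have hxs : x ∈ (SimpleGraph.Walk.cons h p).support := SimpleGraph.Walk.start_mem_support _
      have hx1s : x1 ∈ (SimpleGraph.Walk.cons h p).support := hsup x1 p.start_mem_support
      have hpl : p.length ≤ n := by
        rw [SimpleGraph.Walk.length_cons] at hℓ; omega
      by_cases hcase : ∃ b, Bad κ ω b ∧ x1 ∈ fat (clus κ ω b)
      · obtain ⟨b, hb, hx1⟩ := hcase
        set H := hitset κ ω {u | u ∈ (SimpleGraph.Walk.cons h p).support} with hH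
        have hbH : b ∈ H := ⟨hb, x1, hx1s, hx1⟩
        have hCH : clus κ ω b ⊆ H := Detour_clus_subset κ ω hb hx1s hx1
        have hyF : y ∉ fat (clus κ ω b) := Detour_outer_notMem (hy b hbH)
        obtain ⟨u, v, huF, huv, q, hq1, hq2, hq3, hq4⟩ :=
          Detour_last_exit (fat (clus κ ω b)) p ⟨x1, p.start_mem_support, hx1⟩ hyF
        have hvO : v ∈ outer (fat (clus κ ω b)) z := Detour_outer_walk (hy b hbH) q hq1
        have hxO : x ∈ outer (fat (clus κ ω b)) z := hx b hbH
        have h1x : LatAdj x1 x := SimpleGraph.Adj.symm h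
        obtain ⟨w1, hw1l, hw1s⟩ := Link_around κ ω hb (hfin.subset hCH) hx1 hxO h1x huF hvO huv
        have hqs : ({t | t ∈ q.support} : Set (V d)) ⊆
            {u | u ∈ (SimpleGraph.Walk.cons h p).support} := fun t ht => hsup t (hq2 t ht)
        have hsub := Detour_hitset_mono κ ω hqs
        have hne : ∀ b' ∈ hitset κ ω {t | t ∈ q.support}, clus κ ω b ≠ clus κ ω b' := by
          rintro b' ⟨hb', t, ht, htf⟩ heq
          rw [← heq] at htf
          exact hq1 t ht htf
        have hx' : ∀ b' ∈ hitset κ ω {t | t ∈ q.support}, v ∈ outer (fat (clus κ ω b')) z := by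
          intro b' hb'
          obtain ⟨w, hw⟩ := boundary_connected (fat (clus κ ω b)) (outer (fat (clus κ ω b)) z)
            (fat_clus_sconnected κ ω b) (outer_connected _ z)
            (Set.disjoint_left.2 fun t ht ht' => Detour_outer_notMem ht' ht)
            (outer_closed _ z) hx1 hxO h1x huF hvO huv
          refine Detour_outer_walk' (hx b' (hsub hb')) w ?_
          intro t ht htf
          obtain ⟨a, ha, -, -, -, hcl⟩ := hw t ht
          exact clus_far κ ω hb'.1 hb (Ne.symm (hne b' hb')) htf ha hcl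
        obtain ⟨w2, hw2l, hw2s⟩ :=
          ih q (by omega) (hfin.subset hsub) hx' (fun b' hb' => hy b' (hsub hb'))
        have hdisj : Disjoint (clus κ ω b) (hitset κ ω {t | t ∈ q.support}) := by
          rw [Set.disjoint_left]
          intro t ht ht'
          exact hne t ht' (Detour_clus_eq κ ω ht).symm
        have hcard : (clus κ ω b).ncard + (hitset κ ω {t | t ∈ q.support}).ncard ≤ H.ncard := by
          rw [← Set.ncard_union_eq hdisj (hfin.subset hCH) (hfin.subset hsub)]
          exact Set.ncard_le_ncard (Set.union_subset hCH hsub) hfin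
        refine ⟨w1.append w2, ?_, ?_⟩
        · rw [SimpleGraph.Walk.length_append, SimpleGraph.Walk.length_cons]
          have h7 := Nat.mul_le_mul_left (7 ^ d) hcard
          rw [mul_add] at h7
          omega
        · intro t ht
          rw [SimpleGraph.Walk.mem_support_append_iff] at ht
          rcases ht with ht | ht
          · obtain ⟨c, hc, htc⟩ := hw1s t ht
            exact Or.inr ⟨c, hCH hc, htc⟩
          · rcases hw2s t ht with h' | ⟨c, hc, htc⟩
            · exact Or.inl (hqs h')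
            · exact Or.inr ⟨c, hsub hc, htc⟩
      · push Not at hcase
        have hgx1 : ¬ Bad κ ω x1 := fun hb => hcase x1 hb (Detour_mem_fat_self κ ω x1)
        have hgx : ¬ Bad κ ω x := fun hb =>
          Detour_outer_notMem (hx x ⟨hb, x, hxs, Detour_mem_fat_self κ ω x⟩)
            (Detour_mem_fat_self κ ω x)
        have hqs : ({t | t ∈ p.support} : Set (V d)) ⊆
            {u | u ∈ (SimpleGraph.Walk.cons h p).support} := fun t ht => hsup t ht
        have hsub := Detour_hitset_mono κ ω hqs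
        obtain ⟨w2, hw2l, hw2s⟩ := ih p hpl (hfin.subset hsub)
          (fun b hb => outer_closed _ z x (hx b (hsub hb)) x1 h (hcase b hb.1))
          (fun b hb => hy b (hsub hb))
        have hcard : (hitset κ ω {t | t ∈ p.support}).ncard ≤
            (hitset κ ω {u | u ∈ (SimpleGraph.Walk.cons h p).support}).ncard :=
          Set.ncard_le_ncard hsub hfin
        refine ⟨SimpleGraph.Walk.cons (bad_gr_adj κ ω h hgx hgx1) w2, ?_, ?_⟩
        · rw [SimpleGraph.Walk.length_cons, SimpleGraph.Walk.length_cons]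
          have h7 := Nat.mul_le_mul_left (7 ^ d) hcard
          omega
        · intro t ht
          rw [SimpleGraph.Walk.support_cons, List.mem_cons] at ht
          rcases ht with rfl | ht
          · exact Or.inl hxs
          · rcases hw2s t ht with h' | ⟨c, hc, htc⟩
            · exact Or.inl (hsup t h')
            · exact Or.inr ⟨c, hsub hc, htc⟩

/-- the hitset of a list of vertices, each hitting clusters with at most `N` elements -/
lemma Link_hit_card (κ : Kind) (ω : El d → Bool) (N : ℕ) (l : List (V d))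
    (h : ∀ y u, Bad κ ω y → u ∈ l → u ∈ fat (clus κ ω y) →
      (clus κ ω y).Finite ∧ (clus κ ω y).ncard ≤ N) :
    (hitset κ ω {u | u ∈ l}).Finite ∧ (hitset κ ω {u | u ∈ l}).ncard ≤ l.length * N := by
  induction l with
  | nil =>
    have h0 : hitset κ ω {u | u ∈ ([] : List (V d))} = ∅ := by
      ext y
      simp [hitset]
    rw [h0]
    simp
  | cons a l ih =>
    obtain ⟨h1, h2⟩ := ih (fun y u hy hu hf => h y u hy (List.mem_cons_of_mem _ hu) hf)
    have h3 : hitset κ ω {u | u ∈ a :: l} =
        {y | Bad κ ω y ∧ a ∈ fat (clus κ ω y)} ∪ hitset κ ω {u | u ∈ l} := by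
      ext y
      constructor
      · rintro ⟨hy, u, hu, hf⟩
        rcases List.mem_cons.1 hu with rfl | hu
        · exact Or.inl ⟨hy, hf⟩
        · exact Or.inr ⟨hy, u, hu, hf⟩
      · rintro (⟨hy, hf⟩ | ⟨hy, u, hu, hf⟩)
        · exact ⟨hy, a, List.mem_cons_self, hf⟩
        · exact ⟨hy, u, List.mem_cons_of_mem _ hu, hf⟩
    have h4 : ({y | Bad κ ω y ∧ a ∈ fat (clus κ ω y)} : Set (V d)).Finite ∧
        ({y | Bad κ ω y ∧ a ∈ fat (clus κ ω y)} : Set (V d)).ncard ≤ N := by
      by_cases hex : ∃ y, Bad κ ω y ∧ a ∈ fat (clus κ ω y)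
      · obtain ⟨y, hy, hf⟩ := hex
        obtain ⟨h5, h6⟩ := h y a hy List.mem_cons_self hf
        have h7 : ({y | Bad κ ω y ∧ a ∈ fat (clus κ ω y)} : Set (V d)) ⊆ clus κ ω y := by
          rintro y' ⟨hy', hf'⟩
          by_contra hcon
          have hne : clus κ ω y ≠ clus κ ω y' := by
            intro heq
            apply hcon
            rw [heq]
            exact bad_self_clus κ ω y'
          exact clus_far κ ω hy hy' hne hf hf' (bd_Cl_refl 1 a)
        exact ⟨h5.subset h7, (Set.ncard_le_ncard h7 h5).trans h6⟩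
      · have h5 : ({y | Bad κ ω y ∧ a ∈ fat (clus κ ω y)} : Set (V d)) = ∅ := by
          ext y
          exact ⟨fun hh => (hex ⟨y, hh⟩).elim, fun hh => hh.elim⟩
        rw [h5]
        simp
    rw [h3]
    refine ⟨h4.1.union h1, (Set.ncard_union_le _ _).trans ?_⟩
    rw [List.length_cons, Nat.succ_mul]
    omega

/-- the ray from `x` to its exit point -/
lemma Link_ray (hd : 0 < d) (x : V d) (t : ℕ) :
    ∃ w : (Lat d).Walk x (x + e0 hd t), w.length = t ∧
      ∀ u ∈ w.support, ∀ i, |u i - x i| ≤ t := by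
  obtain ⟨w, hw1, hw2⟩ := exists_walk x (x + e0 hd t)
  refine ⟨w, ?_, ?_⟩
  · have h1 : (∑ i, |(x + e0 hd t) i - x i| : ℤ) = t := by
      rw [Finset.sum_eq_single (⟨0, hd⟩ : Fin d)]
      · simp [e0]
      · intro i _ hi
        simp [e0, Pi.single_eq_of_ne hi]
      · intro h; exact absurd (Finset.mem_univ _) h
    rw [h1] at hw1
    exact_mod_cast hw1
  · intro u hu i
    obtain ⟨h1, h2⟩ := hw2 u hu i
    have h3 : x i ≤ (x + e0 hd t) i ∧ (x + e0 hd t) i ≤ x i + t := by
      by_cases hi : i = ⟨0, hd⟩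
      · subst hi
        simp [e0]
      · simp [e0, Pi.single_eq_of_ne hi]
    rw [min_eq_left h3.1] at h1
    rw [max_eq_right h3.1] at h2
    rw [abs_le]
    constructor <;> omega

theorem link_yr (hd : 2 ≤ d) {F : Set (V d)} {x x' : V d} {r r' : ℕ} (hr : 1 ≤ r) (hr' : 1 ≤ r')
    (h : Qs F x r) (h' : Qs F x' r') (hxx : x = x' ∨ LatAdj x x') (h1 : r ≤ 2 * r' + 1)
    (h2 : r' ≤ 2 * r + 1) :
    ∃ w : (Gr .site (ofSet F)).Walk (yr (by omega) F r x) (yr (by omega) F r' x'),
      w.length ≤ (50 * (7 ^ d + 3)) * (Dr F r x + Dr F r' x') ^ 2 ∧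
      ∀ u ∈ w.support, (∀ i, |u i - x i| ≤ 25 * Dr F r x) ∨
        (∀ i, |u i - x' i| ≤ 25 * Dr F r' x') := by
  have hd0 : 0 < d := by omega
  set D := Dr F r x with hD
  set D' := Dr F r' x' with hD'
  obtain ⟨hD1, hDr, hDq⟩ := dr_spec hr h
  obtain ⟨hD1', hDr', hDq'⟩ := dr_spec hr' h'
  obtain ⟨ht, hE⟩ := tr_spec hd hr h
  obtain ⟨ht', hE'⟩ := tr_spec hd hr' h'
  rw [← hD] at hD1 hDr hDq ht
  rw [← hD'] at hD1' hDr' hDq' ht'
  have hcl : ∀ i, |x i - x' i| ≤ 1 := by
    intro i
    rcases hxx with h3 | h3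
    · rw [h3]; simp
    · exact_mod_cast bd_adj_cl h3 i
  -- the walk
  obtain ⟨w1, hw1l, hw1s⟩ : ∃ w : (Lat d).Walk x (yr hd0 F r x), w.length = tr hd0 F r x ∧
      ∀ u ∈ w.support, ∀ i, |u i - x i| ≤ (tr hd0 F r x : ℕ) := Link_ray hd0 x (tr hd0 F r x)
  obtain ⟨w2, hw2l, hw2s⟩ : ∃ w : (Lat d).Walk x' (yr hd0 F r' x'), w.length = tr hd0 F r' x' ∧
      ∀ u ∈ w.support, ∀ i, |u i - x' i| ≤ (tr hd0 F r' x' : ℕ) :=
    Link_ray hd0 x' (tr hd0 F r' x')
  obtain ⟨wm, hwml, hwms⟩ : ∃ w : (Lat d).Walk x x', w.length ≤ 1 ∧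
      ∀ u ∈ w.support, u = x ∨ u = x' := by
    rcases hxx with h3 | h3
    · subst h3
      exact ⟨SimpleGraph.Walk.nil, by simp, by simp⟩
    · have h3' : (Lat d).Adj x x' := h3
      refine ⟨SimpleGraph.Walk.cons h3' SimpleGraph.Walk.nil, ?_, ?_⟩
      · rw [SimpleGraph.Walk.length_cons, SimpleGraph.Walk.length_nil]
      · intro u hu
        rw [SimpleGraph.Walk.support_cons, SimpleGraph.Walk.support_nil, List.mem_cons,
          List.mem_singleton] at hu
        exact hu
  set ℓ : (Lat d).Walk (yr hd0 F r x) (yr hd0 F r' x') := w1.reverse.append (wm.append w2)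
    with hℓ
  have hℓs : ∀ u ∈ ℓ.support, (∀ i, |u i - x i| ≤ 10 * D + 1) ∨
      (∀ i, |u i - x' i| ≤ 10 * D' + 1) := by
    intro u hu
    have hA : u ∈ w1.support → (∀ i, |u i - x i| ≤ 10 * D + 1) := by
      intro hu i
      have := hw1s u hu i
      have h4 : ((tr hd0 F r x : ℕ) : ℤ) ≤ 10 * D + 1 := by exact_mod_cast ht
      omega
    have hB : u ∈ w2.support → (∀ i, |u i - x' i| ≤ 10 * D' + 1) := by
      intro hu i
      have := hw2s u hu i
      have h4 : ((tr hd0 F r' x' : ℕ) : ℤ) ≤ 10 * D' + 1 := by exact_mod_cast ht'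
      omega
    rw [hℓ, SimpleGraph.Walk.mem_support_append_iff, SimpleGraph.Walk.mem_support_append_iff,
      SimpleGraph.Walk.support_reverse, List.mem_reverse] at hu
    rcases hu with hu | hu | hu
    · exact Or.inl (hA hu)
    · rcases hwms u hu with rfl | rfl
      · exact Or.inl (hA w1.start_mem_support)
      · exact Or.inr (hB w2.start_mem_support)
    · exact Or.inr (hB hu)
  have hℓl : ℓ.length ≤ 10 * D + 10 * D' + 3 := by
    rw [hℓ, SimpleGraph.Walk.length_append, SimpleGraph.Walk.length_append,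
      SimpleGraph.Walk.length_reverse, hw1l, hw2l]
    omega
  -- clusters hit by the walk
  have hhit : ∀ y u, Bad .site (ofSet F) y → u ∈ ℓ.support → u ∈ fat (clus .site (ofSet F) y) →
      (∃ c ∈ clus .site (ofSet F) y, c ∈ F ∧ clF F c = clF F y ∧
        (clF F c).Finite ∧ (clF F c).ncard ≤ D ∧ ∀ i, |c i - x i| ≤ 10 * D + 3) ∨
      (∃ c ∈ clus .site (ofSet F) y, c ∈ F ∧ clF F c = clF F y ∧
        (clF F c).Finite ∧ (clF F c).ncard ≤ D' ∧ ∀ i, |c i - x' i| ≤ 10 * D' + 3) := by
    intro y u hy hu hf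
    obtain ⟨c, hc, huc⟩ := hf
    have hyF : y ∈ F := (bad_ofSet F y).1 hy
    have hcF : c ∈ F := (bad_ofSet F c).1 (bad_clus_bad hy hc)
    have hcy : clF F c = clF F y := bad_clus_eq hc
    rcases hℓs u hu with h3 | h3
    · left
      have h4 : ∀ i, |c i - x i| ≤ 10 * D + 3 := by
        intro i
        have h5 := huc i
        have h6 := h3 i
        rw [abs_le] at h5 h6 ⊢
        push_cast at h5
        omega
      have h5 := hDq D le_rfl hDr c hcF (fun i => (h4 i).trans (by omega))
      exact ⟨c, hc, hcF, hcy, h5.1, h5.2, h4⟩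
    · right
      have h4 : ∀ i, |c i - x' i| ≤ 10 * D' + 3 := by
        intro i
        have h5 := huc i
        have h6 := h3 i
        rw [abs_le] at h5 h6 ⊢
        push_cast at h5
        omega
      have h5 := hDq' D' le_rfl hDr' c hcF (fun i => (h4 i).trans (by omega))
      exact ⟨c, hc, hcF, hcy, h5.1, h5.2, h4⟩
  obtain ⟨hHf, hHc⟩ := Link_hit_card .site (ofSet F) (D + D') ℓ.support (by
    intro y u hy hu hf
    rcases hhit y u hy hu hf with ⟨c, hc, hcF, hcy, hfin, hcard, -⟩ |
      ⟨c, hc, hcF, hcy, hfin, hcard, -⟩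
    · change (clF F y).Finite ∧ (clF F y).ncard ≤ _
      rw [← hcy]
      exact ⟨hfin, by omega⟩
    · change (clF F y).Finite ∧ (clF F y).ncard ≤ _
      rw [← hcy]
      exact ⟨hfin, by omega⟩)
  -- reference point
  obtain ⟨M, hM⟩ : ∃ M : ℤ, ∀ c ∈ hitset .site (ofSet F) {u | u ∈ ℓ.support},
      c ⟨0, hd0⟩ + 2 < M := by
    obtain ⟨M, hM⟩ := (hHf.image (fun c : V d => c ⟨0, hd0⟩)).bddAbove
    refine ⟨M + 3, fun c hc => ?_⟩
    have := hM ⟨c, hc, rfl⟩
    simp only at this
    omega
  have hexit : ∀ b ∈ hitset .site (ofSet F) {u | u ∈ ℓ.support},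
      yr hd0 F r x ∈ outer (fat (clus .site (ofSet F) b)) (fun _ => M) ∧
      yr hd0 F r' x' ∈ outer (fat (clus .site (ofSet F) b)) (fun _ => M) := by
    intro b hb
    obtain ⟨hb1, u, hu, hf⟩ := hb
    have hsub : clus .site (ofSet F) b ⊆ hitset .site (ofSet F) {u | u ∈ ℓ.support} :=
      Detour_clus_subset .site (ofSet F) hb1 hu hf
    have hfin : (clus .site (ofSet F) b).Finite := hHf.subset hsub
    have hz : ∀ c ∈ clus .site (ofSet F) b, c ⟨0, by omega⟩ + 2 < (fun _ => M : V d) ⟨0, by omega⟩ :=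
      fun c hc => hM c (hsub hc)
    have key : ∀ c ∈ F, clF F c = clF F b → (∀ i, |c i - x i| ≤ 40 * r) →
        (∀ i, |c i - x' i| ≤ 40 * r') →
        yr hd0 F r x ∈ outer (fat (clus .site (ofSet F) b)) (fun _ => M) ∧
        yr hd0 F r' x' ∈ outer (fat (clus .site (ofSet F) b)) (fun _ => M) := by
      intro c hcF hcb hc1 hc2
      have h3 := hE c hcF hc1
      have h4 := hE' c hcF hc2
      rw [hcb] at h3 h4
      exact ⟨(extC_iff hd hfin hz).1 h3, (extC_iff hd hfin hz).1 h4⟩
    rcases hhit b u hb1 hu hf with ⟨c, hc, hcF, hcy, -, -, hcx⟩ | ⟨c, hc, hcF, hcy, -, -, hcx⟩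
    · refine key c hcF hcy (fun i => (hcx i).trans (by omega)) (fun i => ?_)
      have h3 := hcx i
      have h4 := hcl i
      rw [abs_le] at h3 h4 ⊢
      omega
    · refine key c hcF hcy (fun i => ?_) (fun i => (hcx i).trans (by omega))
      have h3 := hcx i
      have h4 := hcl i
      rw [abs_le] at h3 h4 ⊢
      omega
  obtain ⟨w, hwl, hws⟩ := Link_detour .site (ofSet F) (fun _ => M) ℓ.length ℓ le_rfl hHf
    (fun b hb => (hexit b hb).1) (fun b hb => (hexit b hb).2)
  refine ⟨w, ?_, ?_⟩
  · -- length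
    rw [SimpleGraph.Walk.length_support] at hHc
    have h7 : 1 ≤ 7 ^ d := Nat.one_le_pow _ _ (by norm_num)
    have h8 : (ℓ.length + 1) * (D + D') ≤ 12 * (D + D') ^ 2 := by
      have : ℓ.length + 1 ≤ 12 * (D + D') := by omega
      calc (ℓ.length + 1) * (D + D') ≤ 12 * (D + D') * (D + D') := Nat.mul_le_mul_right _ this
        _ = 12 * (D + D') ^ 2 := by ring
    have h9 : ℓ.length ≤ 12 * (D + D') ^ 2 := by
      calc ℓ.length ≤ (ℓ.length + 1) * (D + D') := by
            have : 1 ≤ D + D' := by omega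
            nlinarith
        _ ≤ _ := h8
    have h10 : 7 ^ d * (hitset .site (ofSet F) {u | u ∈ ℓ.support}).ncard ≤
        7 ^ d * (12 * (D + D') ^ 2) := Nat.mul_le_mul_left _ (hHc.trans h8)
    calc w.length ≤ 12 * (D + D') ^ 2 + 7 ^ d * (12 * (D + D') ^ 2) := by omega
      _ ≤ 50 * (7 ^ d + 3) * (D + D') ^ 2 := by nlinarith [Nat.zero_le (7 ^ d * (D + D') ^ 2)]
  · intro t ht1
    rcases hws t ht1 with h3 | ⟨c, hc, htc⟩
    · rcases hℓs t h3 with h4 | h4
      · exact Or.inl fun i => (h4 i).trans (by omega)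
      · exact Or.inr fun i => (h4 i).trans (by omega)
    · obtain ⟨hcb, u, hu, hf⟩ := hc
      rcases hhit c u hcb hu hf with ⟨c', hc', hcF, hcy, hfin, hcard, hcx⟩ |
        ⟨c', hc', hcF, hcy, hfin, hcard, hcx⟩
      · left
        intro i
        have h5 : c ∈ clF F c' := by
          rw [hcy]; exact clF_self F c
        have h6 := clF_diff hfin h5 i
        have h7 := hcx i
        have h8 := htc i
        have h9 : ((clF F c').ncard : ℤ) ≤ D := by exact_mod_cast hcard
        rw [abs_le] at h6 h7 h8 ⊢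
        push_cast at h8
        omega
      · right
        intro i
        have h5 : c ∈ clF F c' := by
          rw [hcy]; exact clF_self F c
        have h6 := clF_diff hfin h5 i
        have h7 := hcx i
        have h8 := htc i
        have h9 : ((clF F c').ncard : ℤ) ≤ D' := by exact_mod_cast hcard
        rw [abs_le] at h6 h7 h8 ⊢
        push_cast at h8
        omega

end Pool.Agent.H66.RS
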