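import Pool.Agent.H66.RS.ExtFacts

/-!
# RS module Local: locality of the deterministic objects

If `F` and `F'` agree on the box of radius `46 r + 10` at `x` then for `b ∈ F` within `40 r` of `x`: the clusters
of `b` in `F` and in `F'` agree if one of them has at most `r` elements (`clF_diff`: the points of the
cluster are within `5 r - 5` of `b`; walks in `BG` with steps at most `5`). Hence `Qs F x t ↔ Qs F' x t` for
`t ≤ r`, the sets defining `Dr` agree, `ExtR F x r y ↔ ExtR F' x r y` for every `y`.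
-/

open MeasureTheory Filter Topology
open Pool.Agent.H17.IIC Pool.Agent.H41.QC Pool.Agent.H47.GM

namespace Pool.Agent.H66.RS

variable {d : ℕ}

lemma cl_local {F F' : Set (V d)} {b : V d} {r : ℕ}
    (hF : ∀ v : V d, (∀ i, |v i - b i| ≤ 5 * r + 5) → (v ∈ F ↔ v ∈ F')) (hb : b ∈ F)
    (hfin : (clF F b).Finite) (hn : (clF F b).ncard ≤ r) : clF F' b = clF F b := by
  have hnear : ∀ c ∈ clF F b, ∀ i, |b i - c i| ≤ 5 * (r : ℤ) - 5 := by
    intro c hc i
    have := clF_diff hfin hc i
    have h2 : ((clF F b).ncard : ℤ) ≤ r := by exact_mod_cast hn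
    linarith
  apply Set.Subset.antisymm
  · intro y hy
    have hy' : (BG .site (ofSet F')).Reachable b y := hy
    have key : ∀ {a y : V d} (w : (BG .site (ofSet F')).Walk a y), a ∈ clF F b → y ∈ clF F b := by
      intro a y w
      induction w with
      | nil => exact fun h => h
      | @cons a a' c hh p ih =>
        intro ha
        apply ih
        obtain ⟨h1, h2, h3, h4⟩ := hh
        have ha' : ∀ i, |a' i - b i| ≤ 5 * (r : ℤ) + 5 := by
          intro i
          have h5 := hnear a ha i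
          have h6 : |a i - a' i| ≤ 5 := h2 i
          rw [abs_le] at h5 h6 ⊢
          constructor <;> linarith [h5.1, h5.2, h6.1, h6.2]
        have h7 : a ∈ F := clF_sub hb ha
        have h8 : a' ∈ F := by
          rw [bad_ofSet] at h4
          exact (hF a' ha').2 h4
        have h9 : (BG .site (ofSet F)).Adj a a' :=
          ⟨h1, h2, (bad_ofSet F a).2 h7, (bad_ofSet F a').2 h8⟩
        exact SimpleGraph.Reachable.trans ha h9.reachable
    obtain ⟨w⟩ := hy'
    exact key w (clF_self F b)
  · intro y hy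
    have hy' : (BG .site (ofSet F)).Reachable b y := hy
    have key : ∀ {a y : V d} (w : (BG .site (ofSet F)).Walk a y), a ∈ clF F b →
        a ∈ clF F' b → y ∈ clF F' b := by
      intro a y w
      induction w with
      | nil => exact fun _ h => h
      | @cons a a' c hh p ih =>
        intro haF ha
        have ha'F : a' ∈ clF F b := SimpleGraph.Reachable.trans haF hh.reachable
        have hin : ∀ c ∈ clF F b, c ∈ F' := by
          intro c hc
          refine (hF c (fun i => ?_)).1 (clF_sub hb hc)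
          have h5 := hnear c hc i
          rw [abs_sub_comm] at h5
          linarith
        have h9 : (BG .site (ofSet F')).Adj a a' :=
          ⟨hh.1, hh.2.1, (bad_ofSet F' a).2 (hin a haF), (bad_ofSet F' a').2 (hin a' ha'F)⟩
        exact ih ha'F (SimpleGraph.Reachable.trans ha h9.reachable)
    obtain ⟨w⟩ := hy'
    exact key w (clF_self F b) (clF_self F' b)

lemma Local_qs_local {F F' : Set (V d)} {x : V d} {t r : ℕ} (htr : t ≤ r)
    (hF : ∀ v : V d, (∀ i, |v i - x i| ≤ 46 * r + 10) → (v ∈ F ↔ v ∈ F')) (h : Qs F x t) :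
    Qs F' x t := by
  have htr' : (t : ℤ) ≤ r := by exact_mod_cast htr
  intro b hb hbx
  have hbF : b ∈ F := (hF b (fun i => (hbx i).trans (by linarith))).2 hb
  obtain ⟨h1, h2⟩ := h b hbF hbx
  have h3 : clF F' b = clF F b := by
    refine cl_local (r := t) (fun v hv => hF v (fun i => ?_)) hbF h1 h2
    have h4 := hv i
    have h5 := hbx i
    rw [abs_le] at h4 h5 ⊢
    constructor <;> linarith [h4.1, h4.2, h5.1, h5.2]
  rw [h3]
  exact ⟨h1, h2⟩

theorem qs_local {F F' : Set (V d)} {x : V d} {t r : ℕ} (htr : t ≤ r)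
    (hF : ∀ v : V d, (∀ i, |v i - x i| ≤ 46 * r + 10) → (v ∈ F ↔ v ∈ F')) :
    Qs F x t ↔ Qs F' x t :=
  ⟨Local_qs_local htr hF, Local_qs_local htr (fun v hv => (hF v hv).symm)⟩

lemma Local_ext_local {hd : 0 < d} {F F' : Set (V d)} {x y : V d} {r : ℕ}
    (hF : ∀ v : V d, (∀ i, |v i - x i| ≤ 46 * r + 10) → (v ∈ F ↔ v ∈ F')) (h : Qs F x r)
    (he : ExtR hd F x r y) : ExtR hd F' x r y := by
  intro b hb hbx
  have hbF : b ∈ F := (hF b (fun i => (hbx i).trans (by linarith))).2 hb
  obtain ⟨h1, h2⟩ := h b hbF hbx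
  have h3 : clF F' b = clF F b := by
    refine cl_local (r := r) (fun v hv => hF v (fun i => ?_)) hbF h1 h2
    have h4 := hv i
    have h5 := hbx i
    rw [abs_le] at h4 h5 ⊢
    constructor <;> linarith [h4.1, h4.2, h5.1, h5.2]
  rw [h3]
  exact he b hbF hbx

theorem dr_yr_local (hd : 2 ≤ d) {F F' : Set (V d)} {x : V d} {r : ℕ} (hr : 1 ≤ r)
    (hF : ∀ v : V d, (∀ i, |v i - x i| ≤ 46 * r + 10) → (v ∈ F ↔ v ∈ F')) (h : Qs F x r) :
    Dr F r x = Dr F' r x ∧ yr (by omega) F r x = yr (by omega) F' r x := by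
  have h' : Qs F' x r := (qs_local le_rfl hF).1 h
  constructor
  · unfold Dr
    congr 1
    ext t
    constructor
    · rintro ⟨h1, h2⟩
      exact ⟨h1, fun t' ht1 ht2 => (qs_local ht2 hF).1 (h2 t' ht1 ht2)⟩
    · rintro ⟨h1, h2⟩
      exact ⟨h1, fun t' ht1 ht2 => (qs_local ht2 hF).2 (h2 t' ht1 ht2)⟩
  · unfold yr tr
    congr 3
    ext t
    exact ⟨Local_ext_local hF h, Local_ext_local (fun v hv => (hF v hv).symm) h'⟩

end Pool.Agent.H66.RS
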