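import Pool.Agent.H41.QC.ConnNear
import Pool.Agent.H47.GM.Basic
import Pool.Agent.H47.GM.PGrow
import Pool.Agent.H66.RS.Defs

/-!
# RS module ProbQ: probability of regularity

`qs_fail`: if `Qs F x t` fails there is `b ∈ F` within `40 t` of `x` whose cluster is infinite or has more than
`t` elements; then there is a finite `B ⊆ F`, `B` disjoint from `{b}`, `|B| = t`, `Cn5 ({b} ∪ B)` (a connected subset of the
cluster of size `t + 1`; see the proof of `gen_small`, H47/GM/PSmall, or `small_clusters`, H41/QC/ConnNear).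
`gen_grow` with `T₀ = {b}`: probability at most `(11^d)^(2 (1 + t)) ρ^t`; union over at most `(80 t + 1)^d`
points `b`. With `ρ = 1 / (8 (11^d)^4)` the sum is at most
`C exp (-c t)`. `dr_tail`: if `Qs F x r` and `t ≤ Dr F r x`, `t ≥ 2`, then `Qs F x t'` fails for some `t' ∈ [t-1, r]`
(otherwise `t - 1` would be in the set defining `Dr`): sum of a geometric series. (The event has to be
contained in a countable union; `measureReal_mono`, no measurability needed.)
-/

open MeasureTheory Filter Topology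
open Pool.Agent.H17.IIC Pool.Agent.H41.QC Pool.Agent.H47.GM

namespace Pool.Agent.H66.RS

variable {d : ℕ}

/-- density of bad blocks -/
noncomputable def rhoB (d : ℕ) : ℝ := 1 / (8 * ((11 : ℝ) ^ d) ^ 4)

lemma ProbQ_num (d : ℕ) (t : ℕ) :
    ((80 * t + 1 : ℕ) : ℝ) ^ d * (((11 : ℝ) ^ d) ^ (2 * (1 + t)) * rhoB d ^ t)
      ≤ (9801 : ℝ) ^ d * (1 / 8) ^ t := by
  have h1 : ((80 * t + 1 : ℕ) : ℝ) ≤ 81 * 2 ^ t := by
    have h2 : t + 1 ≤ 2 ^ t := Nat.lt_two_pow_self
    have h3 : 80 * t + 1 ≤ 81 * 2 ^ t := by omega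
    exact_mod_cast h3
  have h2 : ((80 * t + 1 : ℕ) : ℝ) ^ d ≤ (81 * 2 ^ t) ^ d :=
    pow_le_pow_left₀ (by positivity) h1 d
  set a : ℝ := (11 : ℝ) ^ d with ha
  have ha1 : 1 ≤ a := one_le_pow₀ (by norm_num)
  have ha2 : (2 : ℝ) ^ d ≤ a := pow_le_pow_left₀ (by norm_num) (by norm_num) d
  have ha0 : 0 < a := by positivity
  have e1 : a ^ (2 * (1 + t)) * rhoB d ^ t = a ^ 2 * ((1 / 8) * (1 / a ^ 2)) ^ t := by
    rw [rhoB, ← ha]
    have : (1 : ℝ) / (8 * a ^ 4) = (1 / 8 * (1 / a ^ 2)) * (1 / a ^ 2) := by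
      field_simp
    rw [this, mul_pow (1 / 8 * (1 / a ^ 2)) (1 / a ^ 2) t]
    have e2 : a ^ (2 * (1 + t)) = a ^ 2 * (a ^ 2) ^ t := by
      rw [mul_add, pow_add, mul_one, pow_mul a 2 t]
    rw [e2]
    have e3 : (a ^ 2) ^ t * (1 / a ^ 2) ^ t = 1 := by
      rw [← mul_pow]
      have : a ^ 2 * (1 / a ^ 2) = 1 := by field_simp
      rw [this, one_pow]
    calc a ^ 2 * (a ^ 2) ^ t * ((1 / 8 * (1 / a ^ 2)) ^ t * (1 / a ^ 2) ^ t)
        = a ^ 2 * (1 / 8 * (1 / a ^ 2)) ^ t * ((a ^ 2) ^ t * (1 / a ^ 2) ^ t) := by ring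
      _ = _ := by rw [e3, mul_one]
  rw [e1]
  have h3 : (81 * 2 ^ t : ℝ) ^ d = 81 ^ d * ((2 : ℝ) ^ d) ^ t := by
    rw [mul_pow, ← pow_mul, ← pow_mul, mul_comm t d]
  have h4 : ((2 : ℝ) ^ d) ^ t * ((1 / 8) * (1 / a ^ 2)) ^ t ≤ (1 / 8) ^ t := by
    rw [← mul_pow]
    apply pow_le_pow_left₀ (by positivity)
    have : (2 : ℝ) ^ d * (1 / a ^ 2) ≤ 1 := by
      rw [mul_one_div, div_le_one (by positivity)]
      nlinarith
    calc (2 : ℝ) ^ d * (1 / 8 * (1 / a ^ 2)) = (1 / 8) * ((2 : ℝ) ^ d * (1 / a ^ 2)) := by ring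
      _ ≤ (1 / 8) * 1 := by gcongr
      _ = 1 / 8 := by ring
  calc ((80 * t + 1 : ℕ) : ℝ) ^ d * (a ^ 2 * ((1 / 8) * (1 / a ^ 2)) ^ t)
      ≤ (81 ^ d * ((2 : ℝ) ^ d) ^ t) * (a ^ 2 * ((1 / 8) * (1 / a ^ 2)) ^ t) := by
        rw [← h3]; gcongr
    _ = (81 ^ d * a ^ 2) * (((2 : ℝ) ^ d) ^ t * ((1 / 8) * (1 / a ^ 2)) ^ t) := by ring
    _ ≤ (81 ^ d * a ^ 2) * (1 / 8) ^ t := by gcongr
    _ = (9801 : ℝ) ^ d * (1 / 8) ^ t := by
        congr 1
        rw [ha, ← pow_mul, mul_comm d 2, pow_mul, ← mul_pow]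
        norm_num

lemma ProbQ_exp (t : ℕ) : ((1 : ℝ) / 8) ^ t = Real.exp (-(Real.log 8 * t)) := by
  rw [show -(Real.log 8 * (t : ℝ)) = (t : ℝ) * (-(Real.log 8)) by ring, Real.exp_nat_mul,
    Real.exp_neg, Real.exp_log (by norm_num)]
  norm_num

/-- the event that a large cluster starts at `b` -/
lemma ProbQ_grow {F : Set (V d)} {b : V d} (hb : b ∈ F) (t : ℕ)
    (h : ¬ ((clF F b).Finite ∧ (clF F b).ncard ≤ t)) :
    ∃ B : Finset (V d), (B : Set (V d)) ⊆ F ∧ Disjoint B ({b} : Finset (V d)) ∧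
        B.card = t ∧ Cn5 (((({b} : Finset (V d)) : Set (V d))) ∪ B) := by
  classical
  have hbad : Bad .site (ofSet F) b := (bad_ofSet F b).2 hb
  have hself : b ∈ clus .site (ofSet F) b := Exit_self_mem .site (ofSet F) b
  have hun : (((({b} : Finset (V d)) : Set (V d))) ∪ clus .site (ofSet F) b)
      = clus .site (ofSet F) b := by
    rw [Finset.coe_singleton, Set.singleton_union, Set.insert_eq_of_mem hself]
  obtain ⟨B, hF1, hF2, hF3, hF4⟩ := grow ({b} : Finset (V d)) (by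
      intro x hx y hy
      rw [Finset.coe_singleton, Set.mem_singleton_iff] at hx hy
      subst hx
      subst hy
      refine ⟨SimpleGraph.Walk.nil, ?_⟩
      intro z hz
      simpa using hz) (Finset.singleton_nonempty b) (clus .site (ofSet F) b) (by
      rw [hun]
      intro x hx y hy
      exact ConnNear_clus_walk .site (ofSet F) hx hy) t (by
      intro B hB hdB hcB
      by_contra hno
      push Not at hno
      apply h
      have hsub : clus .site (ofSet F) b ⊆ ((insert b B : Finset (V d)) : Set (V d)) := by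
        intro u hu
        rw [Finset.coe_insert, Set.mem_insert_iff]
        by_cases hub : u = b
        · exact Or.inl hub
        · right
          exact hno u hu (by rw [Finset.mem_singleton]; exact hub)
      have hfin : (clus .site (ofSet F) b).Finite := (Finset.finite_toSet _).subset hsub
      refine ⟨hfin, ?_⟩
      have h1 := Set.ncard_le_ncard hsub (Finset.finite_toSet _)
      rw [Set.ncard_coe_finset] at h1
      have h2 := Finset.card_insert_le b B
      show (clus .site (ofSet F) b).ncard ≤ t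
      omega)
  exact ⟨B, fun x hx => (bad_ofSet F x).1 (Detour_bad_of_clus .site (ofSet F) hbad (hF1 hx)),
    hF2, hF3, hF4⟩

lemma ProbQ_fail {Ω : Type} [MeasurableSpace Ω]
    (P : Measure Ω) [IsProbabilityMeasure P] (F : Ω → Set (V d))
    (hF : ∀ B : Finset (V d), P.real {ω | (B : Set (V d)) ⊆ F ω} ≤ rhoB d ^ B.card)
    (x : V d) (t : ℕ) : P.real {ω | ¬ Qs (F ω) x t} ≤ (9801 : ℝ) ^ d * (1 / 8) ^ t := by
  classical
  have hρ : 0 ≤ rhoB d := by unfold rhoB; positivity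
  set cube : Finset (V d) :=
    Fintype.piFinset fun i => Finset.Icc (x i - 40 * t) (x i + 40 * t) with hcube
  have hcubec : (cube.card : ℝ) ≤ ((80 * t + 1 : ℕ) : ℝ) ^ d := by
    have h1 : cube.card ≤ (80 * t + 1) ^ d := by
      rw [hcube, Fintype.card_piFinset]
      refine le_trans (Finset.prod_le_pow_card _ _ (80 * t + 1) ?_) ?_
      · intro i _
        rw [Int.card_Icc]
        omega
      · simp
    exact_mod_cast h1
  have hsub : {ω | ¬ Qs (F ω) x t} ⊆ ⋃ b ∈ cube,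
      {ω | ∃ B : Finset (V d), (B : Set (V d)) ⊆ F ω ∧ Disjoint B ({b} : Finset (V d)) ∧
        B.card = t ∧ Cn5 (((({b} : Finset (V d)) : Set (V d))) ∪ B)} := by
    intro ω hω
    rw [Set.mem_ofPred_eq, Qs] at hω
    push Not at hω
    obtain ⟨b, hb, hbx, hcl⟩ := hω
    rw [Set.mem_iUnion₂]
    refine ⟨b, ?_, ProbQ_grow hb t ?_⟩
    · rw [hcube, Fintype.mem_piFinset]
      intro i
      rw [Finset.mem_Icc]
      have := abs_le.1 (hbx i)
      constructor <;> linarith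
    · rintro ⟨h1, h2⟩
      exact absurd (hcl h1) (by omega)
  refine (measureReal_mono hsub (measure_ne_top _ _)).trans
    ((measureReal_biUnion_finset_le _ _).trans ?_)
  refine le_trans (Finset.sum_le_sum fun b _ => gen_grow P F hρ hF {b}
    (Finset.singleton_nonempty b) t) ?_
  rw [Finset.sum_congr rfl (fun b _ => by rw [Finset.card_singleton]), Finset.sum_const,
    nsmul_eq_mul]
  refine le_trans ?_ (ProbQ_num d t)
  have : 0 ≤ ((11 : ℝ) ^ d) ^ (2 * (1 + t)) * rhoB d ^ t := by positivity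
  exact mul_le_mul_of_nonneg_right hcubec this

theorem qs_fail (d : ℕ) : ∃ (C : ℕ) (c : ℝ), 0 < c ∧ ∀ {Ω : Type} [MeasurableSpace Ω]
    (P : Measure Ω) [IsProbabilityMeasure P] (F : Ω → Set (V d)),
    (∀ B : Finset (V d), P.real {ω | (B : Set (V d)) ⊆ F ω} ≤ rhoB d ^ B.card) →
    ∀ (x : V d) (t : ℕ), P.real {ω | ¬ Qs (F ω) x t} ≤ C * Real.exp (-(c * t)) := by
  refine ⟨9801 ^ d, Real.log 8, Real.log_pos (by norm_num), ?_⟩
  intro Ω _ P _ F hF x t
  rw [← ProbQ_exp]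
  push_cast
  exact ProbQ_fail P F hF x t

theorem dr_tail (d : ℕ) : ∃ (C : ℕ) (c : ℝ), 0 < c ∧ ∀ {Ω : Type} [MeasurableSpace Ω]
    (P : Measure Ω) [IsProbabilityMeasure P] (F : Ω → Set (V d)),
    (∀ B : Finset (V d), P.real {ω | (B : Set (V d)) ⊆ F ω} ≤ rhoB d ^ B.card) →
    ∀ (x : V d) (t : ℕ),
      P.real {ω | ∃ r, 1 ≤ r ∧ Qs (F ω) x r ∧ t ≤ Dr (F ω) r x} ≤ C * Real.exp (-(c * t)) := by
  refine ⟨10 * 9801 ^ d, Real.log 8, Real.log_pos (by norm_num), ?_⟩
  intro Ω _ P _ F hF x t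
  rw [← ProbQ_exp]
  push_cast
  have hA : (1 : ℝ) ≤ 9801 ^ d := one_le_pow₀ (by norm_num)
  by_cases ht : t ≤ 1
  · have h1 : P.real {ω | ∃ r, 1 ≤ r ∧ Qs (F ω) x r ∧ t ≤ Dr (F ω) r x} ≤ 1 := measureReal_le_one
    refine h1.trans ?_
    have h2 : (1 / 8 : ℝ) ≤ (1 / 8) ^ t := by
      have : t = 0 ∨ t = 1 := by omega
      rcases this with h | h <;> subst h <;> norm_num
    nlinarith
  · push Not at ht
    obtain ⟨s₀, rfl⟩ : ∃ s, t = s + 1 := ⟨t - 1, by omega⟩
    have hsub : {ω | ∃ r, 1 ≤ r ∧ Qs (F ω) x r ∧ s₀ + 1 ≤ Dr (F ω) r x}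
        ⊆ ⋃ s : ℕ, {ω | ¬ Qs (F ω) x (s₀ + s)} := by
      rintro ω ⟨r, _, _, hD⟩
      have hnot : s₀ ∉ {t | 1 ≤ t ∧ ∀ t', t ≤ t' → t' ≤ r → Qs (F ω) x t'} := by
        intro hmem
        have := Nat.sInf_le hmem
        rw [Dr] at hD
        omega
      rw [Set.mem_ofPred_eq] at hnot
      push Not at hnot
      obtain ⟨s, hs1, hs2, hs3⟩ := hnot (by omega)
      rw [Set.mem_iUnion]
      refine ⟨s - s₀, ?_⟩
      rw [Set.mem_ofPred_eq, Nat.add_sub_cancel' hs1]
      exact hs3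
    have hsum : Summable fun s : ℕ => (9801 : ℝ) ^ d * (1 / 8) ^ (s₀ + s) := by
      apply Summable.mul_left
      have e : (fun i : ℕ => ((1 : ℝ) / 8) ^ (s₀ + i)) = fun i => (1 / 8) ^ s₀ * (1 / 8) ^ i := by
        funext i; exact pow_add _ _ _
      rw [e]
      exact (summable_geometric_of_lt_one (by norm_num) (by norm_num)).mul_left _
    have hval : ∑' s : ℕ, (9801 : ℝ) ^ d * (1 / 8) ^ (s₀ + s)
        = 9801 ^ d * ((1 / 8) ^ s₀ * (8 / 7)) := by
      rw [tsum_mul_left]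
      congr 1
      have e : (fun i : ℕ => ((1 : ℝ) / 8) ^ (s₀ + i)) = fun i => (1 / 8) ^ s₀ * (1 / 8) ^ i := by
        funext i; exact pow_add _ _ _
      rw [e, tsum_mul_left, tsum_geometric_of_lt_one (by norm_num) (by norm_num)]
      norm_num
    have hP : P (⋃ s : ℕ, {ω | ¬ Qs (F ω) x (s₀ + s)})
        ≤ ENNReal.ofReal (9801 ^ d * ((1 / 8) ^ s₀ * (8 / 7))) := by
      rw [← hval, ENNReal.ofReal_tsum_of_nonneg (fun s => by positivity) hsum]
      refine (measure_iUnion_le _).trans (ENNReal.tsum_le_tsum fun s => ?_)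
      have := ProbQ_fail P F hF x (s₀ + s)
      rw [← ENNReal.ofReal_toReal (measure_ne_top P {ω | ¬ Qs (F ω) x (s₀ + s)})]
      exact ENNReal.ofReal_le_ofReal this
    have hPr : P.real {ω | ∃ r, 1 ≤ r ∧ Qs (F ω) x r ∧ s₀ + 1 ≤ Dr (F ω) r x}
        ≤ 9801 ^ d * ((1 / 8) ^ s₀ * (8 / 7)) := by
      rw [Measure.real]
      refine ENNReal.toReal_le_of_le_ofReal (by positivity) ((measure_mono hsub).trans hP)
    refine hPr.trans ?_
    rw [pow_succ]
    have hp : (0 : ℝ) < (1 / 8) ^ s₀ := by positivity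
    have hq : (0 : ℝ) < 9801 ^ d * (1 / 8) ^ s₀ := by positivity
    nlinarith

/-- a nonnegative integer valued function with exponential tails has an integrable square -/
theorem lint_sq {Ω : Type} [MeasurableSpace Ω] (P : Measure Ω) [IsProbabilityMeasure P]
    (X : Ω → ENNReal) (hX : Measurable X) {C : ℕ} {c : ℝ} (hc : 0 < c)
    (h : ∀ t : ℕ, P.real {ω | (t : ENNReal) ≤ X ω} ≤ C * Real.exp (-(c * t))) :
    ∫⁻ ω, X ω ^ 2 ∂P < ⊤ := by
  classical
  have hmeas : ∀ t : ℕ, MeasurableSet {ω | (t : ENNReal) ≤ X ω} := fun t =>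
    measurableSet_le measurable_const hX
  have hpt : ∀ ω, X ω ^ 2 ≤ ∑' t : ℕ, ({ω | (t : ENNReal) ≤ X ω}).indicator
      (fun _ => ((t : ENNReal) + 1) ^ 2) ω := by
    intro ω
    by_cases htop : X ω = ⊤
    · have : ∑' t : ℕ, ({ω | (t : ENNReal) ≤ X ω}).indicator
          (fun _ => ((t : ENNReal) + 1) ^ 2) ω = ⊤ := by
        rw [← top_le_iff, ← ENNReal.tsum_const_eq_top_of_ne_zero (α := ℕ) (c := 1) one_ne_zero]
        refine ENNReal.tsum_le_tsum fun t => ?_
        rw [Set.indicator_of_mem (by rw [Set.mem_ofPred_eq, htop]; exact le_top)]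
        exact one_le_pow₀ (by simp)
      rw [this]; exact le_top
    · obtain ⟨n, hn1, hn2⟩ : ∃ n : ℕ, (n : ENNReal) ≤ X ω ∧ X ω ≤ (n : ENNReal) + 1 := by
        refine ⟨⌊(X ω).toReal⌋₊, ?_, ?_⟩
        · have := Nat.floor_le (ENNReal.toReal_nonneg (a := X ω))
          rw [← ENNReal.ofReal_toReal htop, ← ENNReal.ofReal_natCast]
          rw [ENNReal.toReal_ofReal ENNReal.toReal_nonneg]
          exact ENNReal.ofReal_le_ofReal this
        · have := (Nat.lt_floor_add_one (X ω).toReal).le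
          rw [← ENNReal.ofReal_toReal htop]
          rw [ENNReal.toReal_ofReal ENNReal.toReal_nonneg]
          refine (ENNReal.ofReal_le_ofReal this).trans (le_of_eq ?_)
          rw [ENNReal.ofReal_add (by positivity) (by norm_num), ENNReal.ofReal_natCast,
            ENNReal.ofReal_one]
      refine le_trans ?_ (ENNReal.le_tsum n)
      rw [Set.indicator_of_mem (by rw [Set.mem_ofPred_eq]; exact hn1)]
      gcongr
  refine lt_of_le_of_lt (lintegral_mono hpt) ?_
  rw [lintegral_tsum (fun t => (measurable_const.indicator (hmeas t)).aemeasurable)]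
  have hterm : ∀ t : ℕ, ∫⁻ ω, ({ω | (t : ENNReal) ≤ X ω}).indicator
      (fun _ => ((t : ENNReal) + 1) ^ 2) ω ∂P
      ≤ ENNReal.ofReal (C * (Real.exp c * (((t + 1 : ℕ) : ℝ) ^ 2 *
        Real.exp (-c * ((t + 1 : ℕ) : ℝ))))) := by
    intro t
    rw [lintegral_indicator_const (hmeas t)]
    have h1 : P {ω | (t : ENNReal) ≤ X ω} ≤ ENNReal.ofReal (C * Real.exp (-(c * t))) := by
      rw [← ENNReal.ofReal_toReal (measure_ne_top P {ω | (t : ENNReal) ≤ X ω})]
      exact ENNReal.ofReal_le_ofReal (h t)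
    have h2 : ((t : ENNReal) + 1) ^ 2 = ENNReal.ofReal ((((t + 1 : ℕ) : ℝ)) ^ 2) := by
      rw [ENNReal.ofReal_pow (by positivity), ENNReal.ofReal_natCast]
      push_cast
      rfl
    rw [h2]
    refine (mul_le_mul' le_rfl h1).trans (le_of_eq ?_)
    rw [← ENNReal.ofReal_mul (by positivity)]
    congr 1
    have e : Real.exp (-(c * t)) = Real.exp c * Real.exp (-c * ((t + 1 : ℕ) : ℝ)) := by
      rw [← Real.exp_add]
      congr 1
      push_cast
      ring
    rw [e]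
    ring
  refine lt_of_le_of_lt (ENNReal.tsum_le_tsum hterm) ?_
  have hs : Summable fun t : ℕ => C * (Real.exp c * (((t + 1 : ℕ) : ℝ) ^ 2 *
        Real.exp (-c * ((t + 1 : ℕ) : ℝ)))) := by
    have h0 := Real.summable_pow_mul_exp_neg_nat_mul 2 hc
    have h1 := (summable_nat_add_iff 1).2 h0
    exact (h1.mul_left (Real.exp c)).mul_left (C : ℝ)
  rw [← ENNReal.ofReal_tsum_of_nonneg (fun t => by positivity) hs]
  exact ENNReal.ofReal_lt_top

end Pool.Agent.H66.RS
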