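import Pool.Agent.H17.QA.Defs
import Pool.Agent.H66.RS.Defs

/-!
# RS module Transfer: from walks of good blocks to open paths

`Gr .site (ofSet F)`-adjacent blocks are lattice neighbours and not in `F` (`gr_ofSet`), so their
hubs are joined with length `L` (`Blocks.link`); induction on the walk; the vertices of each piece are within
`L` of the hub of its first block, hence within `2 L` of `bc s u`. `rw_of_walk`: the bypass of an open walk is
an open self-avoiding path (`OP`); for site percolation the start has to be open. `bi_step`: floor division.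
-/

open MeasureTheory Filter Topology
open Pool.Agent.H17.IIC Pool.Agent.H41.QC Pool.Agent.H47.GM Pool.Agent.H17.QA

namespace Pool.Agent.H66.RS

variable {d : ℕ}

/-- bad blocks of a block field -/
def Blocks.F {κ : Kind} {p : unitInterval} {ρ : ℝ} (B : Blocks κ d p ρ) (ω : El d → Bool) :
    Set (V d) := {x | ¬ B.good x ω}

/-- vertices of an open walk are close to its start -/
lemma transfer_near {κ : Kind} {ω : El d → Bool} {x y : V d} (w : (Gr κ ω).Walk x y) :
    ∀ v ∈ w.support, ∀ i, |v i - x i| ≤ w.length := by
  induction w with
  | nil =>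
    intro v hv i
    rw [SimpleGraph.Walk.support_nil, List.mem_singleton] at hv
    subst hv
    simp
  | @cons a b c hadj w ih =>
    intro v hv i
    rw [SimpleGraph.Walk.support_cons, List.mem_cons] at hv
    rw [SimpleGraph.Walk.length_cons]
    push_cast
    rcases hv with rfl | hv
    · rw [sub_self, abs_zero]
      positivity
    · have h1 := ih v hv i
      have h2 : |b i - a i| ≤ 1 := by
        have := bd_adj_cl (show LatAdj a b from hadj.1) i
        rw [abs_sub_comm]
        exact_mod_cast this
      have h3 : |v i - a i| ≤ |v i - b i| + |b i - a i| := by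
        have e : v i - a i = (v i - b i) + (b i - a i) := by ring
        rw [e]
        exact abs_add_le _ _
      linarith

theorem transfer {κ : Kind} {p : unitInterval} {ρ : ℝ} (B : Blocks κ d p ρ) (ω : El d → Bool)
    {y y' : V d} (w : (Gr .site (ofSet (B.F ω))).Walk y y') :
    ∃ q : (Gr κ ω).Walk (B.h y ω) (B.h y' ω), q.length ≤ B.L * w.length ∧
      (1 ≤ w.length → ∀ v ∈ q.support, ∃ u ∈ w.support, ∀ i, |v i - bc B.s u i| ≤ 2 * B.L) := by
  induction w with
  | nil => exact ⟨SimpleGraph.Walk.nil, by simp, fun h => by simp at h⟩
  | @cons u v z hadj w ih =>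
    obtain ⟨w', hw', hw's⟩ := ih
    rw [gr_ofSet] at hadj
    obtain ⟨h1, h2, h3⟩ := hadj
    have g1 : B.good u ω := by
      by_contra hcon
      exact h2 hcon
    have g2 : B.good v ω := by
      by_contra hcon
      exact h3 hcon
    obtain ⟨w1, hw1⟩ := B.link u v ω g1 g2 h1
    have hw1' : w1.length ≤ B.L := by exact_mod_cast hw1
    refine ⟨w1.append w', ?_, ?_⟩
    · rw [SimpleGraph.Walk.length_append, SimpleGraph.Walk.length_cons, mul_add, mul_one]
      omega
    · intro _ t ht
      rw [SimpleGraph.Walk.mem_support_append_iff] at ht
      have hfirst : t ∈ w1.support → ∀ i, |t i - bc B.s u i| ≤ 2 * B.L := by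
        intro ht i
        have h4 := transfer_near w1 t ht i
        have h5 := B.near u ω g1 i
        have h6 : |t i - bc B.s u i| ≤ |t i - B.h u ω i| + |B.h u ω i - bc B.s u i| := by
          have e : t i - bc B.s u i = (t i - B.h u ω i) + (B.h u ω i - bc B.s u i) := by ring
          rw [e]
          exact abs_add_le _ _
        have h7 : ((w1.length : ℕ) : ℤ) ≤ B.L := by exact_mod_cast hw1'
        linarith
      rcases ht with ht | ht
      · refine ⟨u, ?_, hfirst ht⟩
        rw [SimpleGraph.Walk.support_cons]
        exact List.mem_cons_self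
      · rcases Nat.eq_zero_or_pos w.length with h0 | h0
        · -- the remaining walk is trivial
          have hw0 : w'.length = 0 := by
            rw [h0, mul_zero] at hw'
            omega
          refine ⟨u, ?_, hfirst ?_⟩
          · rw [SimpleGraph.Walk.support_cons]
            exact List.mem_cons_self
          · have h4 := SimpleGraph.Walk.length_support w'
            rw [hw0] at h4
            obtain ⟨a, ha⟩ := List.length_eq_one_iff.1 h4
            have h6 : B.h v ω ∈ w'.support := w'.start_mem_support
            rw [ha, List.mem_singleton] at h6 ht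
            rw [ht, ← h6]
            exact w1.end_mem_support
        · obtain ⟨u', hu', hu''⟩ := hw's h0 t ht
          refine ⟨u', ?_, hu''⟩
          rw [SimpleGraph.Walk.support_cons]
          exact List.mem_cons_of_mem _ hu'

/-- an open walk gives an open self-avoiding path in a region containing the walk -/
theorem rw_of_walk (κ : Kind) (ω : El d → Bool) {x y : V d} (q : (Gr κ ω).Walk x y)
    (hx : κ = .site → ω s(x, x) = true) {U : Set (V d)} (hU : ∀ v ∈ q.support, v ∈ U) {N : ℕ}
    (hN : q.length ≤ N) : Rw κ ω U x y N := by
  classical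
  refine ⟨q.bypass.support, ⟨q.bypass_isPath.support_nodup, ?_, ?_⟩, ?_, ?_, ?_, ?_⟩
  · have h1 := q.bypass.isChain_adj_support
    exact h1.imp fun a b h => h.1
  · cases κ
    · show List.IsChain _ _
      have h1 := q.bypass.isChain_adj_support
      exact h1.imp fun a b h => h.2
    · show ∀ a ∈ q.bypass.support, ω s(a, a) = true
      have key : ∀ {a b : V d} (w : (Gr .site ω).Walk a b), ω s(a, a) = true →
          ∀ v ∈ w.support, ω s(v, v) = true := by
        intro a b w
        induction w with
        | nil =>
          intro ha v hv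
          rw [SimpleGraph.Walk.support_nil, List.mem_singleton] at hv
          rw [hv]
          exact ha
        | @cons a b c hadj w ih =>
          intro ha v hv
          rw [SimpleGraph.Walk.support_cons, List.mem_cons] at hv
          rcases hv with rfl | hv
          · exact ha
          · exact ih hadj.2.2 v hv
      exact key _ (hx rfl)
  · rw [List.head?_eq_some_head q.bypass.support_ne_nil, SimpleGraph.Walk.head_support]
  · rw [List.getLast?_eq_some_getLast q.bypass.support_ne_nil, SimpleGraph.Walk.getLast_support]
  · intro v hv
    exact hU v (q.support_bypass_subset_support hv)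
  · rw [SimpleGraph.Walk.length_support]
    have := q.length_bypass_le_length
    omega

lemma bi_near {s : ℕ} (hs : 1 ≤ s) (z : V d) (i : Fin d) :
    |bc s (bi s z) i - z i| ≤ s := by
  unfold bc bi
  have hs' : (0 : ℤ) < s := by exact_mod_cast hs
  have h1 := Int.emod_add_mul_ediv (z i) s
  have h2 := Int.emod_nonneg (z i) hs'.ne'
  have h3 := Int.emod_lt_of_pos (z i) hs'
  rw [abs_le]
  constructor
  · linarith
  · linarith

lemma bi_step_aux {s : ℕ} (hs : 1 ≤ s) (a : ℤ) :
    (a + 1) / (s : ℤ) = a / s ∨ (a + 1) / (s : ℤ) = a / s + 1 := by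
  have hs' : (0 : ℤ) < s := by exact_mod_cast hs
  have h1 : a / (s : ℤ) ≤ (a + 1) / s := Int.ediv_le_ediv hs' (by linarith)
  have h2 : (a + 1) / (s : ℤ) ≤ a / s + 1 := by
    have h3 : (a + 1) / (s : ℤ) ≤ (a + s) / s := Int.ediv_le_ediv hs' (by linarith)
    have h4 : (a + (s : ℤ)) / s = a / s + 1 := Int.add_ediv_of_dvd_right (dvd_refl _) ▸ by
      rw [Int.ediv_self hs'.ne']
    rw [h4] at h3
    exact h3
  omega

lemma bi_step {s : ℕ} (hs : 1 ≤ s) {z z' : V d} (h : LatAdj z z') :
    bi s z = bi s z' ∨ LatAdj (bi s z) (bi s z') := by
  obtain ⟨⟨i, b⟩, rfl⟩ := h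
  unfold stepVec
  have hother : ∀ (c : ℤ) (j : Fin d), j ≠ i →
      bi s (z + Pi.single i c) j = bi s z j := by
    intro c j hj
    unfold bi
    rw [Pi.add_apply, Pi.single_eq_of_ne hj, add_zero]
  have hself : ∀ c : ℤ, bi s (z + Pi.single i c) i = (z i + c) / (s : ℤ) := by
    intro c
    unfold bi
    rw [Pi.add_apply, Pi.single_eq_same]
  cases b
  · simp only [Bool.false_eq_true, if_false]
    have h1 := bi_step_aux hs (z i + -1)
    rw [neg_add_cancel_right] at h1
    rcases h1 with h1 | h1
    · left
      funext j
      by_cases hj : j = i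
      · subst hj
        rw [hself]
        exact h1
      · exact (hother _ j hj).symm
    · right
      refine ⟨(i, false), ?_⟩
      funext j
      unfold stepVec
      simp only [Bool.false_eq_true, if_false]
      rw [Pi.add_apply]
      by_cases hj : j = i
      · subst hj
        rw [hself, Pi.single_eq_same]
        change (z j + -1) / (s : ℤ) = z j / s + -1
        rw [h1]
        ring
      · rw [hother _ j hj, Pi.single_eq_of_ne hj, add_zero]
  · simp only [if_true]
    have h1 := bi_step_aux hs (z i)
    rcases h1 with h1 | h1
    · left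
      funext j
      by_cases hj : j = i
      · subst hj
        rw [hself]
        exact h1.symm
      · exact (hother _ j hj).symm
    · right
      refine ⟨(i, true), ?_⟩
      funext j
      unfold stepVec
      simp only [if_true]
      rw [Pi.add_apply]
      by_cases hj : j = i
      · subst hj
        rw [hself, Pi.single_eq_same]
        exact h1
      · rw [hother _ j hj, Pi.single_eq_of_ne hj, add_zero]

lemma bi_trans {s : ℕ} (hs : 1 ≤ s) (z v : V d) :
    bi s (z + (s : ℤ) • v) = bi s z + v := by
  have hs' : (s : ℤ) ≠ 0 := by
    have : (0 : ℤ) < s := by exact_mod_cast hs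
    exact this.ne'
  funext i
  change (z i + (s : ℤ) • v i) / (s : ℤ) = z i / s + v i
  rw [smul_eq_mul, Int.add_mul_ediv_left _ _ hs']

end Pool.Agent.H66.RS
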