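import Pool.Agent.H66.RS.BlocksThm
import Pool.Agent.H66.RS.Equiv
import Pool.Agent.H66.RS.Link
import Pool.Agent.H66.RS.Local
import Pool.Agent.H66.RS.ProbQ
import Pool.Agent.H66.RS.Transfer

/-!
# RS module Final: the road system of H17/QA for every supercritical parameter

`B` from `blocks_thm` with `ρ = rhoB d`. With a constant `C₀` (about `60 s + 2 L`): internal scale
`ρ = r / C₀`; `reg z r = {ω | 1 ≤ ρ ∧ Qs (B.F ω) (bi s z) ρ}`, `hub z r ω = B.h (yr (B.F ω) ρ (bi s z)) ω`,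
`lam z r ω = 4 M (Dr (B.F ω) ρ (bi s z))^2`, `dom z ω` = `4 M` times the square of the supremum over the `r` with
`ω ∈ reg z r` of `Dr (B.F ω) ρ (bi s z)`.
-/

open MeasureTheory Filter Topology
open Pool.Agent.H17.IIC Pool.Agent.H41.QC Pool.Agent.H47.GM Pool.Agent.H17.QA

namespace Pool.Agent.H66.RS

variable {d : ℕ}

lemma Final_rho_pos (d : ℕ) : 0 < rhoB d := by
  unfold rhoB
  positivity

/-- boxes around blocks -/
lemma Final_box {s L C r : ℕ} (hs : 1 ≤ s) (hC : L + 57 * s ≤ C) (hr : 1 ≤ r / C) {z v u : V d}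
    (hv : ∀ i, |v i - bi s z i| ≤ 46 * (r / C : ℕ) + 10) (hu : u ∈ Bx (bc s v) L) :
    u ∈ Bx z r := by
  rw [mem_Bx] at hu ⊢
  intro i
  have h1 := hu i
  have h2 := hv i
  have h3 := bi_near hs z i
  have h4 : bc s v i - bc s (bi s z) i = s * (v i - bi s z i) := by
    unfold bc
    ring
  have h5 : |bc s v i - bc s (bi s z) i| ≤ s * (46 * (r / C : ℕ) + 10) := by
    rw [h4, abs_mul, Nat.abs_cast]
    exact mul_le_mul_of_nonneg_left h2 (by positivity)
  have h6 : |u i - z i| ≤ |u i - bc s v i| + |bc s v i - bc s (bi s z) i| +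
      |bc s (bi s z) i - z i| := by
    have e : u i - z i = (u i - bc s v i) + (bc s v i - bc s (bi s z) i) +
        (bc s (bi s z) i - z i) := by ring
    rw [e]
    exact abs_add_three _ _ _
  have h7 : r / C * C ≤ r := Nat.div_mul_le_self r C
  have h7' : ((r / C : ℕ) : ℤ) * (C : ℤ) ≤ r := by exact_mod_cast h7
  have hC' : (L : ℤ) + 57 * s ≤ C := by exact_mod_cast hC
  have hr' : (1 : ℤ) ≤ (r / C : ℕ) := by exact_mod_cast hr
  have hL : (0 : ℤ) ≤ L := Int.natCast_nonneg L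
  have hs' : (0 : ℤ) ≤ s := Int.natCast_nonneg s
  set t : ℤ := ((r / C : ℕ) : ℤ) with ht
  have h8 : t * ((L : ℤ) + 57 * s) ≤ t * C := mul_le_mul_of_nonneg_left hC' (by linarith)
  nlinarith

lemma Final_yr {hd : 0 < d} (F : Set (V d)) (r : ℕ) (x : V d) (i : Fin d) :
    |yr hd F r x i - x i| ≤ tr hd F r x := by
  unfold yr e0
  rw [Pi.add_apply, add_sub_cancel_left, Pi.single_apply]
  split_ifs
  · rw [Nat.abs_cast]
  · simp

lemma Final_len0 {α : Type*} {G : SimpleGraph α} {a b v : α} (q : G.Walk a b)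
    (h : q.length = 0) (hv : v ∈ q.support) : v = a := by
  cases q with
  | nil => simpa using hv
  | cons _ _ => simp at h

section

variable {κ : Kind} {p : unitInterval} {ρ : ℝ} (B : Blocks κ d p ρ)

/-- constant of the road system -/
def Blocks.C0 : ℕ := 60 * B.s + 2 * B.L

/-- internal regularity -/
def Blocks.rg (z : V d) (r : ℕ) : Set (El d → Bool) :=
  {ω | 1 ≤ r / B.C0 ∧ Qs (B.F ω) (bi B.s z) (r / B.C0)}

/-- local size -/
noncomputable def Blocks.dd (z : V d) (r : ℕ) (ω : El d → Bool) : ℕ :=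
  Dr (B.F ω) (r / B.C0) (bi B.s z)

/-- exit block -/
noncomputable def Blocks.yy (hd : 0 < d) (z : V d) (r : ℕ) (ω : El d → Bool) : V d :=
  yr hd (B.F ω) (r / B.C0) (bi B.s z)

/-- hubs -/
noncomputable def Blocks.hb (hd : 0 < d) (z : V d) (r : ℕ) (ω : El d → Bool) : V d :=
  B.h (B.yy hd z r ω) ω

/-- the bad blocks are local -/
lemma Final_F {z : V d} {r : ℕ} (hr : 1 ≤ r / B.C0) {ω ω' : El d → Bool}
    (h : ∀ e ∈ InE (Bx z r : Set (V d)), ω e = ω' e) {v : V d}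
    (hv : ∀ i, |v i - bi B.s z i| ≤ 46 * (r / B.C0 : ℕ) + 10) :
    (v ∈ B.F ω ↔ v ∈ B.F ω') ∧ B.h v ω = B.h v ω' := by
  have h1 := B.loc v ω ω' fun e he => h e fun u hu => by
    have := Final_box B.hs (C := B.C0) (by unfold Blocks.C0; omega) hr hv (he u hu)
    exact this
  exact ⟨not_congr h1.1, h1.2⟩

lemma Final_reg {z : V d} {r : ℕ} {ω ω' : El d → Bool}
    (h : ∀ e ∈ InE (Bx z r : Set (V d)), ω e = ω' e) : ω ∈ B.rg z r ↔ ω' ∈ B.rg z r := by
  unfold Blocks.rg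
  refine and_congr_right fun hr => ?_
  exact qs_local le_rfl fun v hv => (Final_F B hr h hv).1

lemma Final_dd (hd : 2 ≤ d) {z : V d} {r : ℕ} {ω ω' : El d → Bool} (hω : ω ∈ B.rg z r)
    (h : ∀ e ∈ InE (Bx z r : Set (V d)), ω e = ω' e) :
    B.dd z r ω = B.dd z r ω' ∧ B.yy (by omega) z r ω = B.yy (by omega) z r ω' := by
  exact dr_yr_local hd hω.1 (fun v hv => (Final_F B hω.1 h hv).1) hω.2

lemma Final_near (hd : 2 ≤ d) {z : V d} {r : ℕ} {ω : El d → Bool} (hω : ω ∈ B.rg z r) :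
    (∀ i, |B.yy (by omega) z r ω i - bi B.s z i| ≤ 10 * B.dd z r ω + 1) ∧
      B.good (B.yy (by omega) z r ω) ω ∧ 1 ≤ B.dd z r ω ∧ B.dd z r ω ≤ r / B.C0 := by
  obtain ⟨hr, h⟩ := hω
  obtain ⟨h1, h2⟩ := tr_spec hd hr h
  obtain ⟨h3, h4, -⟩ := dr_spec hr h
  have h5 : ∀ i, |B.yy (by omega) z r ω i - bi B.s z i| ≤ 10 * B.dd z r ω + 1 := by
    intro i
    refine (Final_yr (B.F ω) (r / B.C0) (bi B.s z) i).trans ?_
    unfold Blocks.dd
    exact_mod_cast h1
  refine ⟨h5, ?_, h3, h4⟩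
  have h6 : B.yy (by omega) z r ω ∉ B.F ω := by
    refine ext_good (x := bi B.s z) (r := r / B.C0) h2 fun i => (h5 i).trans ?_
    have h7 : ((B.dd z r ω : ℕ) : ℤ) ≤ (r / B.C0 : ℕ) := by exact_mod_cast h4
    have h8 : (1 : ℤ) ≤ (r / B.C0 : ℕ) := by exact_mod_cast hr
    linarith
  by_contra hcon
  exact h6 hcon

lemma Final_hub_on (hd : 2 ≤ d) {z : V d} {r : ℕ} {ω ω' : El d → Bool} (hω : ω ∈ B.rg z r)
    (h : ∀ e ∈ InE (Bx z r : Set (V d)), ω e = ω' e) :
    B.hb (by omega) z r ω = B.hb (by omega) z r ω' := by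
  obtain ⟨h1, h2⟩ := Final_dd B hd hω h
  obtain ⟨h3, -, h4, h5⟩ := Final_near B hd hω
  unfold Blocks.hb
  rw [← h2]
  refine (Final_F B hω.1 h fun i => (h3 i).trans ?_).2
  have h7 : ((B.dd z r ω : ℕ) : ℤ) ≤ (r / B.C0 : ℕ) := by exact_mod_cast h5
  have h8 : (1 : ℤ) ≤ (r / B.C0 : ℕ) := by exact_mod_cast hω.1
  linarith

/-- points near blocks near `z` are in the box of `z` -/
lemma Final_loc {z u v : V d} {r : ℕ} (hr : 1 ≤ r / B.C0) {D : ℕ} (hD : D ≤ r / B.C0)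
    (hu : ∀ i, |u i - bi B.s z i| ≤ 25 * D) (hv : ∀ i, |v i - bc B.s u i| ≤ 2 * B.L) :
    v ∈ Bx z r := by
  rw [mem_Bx]
  intro i
  have h1 := hu i
  have h2 := hv i
  have h3 := bi_near B.hs z i
  have h4 : bc B.s u i - bc B.s (bi B.s z) i = B.s * (u i - bi B.s z i) := by
    unfold bc
    ring
  have h5 : |bc B.s u i - bc B.s (bi B.s z) i| ≤ B.s * (25 * D) := by
    rw [h4, abs_mul, Nat.abs_cast]
    exact mul_le_mul_of_nonneg_left h1 (by positivity)
  have h6 : |v i - z i| ≤ |v i - bc B.s u i| + |bc B.s u i - bc B.s (bi B.s z) i| +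
      |bc B.s (bi B.s z) i - z i| := by
    have e : v i - z i = (v i - bc B.s u i) + (bc B.s u i - bc B.s (bi B.s z) i) +
        (bc B.s (bi B.s z) i - z i) := by ring
    rw [e]
    exact abs_add_three _ _ _
  have h7 : r / B.C0 * B.C0 ≤ r := Nat.div_mul_le_self r B.C0
  have h7' : ((r / B.C0 : ℕ) : ℤ) * (B.C0 : ℤ) ≤ r := by exact_mod_cast h7
  have hC' : (60 : ℤ) * B.s + 2 * B.L = B.C0 := by unfold Blocks.C0; push_cast; ring
  have hr' : (1 : ℤ) ≤ (r / B.C0 : ℕ) := by exact_mod_cast hr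
  have hD' : (D : ℤ) ≤ (r / B.C0 : ℕ) := by exact_mod_cast hD
  have hL : (0 : ℤ) ≤ B.L := Int.natCast_nonneg _
  have hs' : (0 : ℤ) ≤ B.s := Int.natCast_nonneg _
  set t : ℤ := ((r / B.C0 : ℕ) : ℤ) with ht
  rw [← hC'] at h7'
  have h8 : (B.s : ℤ) * (25 * D) ≤ B.s * (25 * t) := mul_le_mul_of_nonneg_left (by linarith) hs'
  have h9 : 2 * (B.L : ℤ) ≤ t * (2 * B.L) := by nlinarith
  have h10 : (B.s : ℤ) ≤ t * B.s := by nlinarith
  nlinarith

lemma Final_hub_mem (hd : 2 ≤ d) {z : V d} {r : ℕ} {ω : El d → Bool} (hω : ω ∈ B.rg z r) :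
    B.hb (by omega) z r ω ∈ Bx z r := by
  obtain ⟨h1, h2, h3, h4⟩ := Final_near B hd hω
  refine Final_loc B hω.1 h4 (u := B.yy (by omega) z r ω) (fun i => (h1 i).trans ?_)
    (fun i => (B.near _ ω h2 i).trans ?_)
  · have : (1 : ℤ) ≤ B.dd z r ω := by exact_mod_cast h3
    linarith
  · have hL : (0 : ℤ) ≤ B.L := Int.natCast_nonneg _
    linarith

/-- one step of a road -/
lemma Final_step (hd : 2 ≤ d) {z z' : V d} {r r' : ℕ} {ω : El d → Bool}
    (hω : ω ∈ B.rg z r) (hω' : ω ∈ B.rg z' r') (hz : z = z' ∨ LatAdj z z') (h1 : r ≤ 2 * r')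
    (h2 : r' ≤ 2 * r) :
    ∃ q : (Gr κ ω).Walk (B.hb (by omega) z r ω) (B.hb (by omega) z' r' ω),
      q.length ≤ (B.L * (50 * (7 ^ d + 3))) * (B.dd z r ω + B.dd z' r' ω) ^ 2 ∧
      ∀ v ∈ q.support, v ∈ Bx z r ∨ v ∈ Bx z' r' := by
  have hC : 1 ≤ B.C0 := by
    have := B.hs
    unfold Blocks.C0
    omega
  have hρ : ∀ {a b : ℕ}, a ≤ 2 * b → a / B.C0 ≤ 2 * (b / B.C0) + 1 := by
    intro a b hab
    have h3 : b < B.C0 * (b / B.C0 + 1) := Nat.lt_mul_div_succ b hC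
    have h4 : a < B.C0 * (2 * (b / B.C0) + 2) := by
      have : B.C0 * (2 * (b / B.C0) + 2) = 2 * (B.C0 * (b / B.C0 + 1)) := by ring
      rw [this]
      omega
    have h5 := Nat.div_lt_of_lt_mul h4
    omega
  have hx : bi B.s z = bi B.s z' ∨ LatAdj (bi B.s z) (bi B.s z') := by
    rcases hz with rfl | hz
    · exact Or.inl rfl
    · exact bi_step B.hs hz
  obtain ⟨w, hw1, hw2⟩ := link_yr hd hω.1 hω'.1 hω.2 hω'.2 hx (hρ h1) (hρ h2)
  obtain ⟨q, hq1, hq2⟩ := transfer B ω w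
  refine ⟨q, ?_, ?_⟩
  · refine hq1.trans ?_
    rw [mul_assoc]
    exact Nat.mul_le_mul_left _ hw1
  · intro v hv
    rcases Nat.eq_zero_or_pos w.length with h0 | h0
    · have hq0 : q.length = 0 := by
        rw [h0, mul_zero] at hq1
        omega
      have h3 : v = B.hb (by omega) z r ω := Final_len0 q hq0 hv
      rw [h3]
      exact Or.inl (Final_hub_mem B hd hω)
    · obtain ⟨u, hu, huv⟩ := hq2 h0 v hv
      rcases hw2 u hu with h3 | h3
      · exact Or.inl (Final_loc B hω.1 (Final_near B hd hω).2.2.2 h3 huv)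
      · exact Or.inr (Final_loc B hω'.1 (Final_near B hd hω').2.2.2 h3 huv)

/-- the constant of the links -/
def Blocks.M : ℕ := B.L * (50 * (7 ^ d + 3))

/-- roads -/
lemma Final_path (hd : 2 ≤ d) (ω : El d → Bool) : ∀ (w : List (V d × ℕ)) (a b : V d × ℕ),
    w.IsChain (fun a b => (a.1 = b.1 ∨ LatAdj a.1 b.1) ∧ a.2 ≤ 2 * b.2 ∧ b.2 ≤ 2 * a.2) →
    (∀ a ∈ w, ω ∈ B.rg a.1 a.2) → w.head? = some a → w.getLast? = some b →
    ∃ q : (Gr κ ω).Walk (B.hb (by omega) a.1 a.2 ω) (B.hb (by omega) b.1 b.2 ω),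
      q.length + 2 * (B.M * (B.dd a.1 a.2 ω) ^ 2) ≤
        (w.map fun c => 4 * B.M * (B.dd c.1 c.2 ω) ^ 2).sum ∧
      ∀ v ∈ q.support, ∃ c ∈ w, v ∈ Bx c.1 c.2 := by
  intro w
  induction w with
  | nil => intro a b _ _ h; simp at h
  | cons a w ih =>
    intro a' b hch hreg hhead hlast
    have haa : a = a' := by simpa using hhead
    subst haa
    cases w with
    | nil =>
      have hab : a = b := by simpa using hlast
      subst hab
      refine ⟨SimpleGraph.Walk.nil, ?_, ?_⟩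
      · simp only [SimpleGraph.Walk.length_nil, List.map_cons, List.map_nil, List.sum_cons,
          List.sum_nil]
        nlinarith [Nat.zero_le (B.M * (B.dd a.1 a.2 ω) ^ 2)]
      · intro v hv
        rw [SimpleGraph.Walk.support_nil, List.mem_singleton] at hv
        rw [hv]
        exact ⟨a, List.mem_cons_self, Final_hub_mem B hd (hreg a List.mem_cons_self)⟩
    | cons a2 w =>
      rw [List.isChain_cons_cons] at hch
      obtain ⟨⟨h1, h2, h3⟩, hch'⟩ := hch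
      obtain ⟨q, hq1, hq2⟩ := ih a2 b hch' (fun c hc => hreg c (List.mem_cons_of_mem _ hc)) rfl
        (by rw [List.getLast?_cons_cons] at hlast; exact hlast)
      obtain ⟨q', hq'1, hq'2⟩ := Final_step B hd (hreg a List.mem_cons_self)
        (hreg a2 (List.mem_cons_of_mem _ List.mem_cons_self)) h1 h2 h3
      refine ⟨q'.append q, ?_, ?_⟩
      · rw [SimpleGraph.Walk.length_append, List.map_cons, List.sum_cons]
        have h4 : B.M * (B.dd a.1 a.2 ω + B.dd a2.1 a2.2 ω) ^ 2 ≤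
            2 * (B.M * (B.dd a.1 a.2 ω) ^ 2) + 2 * (B.M * (B.dd a2.1 a2.2 ω) ^ 2) := by
          have h5 : (B.dd a.1 a.2 ω + B.dd a2.1 a2.2 ω) ^ 2 ≤
              2 * (B.dd a.1 a.2 ω) ^ 2 + 2 * (B.dd a2.1 a2.2 ω) ^ 2 := by
            zify
            nlinarith [sq_nonneg ((B.dd a.1 a.2 ω : ℤ) - B.dd a2.1 a2.2 ω)]
          calc B.M * (B.dd a.1 a.2 ω + B.dd a2.1 a2.2 ω) ^ 2
              ≤ B.M * (2 * (B.dd a.1 a.2 ω) ^ 2 + 2 * (B.dd a2.1 a2.2 ω) ^ 2) :=
                Nat.mul_le_mul_left _ h5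
            _ = _ := by ring
        have h6 : q'.length ≤ B.M * (B.dd a.1 a.2 ω + B.dd a2.1 a2.2 ω) ^ 2 := hq'1
        have h7 : 4 * B.M * (B.dd a.1 a.2 ω) ^ 2 = 4 * (B.M * (B.dd a.1 a.2 ω) ^ 2) := by ring
        rw [h7]
        omega
      · intro v hv
        rw [SimpleGraph.Walk.mem_support_append_iff] at hv
        rcases hv with hv | hv
        · rcases hq'2 v hv with h4 | h4
          · exact ⟨a, List.mem_cons_self, h4⟩
          · exact ⟨a2, List.mem_cons_of_mem _ List.mem_cons_self, h4⟩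
        · obtain ⟨c, hc, hvc⟩ := hq2 v hv
          exact ⟨c, List.mem_cons_of_mem _ hc, hvc⟩

/-! ## translations -/

lemma Final_F_shift (v : V d) (ω : El d → Bool) :
    B.F (shC ((B.s : ℤ) • v) ω) = {x | x + v ∈ B.F ω} := by
  ext x
  exact not_congr (B.shift_good v x ω).symm

lemma Final_rg_shift (v z : V d) (r : ℕ) (ω : El d → Bool) :
    ω ∈ B.rg (z + (B.s : ℤ) • v) r ↔ shC ((B.s : ℤ) • v) ω ∈ B.rg z r := by
  unfold Blocks.rg
  refine and_congr_right fun _ => ?_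
  rw [Final_F_shift, qs_trans, bi_trans B.hs]

lemma Final_dd_shift (v z : V d) (r : ℕ) (ω : El d → Bool) :
    B.dd (z + (B.s : ℤ) • v) r ω = B.dd z r (shC ((B.s : ℤ) • v) ω) := by
  unfold Blocks.dd
  rw [Final_F_shift, dr_trans, bi_trans B.hs]

lemma Final_hb_shift (hd : 0 < d) (v z : V d) (r : ℕ) (ω : El d → Bool) :
    B.hb hd (z + (B.s : ℤ) • v) r ω = B.hb hd z r (shC ((B.s : ℤ) • v) ω) + (B.s : ℤ) • v := by
  unfold Blocks.hb Blocks.yy
  rw [Final_F_shift, bi_trans B.hs, yr_trans, B.shift_h]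

/-! ## the integrable bound -/

/-- supremum of the local sizes over all scales -/
noncomputable def Blocks.X (z : V d) (ω : El d → Bool) : ENNReal :=
  ⨆ r : ℕ, ⨆ _ : ω ∈ B.rg z r, (B.dd z r ω : ENNReal)

lemma Final_X_le {z : V d} {r : ℕ} {ω : El d → Bool} (h : ω ∈ B.rg z r) :
    (B.dd z r ω : ENNReal) ≤ B.X z ω :=
  le_iSup_of_le r (le_iSup_of_le h le_rfl)

lemma Final_X_shift (v z : V d) (ω : El d → Bool) :
    B.X (z + (B.s : ℤ) • v) ω = B.X z (shC ((B.s : ℤ) • v) ω) := by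
  unfold Blocks.X
  refine iSup_congr fun r => ?_
  rw [Final_dd_shift]
  exact iSup_congr_Prop (Final_rg_shift B v z r ω) fun _ => rfl

lemma Final_X_bi {z z' : V d} (h : bi B.s z = bi B.s z') (ω : El d → Bool) :
    B.X z ω = B.X z' ω := by
  unfold Blocks.X Blocks.dd Blocks.rg
  rw [h]

lemma Final_X_meas (hd : 2 ≤ d) (z : V d) : Measurable (B.X z) := by
  refine Measurable.iSup fun r => ?_
  have h : Dep (Finset.sym2 (Bx z r)) (fun ω : El d → Bool =>
      ⨆ _ : ω ∈ B.rg z r, (B.dd z r ω : ENNReal)) := by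
    intro ω ω' hω
    have hω' : ∀ e ∈ InE (Bx z r : Set (V d)), ω e = ω' e := by
      intro e he
      exact hω e (Finset.mem_sym2_iff.2 he)
    have h1 := Final_reg B hω'
    show (⨆ _ : ω ∈ B.rg z r, (B.dd z r ω : ENNReal)) = ⨆ _ : ω' ∈ B.rg z r, (B.dd z r ω' : ENNReal)
    by_cases h2 : ω ∈ B.rg z r
    · rw [iSup_pos h2, iSup_pos (h1.1 h2), (Final_dd B hd h2 hω').1]
    · rw [iSup_neg h2, iSup_neg fun h3 => h2 (h1.2 h3)]
  exact h.measurable

lemma Final_X_tail {t : ℕ} (ht : 1 ≤ t) {z : V d} {ω : El d → Bool} (h : (t : ENNReal) ≤ B.X z ω) :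
    ∃ r, 1 ≤ r ∧ Qs (B.F ω) (bi B.s z) r ∧ t ≤ Dr (B.F ω) r (bi B.s z) := by
  by_contra hcon
  push Not at hcon
  have h1 : B.X z ω ≤ ((t - 1 : ℕ) : ENNReal) := by
    refine iSup_le fun r => iSup_le fun hr => ?_
    have h2 := hcon (r / B.C0) hr.1 hr.2
    have h3 : B.dd z r ω ≤ t - 1 := by
      unfold Blocks.dd
      omega
    exact_mod_cast h3
  have h2 := h.trans h1
  have h3 : t ≤ t - 1 := by exact_mod_cast h2
  omega

end

theorem road_sys (κ : Kind) (hd : 2 ≤ d) (p₀ p : unitInterval) (h0p : (p₀ : ℝ) < p)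
    (hp : (p : ℝ) < 1) (hθ : 0 < theta κ d p₀) : Nonempty (RoadSys κ d p) := by
  obtain ⟨B⟩ := blocks_thm κ hd p₀ p h0p hp hθ (Final_rho_pos d)
  obtain ⟨C₁, c₁, hc₁, hQ⟩ := qs_fail d
  obtain ⟨C₂, c₂, hc₂, hT⟩ := dr_tail d
  have hd0 : 0 < d := by omega
  have hB : ∀ A : Finset (V d), (prodBern (El d) p).real {ω | (A : Set (V d)) ⊆ B.F ω} ≤
      rhoB d ^ A.card := by
    intro A
    exact B.prob A
  have hC0 : 1 ≤ B.C0 := by
    have := B.hs
    unfold Blocks.C0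
    omega
  have hC0' : (0 : ℝ) < B.C0 := by exact_mod_cast hC0
  -- integrability
  have hX0 : ∫⁻ ω, B.X 0 ω ^ 2 ∂(prodBern (El d) p) < ⊤ := by
    refine lint_sq (prodBern (El d) p) (B.X 0) (Final_X_meas B hd 0) (C := C₂ + 1) hc₂ ?_
    intro t
    rcases Nat.eq_zero_or_pos t with rfl | ht
    · rw [Nat.cast_zero, Nat.cast_zero, mul_zero, neg_zero, Real.exp_zero, mul_one]
      refine measureReal_le_one.trans ?_
      push_cast
      have : (0 : ℝ) ≤ C₂ := Nat.cast_nonneg _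
      linarith
    · have h1 := hT (prodBern (El d) p) B.F hB (bi B.s 0) t
      have h2 : {ω | (t : ENNReal) ≤ B.X 0 ω} ⊆
          {ω | ∃ r, 1 ≤ r ∧ Qs (B.F ω) (bi B.s 0) r ∧ t ≤ Dr (B.F ω) r (bi B.s 0)} :=
        fun ω hω => Final_X_tail B ht hω
      refine (measureReal_mono h2).trans (h1.trans ?_)
      refine mul_le_mul_of_nonneg_right ?_ (Real.exp_pos _).le
      push_cast
      linarith
  have hXz : ∀ z : V d, ∫⁻ ω, B.X z ω ^ 2 ∂(prodBern (El d) p) =
      ∫⁻ ω, B.X 0 ω ^ 2 ∂(prodBern (El d) p) := by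
    intro z
    have h1 : ∀ ω, B.X z ω = B.X 0 (shC ((B.s : ℤ) • bi B.s z) ω) := by
      intro ω
      rw [← Final_X_shift]
      apply Final_X_bi
      rw [bi_trans B.hs]
      have h2 : bi B.s (0 : V d) = 0 := by
        funext i
        simp [bi]
      rw [h2, zero_add]
    simp_rw [h1]
    have h3 : Measurable fun ω : El d → Bool => shC ((B.s : ℤ) • bi B.s z) ω :=
      measurable_pi_lambda _ fun e => measurable_pi_apply _
    have h4 := prodBern_shift (d := d) p ((B.s : ℤ) • bi B.s z)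
    conv_rhs => rw [← h4]
    exact (lintegral_map ((Final_X_meas B hd 0).pow_const 2) h3).symm
  have hI : (4 * B.M : ENNReal) * ∫⁻ ω, B.X 0 ω ^ 2 ∂(prodBern (El d) p) ≠ ⊤ :=
    ENNReal.mul_ne_top (ENNReal.mul_ne_top (by norm_num) (ENNReal.natCast_ne_top _)) hX0.ne
  set I : ℝ := ((4 * B.M : ENNReal) * ∫⁻ ω, B.X 0 ω ^ 2 ∂(prodBern (El d) p)).toReal with hIdef
  have hI0 : 0 ≤ I := ENNReal.toReal_nonneg
  have hE1 : 0 < ((C₁ : ℝ) + 1) * Real.exp c₁ := by positivity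
  refine ⟨{
    L := B.s
    hL := B.hs
    C := I + ((C₁ : ℝ) + 1) * Real.exp c₁
    c := c₁ / B.C0
    hC := by linarith
    hc := by positivity
    reg := B.rg
    hub := B.hb hd0
    lam := fun z r ω => 4 * B.M * (B.dd z r ω) ^ 2
    dom := fun z ω => (4 * B.M : ENNReal) * B.X z ω ^ 2
    reg_on := ?_
    hub_on := ?_
    lam_on := ?_
    hub_mem := ?_
    prob := ?_
    dom_meas := ?_
    dom_int := ?_
    lam_le := ?_
    path := ?_
    shift_reg := ?_
    shift_hub := ?_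
    shift_lam := ?_
    shift_dom := ?_ }⟩
  · intro z r ω ω' h
    exact Final_reg B h
  · intro z r ω ω' hω h
    exact Final_hub_on B hd hω h
  · intro z r ω ω' hω h
    rw [(Final_dd B hd hω h).1]
  · intro z r ω hω
    exact Final_hub_mem B hd hω
  · intro z r
    have h0 : ((C₁ : ℝ) + 1) * Real.exp c₁ * Real.exp (-(c₁ / B.C0) * r) ≤
        (I + ((C₁ : ℝ) + 1) * Real.exp c₁) * Real.exp (-(c₁ / B.C0) * r) :=
      mul_le_mul_of_nonneg_right (by linarith) (Real.exp_pos _).le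
    refine le_trans ?_ h0
    have h1 : (r : ℝ) < B.C0 * ((r / B.C0 : ℕ) + 1) := by
      exact_mod_cast Nat.lt_mul_div_succ r hC0
    have h2 : c₁ / B.C0 * r ≤ c₁ * (r / B.C0 : ℕ) + c₁ := by
      rw [div_mul_eq_mul_div, div_le_iff₀ hC0']
      nlinarith
    have h3 : Real.exp (-(c₁ * (r / B.C0 : ℕ))) ≤
        Real.exp c₁ * Real.exp (-(c₁ / B.C0) * r) := by
      rw [← Real.exp_add]
      apply Real.exp_le_exp.2
      linarith
    rcases Nat.eq_zero_or_pos (r / B.C0) with h4 | h4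
    · rw [h4, Nat.cast_zero, mul_zero, neg_zero, Real.exp_zero] at h3
      refine measureReal_le_one.trans ?_
      have h5 : (0 : ℝ) ≤ C₁ := Nat.cast_nonneg _
      nlinarith
    · have h5 := hQ (prodBern (El d) p) B.F hB (bi B.s z) (r / B.C0)
      have h6 : (B.rg z r)ᶜ ⊆ {ω | ¬ Qs (B.F ω) (bi B.s z) (r / B.C0)} := by
        intro ω hω hq
        exact hω ⟨h4, hq⟩
      refine (measureReal_mono h6).trans (h5.trans ?_)
      have h7 : (0 : ℝ) ≤ C₁ := Nat.cast_nonneg _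
      calc (C₁ : ℝ) * Real.exp (-(c₁ * (r / B.C0 : ℕ)))
          ≤ C₁ * (Real.exp c₁ * Real.exp (-(c₁ / B.C0) * r)) :=
            mul_le_mul_of_nonneg_left h3 h7
        _ ≤ (C₁ + 1) * (Real.exp c₁ * Real.exp (-(c₁ / B.C0) * r)) :=
            mul_le_mul_of_nonneg_right (by linarith) (by positivity)
        _ = _ := by ring
  · intro z
    exact ((Final_X_meas B hd z).pow_const 2).const_mul _
  · intro z
    rw [lintegral_const_mul _ ((Final_X_meas B hd z).pow_const 2), hXz z,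
      ← ENNReal.ofReal_toReal hI]
    exact ENNReal.ofReal_le_ofReal (by linarith)
  · intro z r ω hω
    have h1 := Final_X_le B hω
    push_cast
    gcongr
  · intro ω w hch hreg a b ha hb
    have hreg' : ∀ a ∈ w, ω ∈ B.rg a.1 a.2 := fun a ha => (hreg a ha).2
    obtain ⟨q, hq1, hq2⟩ := Final_path B hd ω w a b hch hreg' ha hb
    refine rw_of_walk κ ω q ?_ hq2 (by omega)
    intro hκ
    have ha' : a ∈ w := List.mem_of_mem_head? (by rw [ha]; rfl)
    exact B.opn _ ω (Final_near B hd (hreg' a ha')).2.1 hκ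
  · intro v z r ω
    exact Final_rg_shift B v z r ω
  · intro v z r ω
    exact Final_hb_shift B hd0 v z r ω
  · intro v z r ω
    rw [Final_dd_shift]
    rfl
  · intro v z ω
    rw [Final_X_shift]
    rfl

end Pool.Agent.H66.RS
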